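import Pool.Agent.W491.FS.Defs

/-!
# The spectral sequence of a filtered complex, and the Froelicher spectral sequence

Self-contained definitions used in the final statement: smooth complex valued differential forms
on a complex manifold, exterior derivative, forms of type `(p,q)`, the filtration by `p`-degree,
and the spectral sequence of a filtered complex.
-/

open scoped Manifold ContDiff Topology

noncomputable section

namespace Pool.Agent.W491.FSP

set_option linter.unusedSectionVars false

universe u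

/-! ## the spectral sequence of a filtered complex -/

/-- A cochain complex `A^0 → A^1 → ...` of complex vector spaces with subspaces `F^p A^k`. -/
structure FiltCx where
  /-- the space `A^k` -/
  A : ℕ → Type u
  [grp : ∀ k, AddCommGroup (A k)]
  [mod : ∀ k, Module ℂ (A k)]
  /-- the differential -/
  d : ∀ k, A k →ₗ[ℂ] A (k + 1)
  d_d : ∀ k w, d (k + 1) (d k w) = 0
  /-- the subspace `F^p A^k` -/
  F : ℤ → ∀ k, Submodule ℂ (A k)

attribute [instance] FiltCx.grp FiltCx.mod

namespace FiltCx

variable (C : FiltCx.{u})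

/-- The numerators `Z_r^p = {a ∈ F^p A^k : d a ∈ F^{p+r} A^{k+1}}`. -/
def Z (r p : ℤ) (k : ℕ) : Submodule ℂ (C.A k) :=
  C.F p k ⊓ (C.F (p + r) (k + 1)).comap (C.d k)

/-- The image `d F^p A^{k-1}` inside `A^k` (zero for `k = 0`). -/
def dF (p : ℤ) : (k : ℕ) → Submodule ℂ (C.A k)
  | 0 => ⊥
  | k + 1 => (C.F p k).map (C.d k)

/-- The denominators `F^{p+1} A^k + d F^{p-r+1} A^{k-1}`. -/
def B (r p : ℤ) (k : ℕ) : Submodule ℂ (C.A k) := C.F (p + 1) k ⊔ C.dF (p - r + 1) k

/-- The term `E_r^{p,q}`, `q = k - p`, of the spectral sequence of the filtered complex: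
`{a ∈ F^p A^k : d a ∈ F^{p+r} A^{k+1}}` modulo `F^{p+1} A^k + d F^{p-r+1} A^{k-1}`. -/
def E (r p : ℤ) (k : ℕ) : Type u := C.Z r p k ⧸ (C.B r p k).submoduleOf (C.Z r p k)

instance (r p : ℤ) (k : ℕ) : AddCommGroup (C.E r p k) := Submodule.Quotient.addCommGroup _

instance (r p : ℤ) (k : ℕ) : Module ℂ (C.E r p k) := Submodule.Quotient.module _

theorem d_mem_Z (r p : ℤ) (k : ℕ) (w : C.A k) (hw : w ∈ C.Z r p k) :
    C.d k w ∈ C.Z r (p + r) (k + 1) := by
  refine ⟨hw.2, ?_⟩
  show C.d (k + 1) (C.d k w) ∈ C.F (p + r + r) (k + 1 + 1)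
  rw [C.d_d]
  exact Submodule.zero_mem _

/-- the differential on the numerators -/
def dZ (r p : ℤ) (k : ℕ) : C.Z r p k →ₗ[ℂ] C.Z r (p + r) (k + 1) :=
  (C.d k).restrict (C.d_mem_Z r p k)

theorem dZ_mem_B (r p : ℤ) (k : ℕ) : (C.B r p k).submoduleOf (C.Z r p k) ≤
    ((C.B r (p + r) (k + 1)).submoduleOf (C.Z r (p + r) (k + 1))).comap (C.dZ r p k) := by
  rintro ⟨w, hw⟩ hB
  change w ∈ C.B r p k at hB
  show C.d k w ∈ C.B r (p + r) (k + 1)
  obtain ⟨a, ha, b, hb, rfl⟩ := Submodule.mem_sup.1 hB
  have hb0 : C.d k b = 0 := by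
    cases k with
    | zero =>
      have : b = 0 := by simpa [dF] using hb
      rw [this, map_zero]
    | succ k =>
      obtain ⟨c, _, rfl⟩ := (Submodule.mem_map).1 hb
      exact C.d_d k c
  rw [map_add, hb0, add_zero]
  refine Submodule.mem_sup_right ?_
  show C.d k a ∈ (C.F (p + r - r + 1) k).map (C.d k)
  rw [add_sub_cancel_right]
  exact Submodule.mem_map_of_mem ha

/-- The differential `d_r : E_r^{p,q} → E_r^{p+r,q-r+1}` of the spectral sequence, `k = p + q`. -/
def dr (r p : ℤ) (k : ℕ) : C.E r p k →ₗ[ℂ] C.E r (p + r) (k + 1) :=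
  Submodule.mapQ _ _ (C.dZ r p k) (C.dZ_mem_B r p k)

/-- The differential `d_r` of the spectral sequence does not vanish on `E_r^{p,k-p}`. -/
def DrNeZero (r p : ℤ) (k : ℕ) : Prop := C.dr r p k ≠ 0

/-- `d_r = 0` in bidegree `(p, k - p)` in elementary terms -/
theorem dr_eq_zero_iff (r p : ℤ) (k : ℕ) : C.dr r p k = 0 ↔
    ∀ w ∈ C.F p k, C.d k w ∈ C.F (p + r) (k + 1) →
      C.d k w ∈ C.F (p + r + 1) (k + 1) ⊔ (C.F (p + 1) k).map (C.d k) := by
  have key : ∀ w (hw : w ∈ C.Z r p k), C.dr r p k (Submodule.Quotient.mk ⟨w, hw⟩) = 0 ↔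
      C.d k w ∈ C.F (p + r + 1) (k + 1) ⊔ (C.F (p + 1) k).map (C.d k) := by
    intro w hw
    have h1 : C.dr r p k (Submodule.Quotient.mk ⟨w, hw⟩) = 0 ↔
        C.d k w ∈ C.B r (p + r) (k + 1) :=
      Submodule.Quotient.mk_eq_zero (x := C.dZ r p k ⟨w, hw⟩)
        ((C.B r (p + r) (k + 1)).submoduleOf (C.Z r (p + r) (k + 1)))
    rw [h1]
    show C.d k w ∈ C.F (p + r + 1) (k + 1) ⊔ (C.F (p + r - r + 1) k).map (C.d k) ↔ _
    rw [add_sub_cancel_right]
  constructor
  · intro h w hw1 hw2
    exact (key w ⟨hw1, hw2⟩).1 (by rw [h]; rfl)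
  · intro h
    refine LinearMap.ext fun x => ?_
    obtain ⟨⟨w, hw⟩, rfl⟩ := Submodule.Quotient.mk_surjective _ x
    exact (key w hw).2 (h w hw.1 hw.2)

end FiltCx

/-! ## differential forms on a complex manifold -/

section manifold

variable (n : ℕ) (X : Type u) [TopologicalSpace X] [ChartedSpace (Fin n → ℂ) X]

/-- The charts of the manifold `X` modelled on `ℂ^n`. -/
def Chart : Type u := ↥(atlas (Fin n → ℂ) X)

variable {n X} in
/-- the chart as a partial homeomorphism from `X` to `ℂ^n` -/
def Chart.hom (c : Chart n X) : OpenPartialHomeomorph X (Fin n → ℂ) := Subtype.val c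

variable {n X} in
/-- the image of a chart -/
def Chart.image (c : Chart n X) : Set (Fin n → ℂ) := c.hom.target

variable {n X} in
/-- the transition map between two charts -/
def Chart.trans (c c' : Chart n X) : OpenPartialHomeomorph (Fin n → ℂ) (Fin n → ℂ) :=
  c.hom.symm.trans c'.hom

/-- Families consisting of a function from `ℂ^n` to the `ℝ`-multilinear alternating complex valued
`k`-forms on `ℂ^n` for every chart of `X`. -/
def Fam (k : ℕ) : Type u := Chart n X → (Fin n → ℂ) → (Fin n → ℂ) [⋀^Fin k]→L[ℝ] ℂ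

instance Fam.grp (k : ℕ) : AddCommGroup (Fam n X k) := Pi.addCommGroup

instance Fam.mod (k : ℕ) : Module ℂ (Fam n X k) := Pi.module _ _ _

variable {n X}

/-- The family `w` is a smooth complex valued `k`-form on `X`: for every chart a smooth form on
its image (extended by zero), compatible with the transition maps. -/
structure IsForm {k : ℕ} (w : Fam n X k) : Prop where
  smooth : ∀ c, ContDiffOn ℝ ∞ (w c) c.image
  off : ∀ c, ∀ y ∉ c.image, w c y = 0
  compat : ∀ c c' : Chart n X, ∀ y ∈ (c.trans c').source,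
    w c y = (w c' (c.trans c' y)).compContinuousLinearMap (fderiv ℝ (c.trans c') y)

theorem isForm_zero {k : ℕ} : IsForm (0 : Fam n X k) :=
  ⟨fun _ => contDiffOn_const, fun _ _ _ => rfl, fun _ _ _ _ => by
    show (0 : (Fin n → ℂ) [⋀^Fin k]→L[ℝ] ℂ) =
      (0 : (Fin n → ℂ) [⋀^Fin k]→L[ℝ] ℂ).compContinuousLinearMap _
    ext; simp⟩

theorem isForm_add {k : ℕ} {a b : Fam n X k} (ha : IsForm a) (hb : IsForm b) : IsForm (a + b) :=
  ⟨fun c => (ha.smooth c).add (hb.smooth c),
    fun c y hy => by
      show a c y + b c y = 0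
      rw [ha.off c y hy, hb.off c y hy, add_zero],
    fun c c' y hy => by
      show a c y + b c y = (a c' (c.trans c' y) + b c' (c.trans c' y)).compContinuousLinearMap _
      rw [ha.compat c c' y hy, hb.compat c c' y hy]
      ext; simp⟩

theorem isForm_smul {k : ℕ} (r : ℂ) {a : Fam n X k} (ha : IsForm a) : IsForm (r • a) :=
  ⟨fun c => (ha.smooth c).const_smul r,
    fun c y hy => by
      show r • a c y = 0
      rw [ha.off c y hy]
      ext; simp,
    fun c c' y hy => by
      show r • a c y = (r • a c' (c.trans c' y)).compContinuousLinearMap _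
      rw [ha.compat c c' y hy]
      ext; simp⟩

variable (n X)

/-- The smooth complex valued `k`-forms on `X` as a subspace of all families. -/
def FormSub (k : ℕ) : Submodule ℂ (Fam n X k) where
  carrier := {w | IsForm w}
  zero_mem' := @isForm_zero n X _ _ k
  add_mem' := @isForm_add n X _ _ k
  smul_mem' := @isForm_smul n X _ _ k

/-- The complex vector space `A^k(X)` of smooth complex valued `k`-forms on `X`. -/
def Forms (k : ℕ) : Type u := ↥(FormSub n X k)

instance Forms.grp (k : ℕ) : AddCommGroup (Forms n X k) := Submodule.addCommGroup (FormSub n X k)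

instance Forms.mod (k : ℕ) : Module ℂ (Forms n X k) := Submodule.module (FormSub n X k)

variable {n X}

/-- the family of local expressions of a form -/
def Forms.fam {k : ℕ} (w : Forms n X k) : Fam n X k := Subtype.val w

/-- the form with given local expressions -/
def Forms.of {k : ℕ} (w : Fam n X k) (h : IsForm w) : Forms n X k := Subtype.mk w h

theorem Forms.isForm {k : ℕ} (w : Forms n X k) : IsForm w.fam := Subtype.property w

/-- The alternating form `a` is of type `(p,q)`: multiplying all arguments by the complex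
number `l` multiplies its value by `l ^ p * conj l ^ q`. -/
def IsType {n k : ℕ} (p q : ℕ) (a : (Fin n → ℂ) [⋀^Fin k]→L[ℝ] ℂ) : Prop :=
  ∀ (l : ℂ) (v : Fin k → Fin n → ℂ), a (fun i => l • v i) = l ^ p * (starRingEnd ℂ l) ^ q * a v

/-- The form `w` on `X` is of type `(p,q)` at all points. -/
def HasType {k : ℕ} (p q : ℕ) (w : Forms n X k) : Prop := ∀ c y, IsType p q (w.fam c y)

theorem hasType_zero (p q k : ℕ) : HasType p q (0 : Forms n X k) := fun _ _ _ _ => by
  show (0 : ℂ) = _ * (0 : ℂ)
  rw [mul_zero]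

theorem hasType_add (p q k : ℕ) {a b : Forms n X k} (ha : HasType p q a) (hb : HasType p q b) :
    HasType p q (a + b) := fun c y l v => by
  have h1 := ha c y l v
  have h2 := hb c y l v
  show a.fam c y (fun i => l • v i) + b.fam c y (fun i => l • v i) =
    _ * (a.fam c y v + b.fam c y v)
  rw [h1, h2]
  ring

theorem hasType_smul (p q k : ℕ) (r : ℂ) {a : Forms n X k} (ha : HasType p q a) :
    HasType p q (r • a) := fun c y l v => by
  have h1 := ha c y l v
  show r * a.fam c y (fun i => l • v i) = _ * (r * a.fam c y v)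
  rw [h1]
  ring

variable (n X)

/-- The space `A^{p,q}(X)` of smooth forms of type `(p,q)`, in degree `k = p + q`. -/
def TypeForms (p q k : ℕ) : Submodule ℂ (Forms n X k) where
  carrier := {w | HasType p q w}
  zero_mem' := @hasType_zero n X _ _ p q k
  add_mem' := @hasType_add n X _ _ p q k
  smul_mem' := @hasType_smul n X _ _ p q k

/-- The filtration by `p`-degree: `F^p A^k(X)` is the sum of the `A^{p',q'}(X)` with `p' ≥ p` and
`p' + q' = k`. -/
def Fil (p : ℤ) (k : ℕ) : Submodule ℂ (Forms n X k) :=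
  ⨆ (p' : ℕ) (q' : ℕ) (_ : p ≤ (p' : ℤ)) (_ : p' + q' = k), TypeForms n X p' q' k

variable {n X}

/-- The exterior derivative of a family: the exterior derivative in every chart. -/
def dFam {k : ℕ} (w : Fam n X k) : Fam n X (k + 1) :=
  fun c y => open Classical in if y ∈ c.image then extDeriv (w c) y else 0

variable [IsManifold 𝓘(ℂ, Fin n → ℂ) ω X]

theorem isForm_dFam {k : ℕ} {w : Fam n X k} (hw : IsForm w) : IsForm (dFam w) := by
  have h : FS.IsForm n X k (fun c => w c) := ⟨hw.smooth, hw.off, hw.compat⟩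
  have h' := FS.dFam_isForm h
  exact ⟨h'.smooth, h'.off, h'.compat⟩

/-- The exterior derivative of a form. -/
def d {k : ℕ} (w : Forms n X k) : Forms n X (k + 1) := Forms.of (dFam w.fam) (isForm_dFam w.isForm)

/-- the form as an object of the auxiliary development -/
def conv {k : ℕ} (a : Forms n X k) : FS.Forms n X k :=
  FS.Forms.mk (fun c => a.fam c) ⟨a.isForm.smooth, a.isForm.off, a.isForm.compat⟩

/-- the form as an object of the present development -/
def deconv {k : ℕ} (a : FS.Forms n X k) : Forms n X k :=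
  Forms.of (fun c => a.loc c) ⟨a.isForm.smooth, a.isForm.off, a.isForm.compat⟩

theorem d_add {k : ℕ} (a b : Forms n X k) : d (a + b) = d a + d b := by
  have h := congrArg FS.Forms.loc ((FS.extD n X k).map_add (conv a) (conv b))
  exact Subtype.ext h

theorem d_smul {k : ℕ} (r : ℂ) (a : Forms n X k) : d (r • a) = r • d a := by
  have h := congrArg FS.Forms.loc ((FS.extD n X k).map_smul r (conv a))
  exact Subtype.ext h

variable (n X)

/-- The exterior derivative `d : A^k(X) → A^{k+1}(X)` as a linear map. -/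
def extD (k : ℕ) : Forms n X k →ₗ[ℂ] Forms n X (k + 1) where
  toFun := d
  map_add' := @d_add n X _ _ _ k
  map_smul' := @d_smul n X _ _ _ k

theorem extD_extD (k : ℕ) (w : Forms n X k) : extD n X (k + 1) (extD n X k w) = 0 := by
  have h := congrArg FS.Forms.loc (FS.extD_extD n X k (conv w))
  exact Subtype.ext h

/-- The complex of smooth complex valued differential forms on the complex manifold `X` with the
exterior derivative and the filtration by `p`-degree. Its spectral sequence is the Froelicher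
spectral sequence of `X`. -/
def deRham : FiltCx.{u} where
  A := Forms n X
  grp := Forms.grp n X
  mod := Forms.mod n X
  d := extD n X
  d_d := extD_extD n X
  F := Fil n X

/-! ## comparison with the auxiliary development -/

/-- the two spaces of forms are isomorphic -/
def equiv (k : ℕ) : Forms n X k ≃ₗ[ℂ] FS.Forms n X k where
  toFun a := conv a
  invFun a := deconv a
  map_add' _ _ := rfl
  map_smul' _ _ := rfl
  left_inv _ := rfl
  right_inv _ := rfl

theorem equiv_d (k : ℕ) (w : Forms n X k) :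
    equiv n X (k + 1) (extD n X k w) = FS.extD n X k (equiv n X k w) := rfl

theorem fil_map (p : ℤ) (k : ℕ) :
    (Fil n X p k).map (equiv n X k : Forms n X k →ₗ[ℂ] FS.Forms n X k) = FS.Fil n X p k := by
  rw [Fil, FS.Fil]
  simp only [Submodule.map_iSup]
  refine iSup_congr fun p' => iSup_congr fun q' => iSup_congr fun _ => iSup_congr fun _ => ?_
  ext w
  constructor
  · rintro ⟨a, ha, rfl⟩
    exact ha
  · intro hw
    exact ⟨deconv w, hw, rfl⟩

theorem mem_iff {k : ℕ} (S : Submodule ℂ (Forms n X k)) (w : Forms n X k) :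
    w ∈ S ↔ equiv n X k w ∈ S.map (equiv n X k : Forms n X k →ₗ[ℂ] FS.Forms n X k) := by
  constructor
  · intro h
    exact Submodule.mem_map_of_mem h
  · rintro ⟨a, ha, he⟩
    have : a = w := (equiv n X k).injective he
    rwa [this] at ha

theorem sup_map (p q : ℤ) (k : ℕ) :
    (Fil n X q (k + 1) ⊔ (Fil n X p k).map (extD n X k)).map
      (equiv n X (k + 1) : Forms n X (k + 1) →ₗ[ℂ] FS.Forms n X (k + 1)) =
    FS.Fil n X q (k + 1) ⊔ (FS.Fil n X p k).map (FS.extD n X k) := by
  rw [Submodule.map_sup, fil_map, ← Submodule.map_comp, ← fil_map n X p k, ← Submodule.map_comp]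
  rfl

theorem key_iff (r p : ℤ) (k : ℕ) :
    (∀ w ∈ Fil n X p k, extD n X k w ∈ Fil n X (p + r) (k + 1) →
      extD n X k w ∈ Fil n X (p + r + 1) (k + 1) ⊔ (Fil n X (p + 1) k).map (extD n X k)) ↔
    (∀ w ∈ FS.Fil n X p k, FS.extD n X k w ∈ FS.Fil n X (p + r) (k + 1) →
      FS.extD n X k w ∈ FS.Fil n X (p + r + 1) (k + 1) ⊔
        (FS.Fil n X (p + 1) k).map (FS.extD n X k)) := by
  constructor
  · intro h w hw hd
    have h1 := h (deconv w) ((mem_iff n X _ _).2 (by rw [fil_map]; exact hw))
      ((mem_iff n X _ _).2 (by rw [fil_map]; exact hd))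
    have h2 := (mem_iff n X _ _).1 h1
    rw [sup_map] at h2
    exact h2
  · intro h w hw hd
    have h1 := h (equiv n X k w) (by rw [← fil_map]; exact (mem_iff n X _ _).1 hw) (by
      rw [← fil_map]; exact (mem_iff n X _ _).1 hd)
    refine (mem_iff n X _ _).2 ?_
    rw [sup_map]
    exact h1

theorem deRham_dr (r p : ℤ) (k : ℕ) : (deRham n X).DrNeZero r p k ↔ FS.dr n X r p k ≠ 0 :=
  not_congr (((deRham n X).dr_eq_zero_iff r p k).trans
    ((key_iff n X r p k).trans (FS.dr_eq_zero_iff n X r p k).symm))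

end manifold

end Pool.Agent.W491.FSP
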