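import Pool.Agent.W491.FS.Ub
import Pool.Agent.W19.FS.Fa
import Pool.Agent.W19.FS.Fil
import Pool.Agent.W19.FS.P0
import Pool.Agent.W19.FS.P1
import Pool.Agent.W19.FS.P3
import Pool.Agent.W19.FS.Ub1
import Pool.Agent.W19.FS.Ub2
import Pool.Agent.W19.FS.Ibp
import Pool.Agent.W19.FS.Conj
import Pool.Agent.W469.FS.Cv
import Pool.Agent.W469.FS.Ext
import Pool.Agent.W469.FS.Int
import Pool.Agent.W469.FS.Ker
import Pool.Agent.W469.FS.Lsol
import Pool.Agent.W469.FS.P2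
import Pool.Agent.W469.FS.Tj

/-!
# The upper bound: assembly
-/

open scoped Manifold ContDiff Topology

noncomputable section

namespace Pool.Agent.W491.FS

universe u

theorem ub1' (h1 : S_TYPE) (h2 : S_DET) (h3 : S_LOCA) (h4 : S_LOCC) (h5 : S_PU.{u}) :
    S_UB1.{u} := by
  have p0 : S_P0.{u} := Pool.Agent.W19.FS.P0.main h1 h2
  have int : S_INT.{u} := Pool.Agent.W469.FS.Int.main h5 Pool.Agent.W469.FS.Cv.main
  have p1 : S_P1.{u} := Pool.Agent.W19.FS.P1.main h1 h3 h4 Pool.Agent.W19.FS.Ibp.main h5 p0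
  exact Pool.Agent.W19.FS.Ub1.main h1 h2 int Pool.Agent.W19.FS.Conj.main p0 p1

theorem ub2' (h1 : S_TYPE) (h2 : S_DET) (h3 : S_LOCB) (h4 : S_LOCC) (h5 : S_PU.{u}) :
    S_UB2.{u} := by
  have p0 : S_P0.{u} := Pool.Agent.W19.FS.P0.main h1 h2
  have int : S_INT.{u} := Pool.Agent.W469.FS.Int.main h5 Pool.Agent.W469.FS.Cv.main
  have fil : S_FIL.{u} := Pool.Agent.W19.FS.Fil.main h1
  have ext : S_EXT.{u} := Pool.Agent.W469.FS.Ext.main
  have p2 : S_P2.{u} := Pool.Agent.W469.FS.P2.main h1 h3 h4 Pool.Agent.W19.FS.Ibp.main ext p0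
  have lsol : S_LSOL.{u} := Pool.Agent.W469.FS.Lsol.main h1 h2 h3 Pool.Agent.W469.FS.Tj.main ext fil
  have ker : S_KER.{u} := Pool.Agent.W469.FS.Ker.main h1 h2
  have p3 : S_P3.{u} := Pool.Agent.W19.FS.P3.main h1 h2 Pool.Agent.W19.FS.Fa.main ext h5 fil p0
    lsol ker
  exact Pool.Agent.W19.FS.Ub2.main h1 h2 int fil p0 p2 p3

theorem upp (h1 : S_TYPE) (h2 : S_VAN) (h3 : S_DET) (h4 : S_LOCA) (h5 : S_LOCB) (h6 : S_LOCC)
    (h7 : S_PU.{u}) : S_UB.{u} :=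
  ub h1 h2 (Pool.Agent.W19.FS.Fil.main h1) (ub1' h1 h3 h4 h6 h7) (ub2' h1 h3 h5 h6 h7)

end Pool.Agent.W491.FS
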