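import Pool.Agent.W491.FS.Ext

/-!
# Adding blocks to a certified core
-/

noncomputable section

namespace Pool.Agent.W491.FS

variable {m k : ℕ}

/-- the inclusion of generators -/
abbrev incG (m k : ℕ) : Fin (m + 1) ⊕ Fin (m + 1) → Idx m k ⊕ Idx m k :=
  Sum.map Sum.inl Sum.inl

/-- the linear map on generators -/
def incL (m k : ℕ) : ((Fin (m + 1) ⊕ Fin (m + 1)) → ℂ) →ₗ[ℂ] ((Idx m k ⊕ Idx m k) → ℂ) :=
  ∑ i, (LinearMap.proj (R := ℂ) (φ := fun _ => ℂ) i).smulRight
    (Pi.single (incG m k i) (1 : ℂ) : (Idx m k ⊕ Idx m k) → ℂ)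

/-- the inclusion of the exterior algebra of the core -/
def inc (m k : ℕ) : Lam (Fin (m + 1)) →ₐ[ℂ] Lam (Idx m k) := ExteriorAlgebra.map (incL m k)

theorem inc_gen (i : Fin (m + 1) ⊕ Fin (m + 1)) :
    inc m k (gen i) = gen (incG m k i) := by
  rw [inc, gen, ExteriorAlgebra.map_apply_ι, gen]
  congr 1
  rw [incL, LinearMap.sum_apply, Finset.sum_eq_single i]
  · simp
  · intro j _ hj
    simp [Pi.single_eq_of_ne hj]
  · simp

theorem inc_quad (L : List (ℤ × (Fin (m + 1) ⊕ Fin (m + 1)) × (Fin (m + 1) ⊕ Fin (m + 1)))) :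
    inc m k (quad L) = quad (L.map fun t => (t.1, incG m k t.2.1, incG m k t.2.2)) := by
  induction L with
  | nil => simp [quad]
  | cons t L ih =>
    have h : quad (t :: L) = (t.1 : ℂ) • (gen t.2.1 * gen t.2.2) + quad L := by simp [quad]
    rw [h, map_add, map_smul, map_mul, inc_gen, inc_gen, ih]
    simp [quad]

theorem inc_dgen (s : Str (Fin (m + 1))) (i : Fin (m + 1) ⊕ Fin (m + 1)) :
    inc m k (dgen s i) = dgen (blk s k) (incG m k i) := by
  cases i with
  | inl i => exact inc_quad (s i)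
  | inr i =>
    show inc m k (quad ((s i).map fun t => (t.1, t.2.1.swap, t.2.2.swap))) = _
    rw [inc_quad, List.map_map]
    show _ = quad (((s i).map fun t => (t.1, Sum.map Sum.inl Sum.inl t.2.1,
      Sum.map Sum.inl Sum.inl t.2.2)).map fun t => (t.1, t.2.1.swap, t.2.2.swap))
    rw [List.map_map]
    congr 2
    funext t
    obtain ⟨c, a, b⟩ := t
    cases a <;> cases b <;> rfl

theorem inc_D {s : Str (Fin (m + 1))} {D : Lam (Idx m k) →ₗ[ℂ] Lam (Idx m k)}
    (hD : IsDer (blk s k) D) {D0 : Lam (Fin (m + 1)) →ₗ[ℂ] Lam (Fin (m + 1))}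
    (hD0 : IsDer s D0) (x : Lam (Fin (m + 1))) : D (inc m k x) = inc m k (D0 x) := by
  induction x using lam_induction with
  | h0 r =>
    have h1 : D (inc m k (algebraMap ℂ _ r)) = 0 := by
      rw [AlgHom.commutes, Algebra.algebraMap_eq_smul_one, map_smul, hD.one, smul_zero]
    have h2 : D0 (algebraMap ℂ _ r) = 0 := by
      rw [Algebra.algebraMap_eq_smul_one, map_smul, hD0.one, smul_zero]
    rw [h1, h2, map_zero]
  | h1 x y hx hy => rw [map_add, map_add, map_add, map_add, hx, hy]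
  | h2 i x hx =>
    rw [map_mul, inc_gen, hD.gen_mul, hx, hD0.gen_mul, map_sub, map_mul, map_mul, inc_gen,
      inc_dgen]
  | h3 r x hx => rw [map_smul, map_smul, map_smul, map_smul, hx]

theorem inc_TT {p q : ℕ} {x : Lam (Fin (m + 1))}
    (hx : x ∈ (TT p q : Submodule ℂ (Lam (Fin (m + 1))))) :
    inc m k x ∈ (TT p q : Submodule ℂ (Lam (Idx m k))) := by
  have h1 : (TT p q : Submodule ℂ (Lam (Fin (m + 1)))).map (inc m k).toLinearMap ≤
      (TT p q : Submodule ℂ (Lam (Idx m k))) := by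
    rw [TT, TT, Submodule.map_mul, Submodule.map_pow, Submodule.map_pow]
    refine mul_le_mul' (pow_le_pow_left' ?_ p) (pow_le_pow_left' ?_ q)
    · rw [Submodule.map_span, Submodule.span_le]
      rintro _ ⟨_, ⟨i, rfl⟩, rfl⟩
      exact Submodule.subset_span ⟨Sum.inl i, (inc_gen (m := m) (k := k) (Sum.inl i)).symm⟩
    · rw [Submodule.map_span, Submodule.span_le]
      rintro _ ⟨_, ⟨i, rfl⟩, rfl⟩
      exact Submodule.subset_span ⟨Sum.inl i, (inc_gen (m := m) (k := k) (Sum.inr i)).symm⟩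
  exact h1 ⟨x, hx, rfl⟩

theorem inc_volE (L : List (Fin (m + 1))) :
    inc m k (volE L) = volE (L.map Sum.inl) := by
  induction L with
  | nil => simp [volE]
  | cons i L ih =>
    have h : (volE (i :: L) : Lam (Fin (m + 1))) = gen (Sum.inl i) * gen (Sum.inr i) * volE L := by
      simp [volE]
    rw [h, map_mul, map_mul, inc_gen, inc_gen, ih]
    simp [volE]

section main

/-- closed central even elements -/
structure Cc (D : Lam (Idx m k) →ₗ[ℂ] Lam (Idx m k)) (K : Lam (Idx m k)) : Prop where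
  ev : Ev K
  closed : D K = 0

theorem xi_ev (j : Fin k) : Ev (xi j : Lam (Idx m k)) := by
  have hr1 : ∀ (a b : Idx m k ⊕ Idx m k), Ev ((gen a : Lam (Idx m k)) * gen b) :=
    fun a b => Ev.gen_gen a b
  have : (xi j : Lam (Idx m k)) = (lj j) ^ 2 • ((lj j * lj j) • (zt j * om j) - lj j • (zt j * omb j)
      + lj j • (ztb j * om j) - ztb j * omb j) +
      (zt j * om j - lj j • (zt j * omb j) + lj j • (ztb j * om j) -
        (lj j * lj j) • (ztb j * omb j)) := by
    simp only [xi, r1, r2, p1, p2, add_mul, mul_sub, smul_mul_assoc, mul_smul_comm, smul_sub,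
      smul_add, smul_smul]
    abel
  rw [this]
  refine Ev.add (Ev.smul ?_ _) ?_
  · exact (((hr1 _ _).smul _).sub ((hr1 _ _).smul _)).add ((hr1 _ _).smul _) |>.sub (hr1 _ _)
  · exact (((hr1 _ _)).sub ((hr1 _ _).smul _)).add ((hr1 _ _).smul _) |>.sub ((hr1 _ _).smul _)

theorem kap_ev (j : Fin k) : Ev (kap j : Lam (Idx m k)) := by
  have hr1 : ∀ (a b : Idx m k ⊕ Idx m k), Ev ((gen a : Lam (Idx m k)) * gen b) :=
    fun a b => Ev.gen_gen a b
  have : (kap j : Lam (Idx m k)) = (lj j • (zt j * om j) - (lj j * lj j) • (zt j * omb j)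
      + (ztb j * om j) - lj j • (ztb j * omb j)) +
      (lj j • (zt j * om j) - (zt j * omb j) + (lj j * lj j) • (ztb j * om j) -
        lj j • (ztb j * omb j)) := by
    simp only [kap, r1, r2, p1, p2, add_mul, mul_sub, smul_mul_assoc, mul_smul_comm,
      smul_add, smul_smul]
    abel
  rw [this]
  refine Ev.add ?_ ?_
  · exact (((hr1 _ _).smul _).sub ((hr1 _ _).smul _)).add ((hr1 _ _)) |>.sub ((hr1 _ _).smul _)
  · exact (((hr1 _ _).smul _).sub ((hr1 _ _))).add ((hr1 _ _).smul _) |>.sub ((hr1 _ _).smul _)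

theorem ee_mul (x : Lam (Idx m k)) : ee * x = inv x * ee := gen_mul_eq _ x

theorem eeb_mul (x : Lam (Idx m k)) : eeb * x = inv x * eeb := gen_mul_eq _ x

theorem ee_sq : (ee : Lam (Idx m k)) * ee = 0 := gen_sq _

theorem eeb_sq : (eeb : Lam (Idx m k)) * eeb = 0 := gen_sq _

theorem inv_ee : inv (ee : Lam (Idx m k)) = -ee := inv_gen _

theorem inv_eeb : inv (eeb : Lam (Idx m k)) = -eeb := inv_gen _

theorem xprod_ev (J : List (Fin k)) : Ev ((J.map xi).prod : Lam (Idx m k)) := by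
  refine Ev.list_prod fun x hx => ?_
  obtain ⟨j, _, rfl⟩ := List.mem_map.1 hx
  exact xi_ev j

variable {s : Str (Fin (m + 1))} {D : Lam (Idx m k) →ₗ[ℂ] Lam (Idx m k)}

theorem DX (hL : ∀ x y, D (x * y) = D x * y + CliffordAlgebra.involute x * D y) (h1 : D 1 = 0)
    (hx : ∀ j : Fin k, D (xi j) = ((lj j) ^ 4 - 1) • (ee * r1 j * r2 j)) (J : List (Fin k)) :
    ∃ u, D ((J.map xi).prod) = ee * u := by
  induction J with
  | nil => exact ⟨0, by simp [h1]⟩
  | cons j J ih =>
    obtain ⟨u, hu⟩ := ih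
    refine ⟨((lj j) ^ 4 - 1) • (r1 j * r2 j * (J.map xi).prod) + xi j * u, ?_⟩
    rw [List.map_cons, List.prod_cons, hL, hx, hu, (xi_ev j).inv, mul_add, ← mul_assoc (xi j),
      (xi_ev j).comm ee, mul_smul_comm, smul_mul_assoc]
    simp only [mul_assoc]

/-- the basic exact elements -/
theorem A1 (hL : ∀ x y, D (x * y) = D x * y + CliffordAlgebra.involute x * D y) (h1 : D 1 = 0)
    (hx : ∀ j : Fin k, D (xi j) = ((lj j) ^ 4 - 1) • (ee * r1 j * r2 j))
    (hA : ∀ L : List (Fin k), L.Nodup → L ≠ [] → ∃ x y : Lam (Idx m k),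
      D (ee * x + eeb * y) = ee * eeb * (L.map xi).prod)
    {lam ψ ψ₁ G Φ : Lam (Idx m k)} (hG : G = D lam + ee * eeb * ψ) (hl : lam * ee = 0)
    (hψ1 : ee * D ψ = 0) (hψ2 : eeb * D ψ = 0) (hΦ : Φ = ee * eeb * ψ₁) (J : List (Fin k))
    (hJ : J.Nodup) (hJ0 : J ≠ []) : ∃ B, D B = G * (J.map xi).prod ∧ Φ * B = 0 := by
  obtain ⟨x, y, hxy⟩ := hA J hJ hJ0
  have hX := xprod_ev (m := m) J
  refine ⟨lam * (J.map xi).prod + (ee * x + eeb * y) * ψ, ?_, ?_⟩
  · obtain ⟨u, hu⟩ := DX hL h1 hx J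
    have e1 : inv lam * ee = 0 := by
      have h : inv (lam * ee) = inv lam * inv ee := map_mul _ _ _
      rw [hl, map_zero, inv_ee, mul_neg] at h
      exact neg_eq_zero.1 h.symm
    have e2 : inv lam * D ((J.map xi).prod) = 0 := by
      rw [hu, ← mul_assoc, e1, zero_mul]
    have e3 : inv (ee * x) * D ψ = 0 := by
      have : inv (ee * x : Lam (Idx m k)) = -(ee * inv x) := by
        rw [map_mul, inv_ee, neg_mul]
      rw [this, ee_mul, inv_inv, neg_mul, mul_assoc, hψ1, mul_zero, neg_zero]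
    have e4 : inv (eeb * y) * D ψ = 0 := by
      have : inv (eeb * y : Lam (Idx m k)) = -(eeb * inv y) := by
        rw [map_mul, inv_eeb, neg_mul]
      rw [this, eeb_mul, inv_inv, neg_mul, mul_assoc, hψ2, mul_zero, neg_zero]
    have e5 : inv (ee * x + eeb * y) * D ψ = 0 := by
      rw [map_add, add_mul, e3, e4, add_zero]
    rw [map_add, hL, hL, hxy]
    have e2' : CliffordAlgebra.involute lam * D ((J.map xi).prod) = 0 := e2
    have e5' : CliffordAlgebra.involute (ee * x + eeb * y) * D ψ = 0 := e5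
    rw [e2', e5', add_zero, add_zero, hG, add_mul]
    congr 1
    rw [mul_assoc, mul_assoc (ee * eeb) ψ, hX.comm]
  · have f1 : ee * lam = 0 := by
      rw [ee_mul]
      have h : inv (lam * ee) = inv lam * inv ee := map_mul _ _ _
      rw [hl, map_zero, inv_ee, mul_neg] at h
      exact neg_eq_zero.1 h.symm
    have f2 : Φ * lam = 0 := by
      rw [hΦ, mul_assoc ee eeb, ee_mul, mul_assoc, f1, mul_zero]
    have f3 : Φ * ee = 0 := by
      rw [hΦ, mul_assoc ee eeb, ee_mul, mul_assoc, ee_sq, mul_zero]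
    have f4 : Φ * eeb = 0 := by
      rw [hΦ, mul_assoc, mul_assoc, eeb_mul (ψ₁ * eeb), map_mul, inv_eeb, mul_neg, neg_mul,
        mul_assoc (inv ψ₁), eeb_sq, mul_zero, neg_zero, mul_zero]
    rw [mul_add, ← mul_assoc, f2, zero_mul, zero_add, ← mul_assoc, mul_add, ← mul_assoc,
      ← mul_assoc, f3, f4, zero_mul, zero_mul, add_zero, zero_mul]

theorem step1 (hL : ∀ x y, D (x * y) = D x * y + CliffordAlgebra.involute x * D y)
    (hk : ∀ j : Fin k, D (kap j) = 0) {G Φ : Lam (Idx m k)}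
    (hJ : ∀ J : List (Fin k), J.Nodup → J ≠ [] → ∃ B, D B = G * (J.map xi).prod ∧ Φ * B = 0)
    (Q : List (Fin k)) : ∀ (J : List (Fin k)) (K : Lam (Idx m k)), (J ++ Q).Nodup → J ≠ [] →
      Cc D K → ∃ B, D B = G * (J.map xi).prod * K *
        (Q.map fun j => xi j - lj j • kap j).prod ∧ Φ * B = 0 := by
  induction Q with
  | nil =>
    intro J K hn h0 hK
    rw [List.append_nil] at hn
    obtain ⟨B, hB1, hB2⟩ := hJ J hn h0
    refine ⟨B * K, ?_, ?_⟩
    · rw [hL, hB1, hK.closed, mul_zero, add_zero, List.map_nil, List.prod_nil, mul_one]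
    · rw [← mul_assoc, hB2, zero_mul]
  | cons j Q ih =>
    intro J K hn h0 hK
    have hn' : ((j :: J) ++ Q).Nodup := by
      rw [List.cons_append]
      exact List.nodup_middle.1 hn
    have hn'' : (J ++ Q).Nodup := by
      rw [List.cons_append] at hn'
      exact (List.nodup_cons.1 hn').2
    obtain ⟨B₁, h11, h12⟩ := ih (j :: J) K hn' (List.cons_ne_nil _ _) hK
    obtain ⟨B₂, h21, h22⟩ := ih J (K * kap j) hn'' h0
      ⟨hK.ev.mul (kap_ev j), by rw [hL, hK.closed, hk, mul_zero, zero_mul, add_zero]⟩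
    refine ⟨B₁ - lj j • B₂, ?_, ?_⟩
    · rw [map_sub, map_smul, h11, h21, List.map_cons, List.prod_cons, List.map_cons,
        List.prod_cons, sub_mul, mul_sub, (xi_ev j).comm ((J.map xi).prod), smul_mul_assoc,
        mul_smul_comm]
      congr 1
      · rw [mul_assoc G, mul_assoc _ (xi j) K, (xi_ev j).comm K]
        simp only [mul_assoc]
      · simp only [mul_assoc]
    · rw [mul_sub, mul_smul_comm, h12, h22, smul_zero, sub_zero]

theorem step2 (hL : ∀ x y, D (x * y) = D x * y + CliffordAlgebra.involute x * D y)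
    (hk : ∀ j : Fin k, D (kap j) = 0) {β G Φ : Lam (Idx m k)} (hβ : D β = G)
    (hJ : ∀ J : List (Fin k), J.Nodup → J ≠ [] → ∃ B, D B = G * (J.map xi).prod ∧ Φ * B = 0)
    (Q : List (Fin k)) : ∀ (K : Lam (Idx m k)), Q.Nodup → Cc D K →
      ∃ B, D B = G * K * (Q.map fun j => xi j - lj j • kap j).prod ∧
        Φ * B = Φ * β * K * (Q.map fun j => -(lj j • kap j)).prod := by
  induction Q with
  | nil =>
    intro K _ hK
    refine ⟨β * K, ?_, ?_⟩
    · rw [hL, hβ, hK.closed, mul_zero, add_zero, List.map_nil, List.prod_nil, mul_one]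
    · rw [List.map_nil, List.prod_nil, mul_one, mul_assoc]
  | cons j Q ih =>
    intro K hn hK
    obtain ⟨B₁, h11, h12⟩ := step1 hL hk hJ Q [j] K (by simpa using hn) (by simp) hK
    obtain ⟨B₂, h21, h22⟩ := ih (K * kap j) (List.nodup_cons.1 hn).2
      ⟨hK.ev.mul (kap_ev j), by rw [hL, hK.closed, hk, mul_zero, zero_mul, add_zero]⟩
    refine ⟨B₁ - lj j • B₂, ?_, ?_⟩
    · rw [map_sub, map_smul, h11, h21, List.map_cons, List.prod_cons, List.map_cons, List.map_nil,
        List.prod_cons, List.prod_nil, mul_one, sub_mul, mul_sub, smul_mul_assoc,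
        mul_smul_comm]
      congr 1
      · rw [mul_assoc G, (xi_ev j).comm K]
        simp only [mul_assoc]
      · simp only [mul_assoc]
    · rw [mul_sub, mul_smul_comm, h12, h22, zero_sub, List.map_cons, List.prod_cons, neg_mul,
        smul_mul_assoc, mul_neg, mul_smul_comm]
      simp only [mul_assoc]

theorem lj_ne (j : Fin k) : (lj j) ^ 2 - 1 ≠ 0 ∧ lj j ≠ 0 := by
  have h : lj j = ((j : ℕ) + 2 : ℕ) := by simp [lj]
  rw [h]
  constructor
  · intro h0
    have h1 : ((((j : ℕ) + 2 : ℕ) : ℂ)) ^ 2 = 1 := sub_eq_zero.1 h0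
    have h2 : ((j : ℕ) + 2) ^ 2 = 1 := by exact_mod_cast h1
    have h3 : 2 ^ 2 ≤ ((j : ℕ) + 2) ^ 2 := Nat.pow_le_pow_left (by omega) 2
    omega
  · exact_mod_cast (by omega : (j : ℕ) + 2 ≠ 0)

theorem zt_om (hz : ∀ j : Fin k, (((lj j) ^ 2 - 1) ^ 2) • ((zt j * om j : Lam (Idx m k))) =
    xi j - lj j • kap j) (j : Fin k) :
    (zt j * om j : Lam (Idx m k)) = ((((lj j) ^ 2 - 1) ^ 2)⁻¹) • (xi j - lj j • kap j) := by
  rw [← hz j, smul_smul, inv_mul_cancel₀ (pow_ne_zero 2 (lj_ne j).1), one_smul]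

theorem prod_zt (hz : ∀ j : Fin k, (((lj j) ^ 2 - 1) ^ 2) • ((zt j * om j : Lam (Idx m k))) =
    xi j - lj j • kap j) (Q : List (Fin k)) : ∃ c : ℂ, c ≠ 0 ∧
    (Q.map fun j => (zt j * om j : Lam (Idx m k))).prod =
      c • (Q.map fun j => xi j - lj j • kap j).prod := by
  induction Q with
  | nil => exact ⟨1, one_ne_zero, by simp⟩
  | cons j Q ih =>
    obtain ⟨c, hc, h⟩ := ih
    refine ⟨(((lj j) ^ 2 - 1) ^ 2)⁻¹ * c, mul_ne_zero (inv_ne_zero
      (pow_ne_zero 2 (lj_ne j).1)) hc, ?_⟩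
    rw [List.map_cons, List.prod_cons, h, zt_om hz, List.map_cons, List.prod_cons,
      smul_mul_assoc, mul_smul_comm, smul_smul]

theorem ztom_ev (Q : List (Fin k)) : Ev ((Q.map fun j => (zt j * om j : Lam (Idx m k))).prod) := by
  refine Ev.list_prod fun x hx => ?_
  obtain ⟨j, _, rfl⟩ := List.mem_map.1 hx
  exact Ev.gen_gen _ _

/-- the enumeration of the block generators -/
def bl (m : ℕ) {k : ℕ} (Q : List (Fin k)) : List (Idx m k) :=
  Q.flatMap fun j => [Sum.inr (j, false), Sum.inr (j, true)]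

theorem volE_append (A B : List (Idx m k)) : (volE (A ++ B) : Lam (Idx m k)) =
    volE A * volE B := by simp [volE]

theorem pair_blocks (hz : ∀ j : Fin k, (((lj j) ^ 2 - 1) ^ 2) • ((zt j * om j : Lam (Idx m k))) =
    xi j - lj j • kap j) (hkx : ∀ j : Fin k, (kap j : Lam (Idx m k)) * xi j = 0)
    (hkk : ∀ j : Fin k, ∃ c : ℂ, c ≠ 0 ∧ (kap j : Lam (Idx m k)) * kap j =
      c • (zt j * ztb j * (om j * omb j))) (Q : List (Fin k)) :
    ∃ d : ℂ, d ≠ 0 ∧ (Q.map fun j => (zt j * om j : Lam (Idx m k))).prod *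
      (Q.map fun j => -(lj j • kap j)).prod = d • volE (bl m Q) := by
  induction Q with
  | nil => exact ⟨1, one_ne_zero, by simp [volE, bl]⟩
  | cons j Q ih =>
    obtain ⟨d, hd, h⟩ := ih
    obtain ⟨c, hc, hcc⟩ := hkk j
    have e1 : (zt j * om j : Lam (Idx m k)) * -(lj j • kap j) =
        ((((lj j) ^ 2 - 1) ^ 2)⁻¹ * (lj j) ^ 2 * c) • volE (bl m [j]) := by
      have hv : (volE (bl m [j]) : Lam (Idx m k)) = zt j * ztb j * (om j * omb j) := by
        simp [volE, bl, zt, ztb, om, omb]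
      rw [hv, zt_om hz, smul_mul_assoc, mul_neg, mul_smul_comm, sub_mul, (xi_ev j).comm, hkx j,
        zero_sub, smul_mul_assoc, hcc]
      simp only [smul_neg, neg_neg, smul_smul]
      congr 1
      ring
    refine ⟨(((lj j) ^ 2 - 1) ^ 2)⁻¹ * (lj j) ^ 2 * c * d, ?_, ?_⟩
    · have := lj_ne j
      exact mul_ne_zero (mul_ne_zero (mul_ne_zero (inv_ne_zero (pow_ne_zero 2 this.1))
        (pow_ne_zero 2 this.2)) hc) hd
    · have hb : bl m (j :: Q) = bl m [j] ++ bl m Q := by simp [bl]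
      rw [List.map_cons, List.prod_cons, List.map_cons, List.prod_cons, hb, volE_append]
      have e2 : ∀ a b c' d' : Lam (Idx m k), Ev b → a * b * (c' * d') = a * c' * (b * d') := by
        intro a b c' d' hb
        rw [mul_assoc, ← mul_assoc b c' d', hb.comm c', mul_assoc, mul_assoc]
      rw [e2 _ _ _ _ (ztom_ev Q), e1, h, smul_mul_assoc, mul_smul_comm, smul_smul]

end main

/-- adding blocks to a certified core -/
theorem ab (h1 : S_DER) (h2 : S_BID) (h3 : S_ALPHA) : S_AB := by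
  intro m s hs hc k D hD
  obtain ⟨⟨D0, hD0⟩, -⟩ := h1 (Fin (m + 1)) s
  have hL := (h1 (Idx m k) (blk s k)).2 D hD
  obtain ⟨β, θ, lam, ψ, ψ₁, hβ, hθ, hE, hl, hψ1, hψ2, hF, hψ3, hψ4, c, L, hc0, hLn, hLa, hp⟩ :=
    hc D0 hD0
  have hb := h2 m s k hs D hD
  have hA := h3 m s k hs D hD
  have hx : ∀ j : Fin k, D (xi j) = ((lj j) ^ 4 - 1) • (ee * r1 j * r2 j) :=
    fun j => (hb j).2.2.2.2.2.1
  have hk : ∀ j : Fin k, D (kap j) = 0 := fun j => (hb j).2.2.2.2.1
  have hz := fun j => (hb j).2.2.2.2.2.2.1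
  have hkx := fun j => (hb j).2.2.2.2.2.2.2.1
  have hkk := fun j => (hb j).2.2.2.2.2.2.2.2.1
  have hinc := inc_D hD hD0
  have g1 : inc m k (gen (Sum.inl 0)) = ee := inc_gen _
  have g2 : inc m k (gen (Sum.inr 0)) = eeb := inc_gen _
  -- transported facts
  have fE : D (inc m k β) = D (inc m k lam) + ee * eeb * inc m k ψ := by
    rw [hinc, hinc, hE, map_add, map_mul, map_mul, g1, g2]
  have fl : inc m k lam * ee = 0 := by rw [← g1, ← map_mul, hl, map_zero]
  have f1 : ee * D (inc m k ψ) = 0 := by rw [hinc, ← g1, ← map_mul, hψ1, map_zero]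
  have f2 : eeb * D (inc m k ψ) = 0 := by rw [hinc, ← g2, ← map_mul, hψ2, map_zero]
  have fF : D (inc m k θ) = ee * eeb * inc m k ψ₁ := by
    rw [hinc, hF, map_mul, map_mul, g1, g2]
  have f3 : ee * D (inc m k ψ₁) = 0 := by rw [hinc, ← g1, ← map_mul, hψ3, map_zero]
  have f4 : eeb * D (inc m k ψ₁) = 0 := by rw [hinc, ← g2, ← map_mul, hψ4, map_zero]
  have hJ1 := A1 hL hD.one hx hA fE fl f1 f2 fF
  have hJ2 : ∀ J : List (Fin k), J.Nodup → J ≠ [] →
      ∃ B, D B = D (inc m k θ) * (J.map xi).prod ∧ (0 : Lam (Idx m k)) * B = 0 :=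
    A1 hL hD.one hx hA (lam := 0) (ψ := inc m k ψ₁) (ψ₁ := 0) (G := D (inc m k θ))
      (by rw [map_zero, zero_add, fF]) (by rw [zero_mul]) f3 f4 (by rw [mul_zero])
  have h1c : Cc D (1 : Lam (Idx m k)) := ⟨Ev.one, hD.one⟩
  obtain ⟨B, hB1, hB2⟩ := step2 hL hk rfl hJ1 (List.finRange k) 1 (List.nodup_finRange k) h1c
  obtain ⟨Θ, hΘ1, -⟩ := step2 hL hk rfl hJ2 (List.finRange k) 1 (List.nodup_finRange k) h1c
  obtain ⟨cc, hcc, hP⟩ := prod_zt hz (List.finRange k)
  obtain ⟨d, hd, hpair⟩ := pair_blocks hz hkx hkk (List.finRange k)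
  set P : Lam (Idx m k) := ((List.finRange k).map fun j => (zt j * om j : Lam (Idx m k))).prod
    with hPdef
  have hPev : Ev P := ztom_ev _
  have hDB : D (cc • B) = D (inc m k β) * P := by
    rw [map_smul, hB1, mul_one, hP, mul_smul_comm]
  have hDΘ : D (cc • Θ) = D (inc m k θ) * P := by
    rw [map_smul, hΘ1, mul_one, hP, mul_smul_comm]
  have hPT : P ∈ (TT (2 * k) 0 : Submodule ℂ (Lam (Idx m k))) := by
    have : ∀ Q : List (Fin k), (Q.map fun j => (zt j * om j : Lam (Idx m k))).prod ∈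
        (TT (2 * Q.length) 0 : Submodule ℂ (Lam (Idx m k))) := by
      intro Q
      induction Q with
      | nil => exact TT_one
      | cons j Q ih =>
        rw [List.map_cons, List.prod_cons, List.length_cons]
        have h5 := TT_mul (TT_mul (TT_gen_inl (Sum.inr (j, false) : Idx m k))
          (TT_gen_inl (Sum.inr (j, true) : Idx m k))) ih
        have e : 1 + 1 + 2 * Q.length = 2 * (Q.length + 1) := by ring
        rw [e] at h5
        exact h5
    have h6 := this (List.finRange k)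
    rwa [List.length_finRange] at h6
  have hcard : Fintype.card (Idx m k) = m + 1 + 2 * k := by
    simp [Idx]
    ring
  refine ⟨cc • B, cc • Θ, ?_, ?_, cc * d * c, L.map Sum.inl ++ bl m (List.finRange k), ?_, ?_, ?_,
    ?_⟩
  · rw [hDB, hcard]
    have h5 := TT_mul (inc_TT (k := k) hβ) hPT
    rw [← hinc] at h5
    have e : m + 1 + 2 * k - 1 = m + 2 * k := by omega
    rw [e]
    exact h5
  · rw [hDΘ, hcard]
    have h5 := TT_mul (inc_TT (k := k) hθ) hPT
    rw [← hinc] at h5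
    exact h5
  · exact mul_ne_zero (mul_ne_zero hcc hd) hc0
  · rw [List.nodup_append]
    refine ⟨hLn.map Sum.inl_injective, ?_, ?_⟩
    · rw [bl, List.nodup_flatMap]
      refine ⟨fun j _ => by simp, ?_⟩
      refine (List.nodup_finRange k).imp ?_
      intro a b hab
      simp [Function.onFun, List.Disjoint, hab.symm, hab]
    · intro a ha b hb hab
      subst hab
      obtain ⟨i, _, rfl⟩ := List.mem_map.1 ha
      simp [bl] at hb
  · intro i
    rw [List.mem_append]
    cases i with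
    | inl i => exact Or.inl (List.mem_map.2 ⟨i, hLa i, rfl⟩)
    | inr q =>
      right
      obtain ⟨j, b⟩ := q
      rw [bl, List.mem_flatMap]
      exact ⟨j, List.mem_finRange j, by cases b <;> simp⟩
  · rw [hDΘ, volE_append, ← inc_volE]
    have e1 : D (inc m k θ) * inc m k β = c • inc m k (volE L) := by
      rw [hinc, ← map_mul, hp, map_smul]
    have e2 : D (inc m k θ) * P * B = (c • inc m k (volE L)) * (d • volE (bl m
        (List.finRange k))) := by
      rw [mul_assoc, hPev.comm B, ← mul_assoc, hB2, mul_one, mul_assoc, ← hPev.comm, hpair, e1]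
    rw [mul_smul_comm, e2, smul_mul_smul_comm, smul_smul]
    congr 1
    ring

end Pool.Agent.W491.FS
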