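import Pool.Agent.W491.FS.Der

/-!
# The identities of the blocks
-/

noncomputable section

namespace Pool.Agent.W491.FS

set_option linter.unusedSimpArgs false
set_option linter.unusedSectionVars false

section abs

variable {A : Type*} [Ring A] [Algebra ℂ A]

/-- six pairwise anticommuting elements of square zero -/
structure Six (e f z t w v : A) : Prop where
  e2 : e * e = 0
  f2 : f * f = 0
  z2 : z * z = 0
  t2 : t * t = 0
  w2 : w * w = 0
  v2 : v * v = 0
  fe : f * e = -(e * f)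
  ze : z * e = -(e * z)
  te : t * e = -(e * t)
  we : w * e = -(e * w)
  ve : v * e = -(e * v)
  zf : z * f = -(f * z)
  tf : t * f = -(f * t)
  wf : w * f = -(f * w)
  vf : v * f = -(f * v)
  tz : t * z = -(z * t)
  wz : w * z = -(z * w)
  vz : v * z = -(z * v)
  wt : w * t = -(t * w)
  vt : v * t = -(t * v)
  vw : v * w = -(w * v)

theorem sw {a b : A} (h : b * a = -(a * b)) (x : A) : b * (a * x) = -(a * (b * x)) := by
  rw [← mul_assoc, h, neg_mul, mul_assoc]

theorem sq' {a : A} (h : a * a = 0) (x : A) : a * (a * x) = 0 := by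
  rw [← mul_assoc, h, zero_mul]

variable {e f z t w v : A} (H : Six e f z t w v) (l : ℂ)
include H

theorem six_p1 : l • (e * z) + ((l ^ 2 + 1) • (e * t) + l • (f * z)) -
    l • (l • (f * t) + ((l ^ 2 + 1) • (f * z) + l • (e * t))) =
    (e - l ^ 2 • f) * (l • z + t) := by
  simp only [mul_add, sub_mul, mul_smul_comm, smul_mul_assoc]
  module

theorem six_p2 : l • (l • (e * z) + ((l ^ 2 + 1) • (e * t) + l • (f * z))) -
    (l • (f * t) + ((l ^ 2 + 1) • (f * z) + l • (e * t))) =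
    (l ^ 2 • e - f) * (z + l • t) := by
  simp only [mul_add, sub_mul, mul_smul_comm, smul_mul_assoc]
  module

theorem six_kap : -((l • z + t) * ((e - l ^ 2 • f) * (l • z + t))) +
    -((z + l • t) * ((l ^ 2 • e - f) * (z + l • t))) = 0 := by
  simp only [mul_add, add_mul, sub_mul, mul_sub, mul_smul_comm, smul_mul_assoc, mul_assoc,
    H.fe, H.ze, H.te, H.zf, H.tf, H.tz, sw H.fe, sw H.ze, sw H.te, sw H.zf, sw H.tf, sw H.tz,
    H.e2, H.f2, H.z2, H.t2, sq' H.e2, sq' H.f2, sq' H.z2, sq' H.t2, mul_neg, neg_neg, mul_zero]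
  module

theorem six_xi : l ^ 2 • (-((l • z + t) * ((l ^ 2 • e - f) * (z + l • t)))) +
    -((z + l • t) * ((e - l ^ 2 • f) * (l • z + t))) =
    (l ^ 4 - 1) • (e * (l • z + t) * (z + l • t)) := by
  simp only [mul_add, add_mul, sub_mul, mul_sub, mul_smul_comm, smul_mul_assoc, mul_assoc,
    H.fe, H.ze, H.te, H.zf, H.tf, H.tz, sw H.fe, sw H.ze, sw H.te, sw H.zf, sw H.tf, sw H.tz,
    H.e2, H.f2, H.z2, H.t2, sq' H.e2, sq' H.f2, sq' H.z2, sq' H.t2, mul_neg, neg_neg, mul_zero]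
  module

theorem six_zw : ((l ^ 2 - 1) ^ 2) • (z * w) =
    (l ^ 2 • ((l • z + t) * (l • w - v)) + (z + l • t) * (w - l • v)) -
    l • ((l • z + t) * (w - l • v) + (z + l • t) * (l • w - v)) := by
  simp only [mul_add, add_mul, sub_mul, mul_sub, mul_smul_comm, smul_mul_assoc]
  module

theorem six_kx : ((l • z + t) * (w - l • v) + (z + l • t) * (l • w - v)) *
    (l ^ 2 • ((l • z + t) * (l • w - v)) + (z + l • t) * (w - l • v)) = 0 := by
  simp only [mul_add, add_mul, sub_mul, mul_sub, mul_smul_comm, smul_mul_assoc, mul_assoc,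
    H.wz, H.wt, H.vz, H.vt, H.vw, H.tz, sw H.wz, sw H.wt, sw H.vz, sw H.vt, sw H.vw, sw H.tz,
    H.z2, H.t2, H.w2, H.v2, sq' H.z2, sq' H.t2, sq' H.w2, sq' H.v2, mul_neg, neg_neg, mul_zero]
  module

theorem six_kk : ((l • z + t) * (w - l • v) + (z + l • t) * (l • w - v)) *
    ((l • z + t) * (w - l • v) + (z + l • t) * (l • w - v)) =
    (-(2 * (l ^ 2 - 1) ^ 2)) • (z * t * (w * v)) := by
  simp only [mul_add, add_mul, sub_mul, mul_sub, mul_smul_comm, smul_mul_assoc, mul_assoc,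
    H.wz, H.wt, H.vz, H.vt, H.vw, H.tz, sw H.wz, sw H.wt, sw H.vz, sw H.vt, sw H.vw, sw H.tz,
    H.z2, H.t2, H.w2, H.v2, sq' H.z2, sq' H.t2, sq' H.w2, sq' H.v2, mul_neg, neg_neg, mul_zero]
  module

end abs

theorem six {m k : ℕ} (j : Fin k) :
    Six (ee : Lam (Idx m k)) eeb (zt j) (ztb j) (om j) (omb j) :=
  ⟨gen_sq _, gen_sq _, gen_sq _, gen_sq _, gen_sq _, gen_sq _,
    gen_anti _ _, gen_anti _ _, gen_anti _ _, gen_anti _ _, gen_anti _ _, gen_anti _ _,
    gen_anti _ _, gen_anti _ _, gen_anti _ _, gen_anti _ _, gen_anti _ _, gen_anti _ _,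
    gen_anti _ _, gen_anti _ _, gen_anti _ _⟩

theorem IsDer.gen {ι : Type} [DecidableEq ι] [Fintype ι] {s : Str ι} {D : Lam ι →ₗ[ℂ] Lam ι}
    (h : IsDer s D) (i : ι ⊕ ι) : D (gen i) = dgen s i := by
  have := h.gen_mul i 1
  rwa [mul_one, mul_one, h.one, mul_zero, sub_zero] at this

theorem bid : S_BID := by
  intro m s k hs D hD j
  have L := (der (Idx m k) (blk s k)).2 D hD
  have H := six (m := m) (k := k) j
  have dz : D (zt j) = 0 := by rw [zt, hD.gen]; simp [dgen, blk, quad]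
  have dzb : D (ztb j) = 0 := by rw [ztb, hD.gen]; simp [dgen, blk, quad]
  have dw : D (om j) = lj j • (ee * zt j) + (((lj j) ^ 2 + 1) • (ee * ztb j) +
      lj j • (eeb * zt j)) := by
    rw [om, hD.gen]; simp [dgen, blk, quad, lj, ee, eeb, zt, ztb]
  have dwb : D (omb j) = lj j • (eeb * ztb j) + (((lj j) ^ 2 + 1) • (eeb * zt j) +
      lj j • (ee * ztb j)) := by
    rw [omb, hD.gen]; simp [dgen, blk, quad, lj, ee, eeb, zt, ztb]
  have dr1 : D (r1 j) = 0 := by rw [r1, map_add, map_smul, dz, dzb, smul_zero, add_zero]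
  have dr2 : D (r2 j) = 0 := by rw [r2, map_add, map_smul, dz, dzb, smul_zero, add_zero]
  have dp1 : D (p1 j) = (ee - (lj j) ^ 2 • eeb) * r1 j := by
    rw [p1, map_sub, map_smul, dw, dwb, r1]
    exact six_p1 H _
  have dp2 : D (p2 j) = ((lj j) ^ 2 • ee - eeb) * r2 j := by
    rw [p2, map_sub, map_smul, dw, dwb, r2]
    exact six_p2 H _
  have i0 : ∀ i, CliffordAlgebra.involute (gen i : Lam (Idx m k)) = -gen i := fun i => inv_gen i
  have ir1 : CliffordAlgebra.involute (r1 j : Lam (Idx m k)) = -r1 j := by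
    rw [r1, map_add, map_smul, zt, ztb, i0, i0, smul_neg, neg_add]
  have ir2 : CliffordAlgebra.involute (r2 j : Lam (Idx m k)) = -r2 j := by
    rw [r2, map_add, map_smul, zt, ztb, i0, i0, smul_neg, neg_add]
  have evg : ∀ a b c d : (Idx m k) ⊕ (Idx m k), ∀ x y z t : ℂ,
      Ev ((x • gen a + y • gen b) * (z • gen c + t • gen d) : Lam (Idx m k)) := by
    intro a b c d x y z t
    have : ((x • gen a + y • gen b) * (z • gen c + t • gen d) : Lam (Idx m k)) =
        (x * z) • (gen a * gen c) + (x * t) • (gen a * gen d) + ((y * z) • (gen b * gen c) +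
          (y * t) • (gen b * gen d)) := by
      simp only [mul_add, add_mul, mul_smul_comm, smul_mul_assoc]
      module
    rw [this]
    exact (((Ev.gen_gen _ _).smul _).add ((Ev.gen_gen _ _).smul _)).add
      (((Ev.gen_gen _ _).smul _).add ((Ev.gen_gen _ _).smul _))
  have e1 : Ev (r1 j * p1 j : Lam (Idx m k)) := by
    have := evg (Sum.inl (Sum.inr (j, false))) (Sum.inr (Sum.inr (j, false)))
      (Sum.inl (Sum.inr (j, true))) (Sum.inr (Sum.inr (j, true))) (lj j) 1 1 (-lj j)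
    rwa [one_smul, one_smul, neg_smul, ← sub_eq_add_neg] at this
  have e2 : Ev (r2 j * p2 j : Lam (Idx m k)) := by
    have := evg (Sum.inl (Sum.inr (j, false))) (Sum.inr (Sum.inr (j, false)))
      (Sum.inl (Sum.inr (j, true))) (Sum.inr (Sum.inr (j, true))) 1 (lj j) (lj j) (-1)
    rwa [one_smul, neg_smul, one_smul, ← sub_eq_add_neg] at this
  have e3 : Ev (r1 j * p2 j : Lam (Idx m k)) := by
    have := evg (Sum.inl (Sum.inr (j, false))) (Sum.inr (Sum.inr (j, false)))
      (Sum.inl (Sum.inr (j, true))) (Sum.inr (Sum.inr (j, true))) (lj j) 1 (lj j) (-1)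
    rwa [one_smul, neg_smul, one_smul, ← sub_eq_add_neg] at this
  have e4 : Ev (r2 j * p1 j : Lam (Idx m k)) := by
    have := evg (Sum.inl (Sum.inr (j, false))) (Sum.inr (Sum.inr (j, false)))
      (Sum.inl (Sum.inr (j, true))) (Sum.inr (Sum.inr (j, true))) 1 (lj j) 1 (-lj j)
    rwa [one_smul, one_smul, neg_smul, ← sub_eq_add_neg] at this
  have hl : (lj j) ^ 2 - 1 ≠ 0 := by
    have : (lj j) ^ 2 - 1 = ((((j : ℕ) + 1) * ((j : ℕ) + 3) : ℕ) : ℂ) := by
      rw [lj]; push_cast; ring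
    rw [this]
    exact Nat.cast_ne_zero.2 (by positivity)
  refine ⟨dr1, dr2, dp1, dp2, ?_, ?_, ?_, ?_, ?_, ?_, ?_⟩
  · rw [kap, map_add, L, L, dr1, dr2, dp1, dp2, ir1, ir2, zero_mul, zero_mul, zero_add, zero_add,
      neg_mul, neg_mul]
    exact six_kap H _
  · rw [xi, map_add, map_smul, L, L, dr1, dr2, dp1, dp2, ir1, ir2, zero_mul, zero_mul, zero_add,
      zero_add, neg_mul, neg_mul]
    exact six_xi H _
  · exact six_zw H _
  · exact six_kx H _
  · exact ⟨_, neg_ne_zero.2 (mul_ne_zero two_ne_zero (pow_ne_zero 2 hl)), six_kk H _⟩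
  · exact (e1.add e2).comm
  · exact ((e3.smul _).add e4).comm

end Pool.Agent.W491.FS
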