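import Pool.Agent.W491.FS.Stm

/-!
# The invariant coframe on the quotient
-/

open scoped Manifold ContDiff Topology

noncomputable section

namespace Pool.Agent.W491.FS

set_option linter.unusedSectionVars false

/-- Leibniz rule for a covector field whose exterior derivative is a given sum of products -/
theorem extDeriv_wl_of_struct {n k : ℕ} {l : CN n → Cov n} {f : CN n → Alt n k} {y : CN n}
    (hl : DifferentiableAt ℝ l y) (hf : DifferentiableAt ℝ f y) (T : List (ℤ × Cov n × Cov n))
    (hT : ∀ u v, fderiv ℝ l y u v - fderiv ℝ l y v u =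
      (T.map fun t => (t.1 : ℂ) * (t.2.1 u * t.2.2 v - t.2.1 v * t.2.2 u)).sum) :
    extDeriv (fun z => wl (l z) (f z)) y =
      (T.map fun t => (t.1 : ℂ) • wl t.2.1 (wl t.2.2 (f y))).sum - wl (l y) (extDeriv f y) := by
  classical
  set L : Fin n ⊕ Fin n → Cov n := Sum.elim dz dzb with hL
  set g : Fin n ⊕ Fin n → CN n → ℂ :=
    Sum.elim (fun j z => comp10 (l z) j) (fun j z => comp01 (l z) j) with hg
  have hev : ∀ v : CN n, DifferentiableAt ℝ (fun z => l z v) y := fun v =>
    hl.clm_apply (differentiableAt_const v)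
  have hgd : ∀ i, DifferentiableAt ℝ (g i) y := by
    rintro (j | j)
    · exact ((hev _).sub ((hev _).const_smul Complex.I)).const_smul (1 / 2 : ℂ)
    · exact ((hev _).add ((hev _).const_smul Complex.I)).const_smul (1 / 2 : ℂ)
  have hlg : l = fun z => ∑ i, g i z • L i := by
    funext z
    rw [Fintype.sum_sum_type]
    conv_lhs => rw [eq_sum_comp (l z)]
    rw [Finset.sum_add_distrib]
    rfl
  have hfd : HasFDerivAt l (∑ i, (fderiv ℝ (g i) y).smulRight (L i)) y := by
    rw [hlg]
    have : HasFDerivAt (fun z => ∑ i, g i z • L i)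
        (∑ i, (fderiv ℝ (g i) y).smulRight (L i)) y := by
      refine HasFDerivAt.fun_sum fun i _ => ?_
      exact (hgd i).hasFDerivAt.smul_const (L i)
    exact this
  have hfd' : ∀ u v, fderiv ℝ l y u v = ∑ i, fderiv ℝ (g i) y u * L i v := by
    intro u v
    rw [hfd.fderiv]
    simp
  have h1 : extDeriv (fun z => wl (l z) (f z)) y =
      ∑ i, wl (fderiv ℝ (g i) y) (wl (L i) (f y)) - wl (l y) (extDeriv f y) := by
    have h2 := extDeriv_wl_sum Finset.univ g L (fun i _ => hgd i) hf
    rw [← congrFun hlg y] at h2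
    rw [← h2]
    congr 1
    funext z
    rw [congrFun hlg z]
  rw [h1]
  congr 1
  have h3 := wl_wl_eq_zero (Finset.univ : Finset ((Fin n ⊕ Fin n) ⊕ Fin T.length))
    (Sum.elim (fun i => fderiv ℝ (g i) y) (fun r => -(((T[r]).1 : ℂ) • (T[r]).2.1)))
    (Sum.elim L (fun r => (T[r]).2.2)) (fun u v => by
      rw [Fintype.sum_sum_type]
      simp only [Sum.elim_inl, Sum.elim_inr, neg_apply, smul_apply, smul_eq_mul]
      have h4 := hT u v
      rw [hfd', hfd', ← Finset.sum_sub_distrib] at h4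
      rw [h4, ← Fin.sum_univ_fun_getElem, ← Finset.sum_add_distrib]
      refine Finset.sum_eq_zero fun r _ => ?_
      show ((T[(r : ℕ)]).1 : ℂ) * _ + _ = 0
      simp only [Fin.getElem_fin]
      ring) (f y)
  rw [Fintype.sum_sum_type] at h3
  simp only [Sum.elim_inl, Sum.elim_inr, wl_smul_left, wl_neg_left, Finset.sum_neg_distrib] at h3
  rw [← sub_eq_add_neg, sub_eq_zero] at h3
  rw [h3, ← Fin.sum_univ_fun_getElem]
  rfl

section

variable {ι : Type} [Fintype ι] [DecidableEq ι]

theorem cof'_smooth {s : Str ι} (F : Fam ι s) (a : ι ⊕ ι) : ContDiff ℝ ∞ (cof' F.cof a) := by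
  cases a with
  | inl i => exact F.smooth i
  | inr i =>
    exact (ContinuousLinearMap.compL ℝ (ι → ℂ) ℂ ℂ
      Complex.conjCLE.toContinuousLinearMap).contDiff.comp (F.smooth i)

theorem cof'_conj {s : Str ι} (F : Fam ι s) (a : ι ⊕ ι) (y u : ι → ℂ) :
    starRingEnd ℂ (cof' F.cof a y u) = cof' F.cof a.swap y u := by
  cases a with
  | inl i => rfl
  | inr i => exact Complex.conj_conj _

theorem cof'_inv {s : Str ι} (F : Fam ι s) (i : ι ⊕ ι) (a : ι → ℂ) (ha : IsLat F.sc a)
    (y : ι → ℂ) : (cof' F.cof i (a + y + F.h a y)).comp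
      (fderiv ℝ (fun z => a + z + F.h a z) y) = cof' F.cof i y := by
  cases i with
  | inl i => exact F.inv i a ha y
  | inr i =>
    show (Complex.conjCLE.toContinuousLinearMap.comp (F.cof i (a + y + F.h a y))).comp
      (fderiv ℝ (fun z => a + z + F.h a z) y) =
        Complex.conjCLE.toContinuousLinearMap.comp (F.cof i y)
    rw [ContinuousLinearMap.comp_assoc, F.inv i a ha y]

theorem cof'_fderiv_inr {s : Str ι} (F : Fam ι s) (i : ι) (y u v : ι → ℂ) :
    fderiv ℝ (cof' F.cof (Sum.inr i)) y u v = starRingEnd ℂ (fderiv ℝ (F.cof i) y u v) := by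
  have h : HasFDerivAt (cof' F.cof (Sum.inr i))
      ((ContinuousLinearMap.compL ℝ (ι → ℂ) ℂ ℂ
        Complex.conjCLE.toContinuousLinearMap).comp (fderiv ℝ (F.cof i) y)) y :=
    (ContinuousLinearMap.compL ℝ (ι → ℂ) ℂ ℂ
      Complex.conjCLE.toContinuousLinearMap).hasFDerivAt.comp y
      ((F.smooth i).differentiable (by simp)).differentiableAt.hasFDerivAt
  rw [h.fderiv]
  rfl

theorem cof'_str_inr {s : Str ι} (F : Fam ι s) (i : ι) (y u v : ι → ℂ) :
    fderiv ℝ (cof' F.cof (Sum.inr i)) y u v - fderiv ℝ (cof' F.cof (Sum.inr i)) y v u =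
    ((s i).map fun t => (t.1 : ℂ) * (cof' F.cof t.2.1.swap y u * cof' F.cof t.2.2.swap y v -
      cof' F.cof t.2.1.swap y v * cof' F.cof t.2.2.swap y u)).sum := by
  rw [cof'_fderiv_inr, cof'_fderiv_inr, ← map_sub, F.str, map_list_sum, List.map_map]
  congr 1
  refine List.map_congr_left fun t _ => ?_
  simp only [Function.comp, map_mul, map_sub, cof'_conj]
  congr 1
  exact map_intCast _ _

/-- reindexing -/
def RR {n : ℕ} (σ : ι ≃ Fin n) : CN n →L[ℝ] (ι → ℂ) :=
  ContinuousLinearMap.pi fun j => ContinuousLinearMap.proj (σ j)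

theorem RR_apply {n : ℕ} (σ : ι ≃ Fin n) (z : CN n) (j : ι) : RR σ z j = z (σ j) := rfl

theorem RR_act {n : ℕ} (σ : ι ≃ Fin n) (T : Law ι) (a : ι → ℂ) (z : CN n) :
    RR σ (T.act σ a z) = a + RR σ z + T.h a (RR σ z) := by
  funext j
  rw [RR_apply, Law.act, Equiv.symm_apply_apply, Law.mul]
  rfl

theorem law_diff (T : Law ι) (a y : ι → ℂ) :
    DifferentiableAt ℝ (fun z => a + z + T.h a z) y := by
  have h : DifferentiableAt ℝ (T.h a) y :=
    (((T.hol a).restrict_scalars ℝ).differentiable (by simp)).differentiableAt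
  exact ((differentiableAt_const a).add differentiableAt_id).add h

theorem act_diff {n : ℕ} (σ : ι ≃ Fin n) (T : Law ι) (a : ι → ℂ) (y : CN n) :
    DifferentiableAt ℝ (T.act σ a) y := by
  rw [differentiableAt_pi]
  intro i
  have h := (law_diff T a (RR σ y)).comp y (RR σ).differentiableAt
  exact (differentiableAt_pi.1 h) (σ.symm i)

theorem fderiv_act {n : ℕ} (σ : ι ≃ Fin n) (T : Law ι) (a : ι → ℂ) (y : CN n) :
    (RR σ).comp (fderiv ℝ (T.act σ a) y) =
      (fderiv ℝ (fun z => a + z + T.h a z) (RR σ y)).comp (RR σ) := by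
  have h1 : HasFDerivAt (fun z => RR σ (T.act σ a z)) ((RR σ).comp (fderiv ℝ (T.act σ a) y)) y :=
    (RR σ).hasFDerivAt.comp y (act_diff σ T a y).hasFDerivAt
  have h2 : HasFDerivAt (fun z => a + RR σ z + T.h a (RR σ z))
      ((fderiv ℝ (fun z => a + z + T.h a z) (RR σ y)).comp (RR σ)) y :=
    (law_diff T a (RR σ y)).hasFDerivAt.comp y (RR σ).hasFDerivAt
  have h3 : (fun z => RR σ (T.act σ a z)) = fun z => a + RR σ z + T.h a (RR σ z) :=
    funext fun z => RR_act σ T a z
  rw [h3] at h1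
  exact h1.unique h2

theorem loc_list_sum {n k : ℕ} {X : Type} [TopologicalSpace X] [ChartedSpace (CN n) X]
    (L : List (Forms n X k)) (c : atlas (CN n) X) (y : CN n) :
    L.sum.loc c y = (L.map fun w => w.loc c y).sum := by
  induction L with
  | nil => rfl
  | cons w L ih =>
    rw [List.sum_cons, List.map_cons, List.sum_cons, ← ih]
    rfl

end

theorem cof (h : S_GEO) : S_COF := by
  intro n ι _ _ σ s F
  obtain ⟨X, _, _, _, hX1, hX2, hX3, htr⟩ := h n ι σ F.toLaw
  refine ⟨X, inferInstance, inferInstance, inferInstance, hX1, hX2, hX3, ?_⟩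
  have hinv : ∀ (i : ι ⊕ ι) (c c' : atlas (CN n) X), ∀ y ∈ (c.1.symm.trans c'.1).source,
      (cof' F.cof i (RR σ y)).comp (RR σ) =
        ((cof' F.cof i (RR σ ((c.1.symm.trans c'.1) y))).comp (RR σ)).comp
          (fderiv ℝ (c.1.symm.trans c'.1) y) := by
    intro i c c' y hy
    obtain ⟨a, ha, hev⟩ := htr c c' y hy
    have e1 : (c.1.symm.trans c'.1) y = F.toLaw.act σ a y := hev.self_of_nhds
    have e2 : fderiv ℝ (c.1.symm.trans c'.1) y = fderiv ℝ (F.toLaw.act σ a) y :=
      Filter.EventuallyEq.fderiv_eq hev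
    rw [e1, e2, RR_act, ContinuousLinearMap.comp_assoc, fderiv_act, ← ContinuousLinearMap.comp_assoc,
      cof'_inv F i a ha]
  have hsm : ∀ i : ι ⊕ ι, ContDiff ℝ ∞ fun y : CN n => (cof' F.cof i (RR σ y)).comp (RR σ) := by
    intro i
    exact ((ContinuousLinearMap.compL ℝ (CN n) (ι → ℂ) ℂ).flip (RR σ)).contDiff.comp
      ((cof'_smooth F i).comp (RR σ).contDiff)
  have hfd : ∀ (i : ι ⊕ ι) (y u v : CN n),
      fderiv ℝ (fun y : CN n => (cof' F.cof i (RR σ y)).comp (RR σ)) y u v =
        fderiv ℝ (cof' F.cof i) (RR σ y) (RR σ u) (RR σ v) := by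
    intro i y u v
    have h : HasFDerivAt (fun y : CN n => (cof' F.cof i (RR σ y)).comp (RR σ))
        (((ContinuousLinearMap.compL ℝ (CN n) (ι → ℂ) ℂ).flip (RR σ)).comp
          ((fderiv ℝ (cof' F.cof i) (RR σ y)).comp (RR σ))) y :=
      ((ContinuousLinearMap.compL ℝ (CN n) (ι → ℂ) ℂ).flip (RR σ)).hasFDerivAt.comp y
        ((((cof'_smooth F i).differentiable (by simp)).differentiableAt.hasFDerivAt).comp y
          (RR σ).hasFDerivAt)
    rw [h.fderiv]
    rfl
  let θ : ι ⊕ ι → OneF n X := fun i =>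
    { loc := fun _ y => (cof' F.cof i (RR σ y)).comp (RR σ)
      smooth := fun _ => (hsm i).contDiffOn
      compat := hinv i }
  refine ⟨⟨θ, ?_, ?_, ?_, ?_, ?_⟩⟩
  · intro i c y _ l v
    exact F.lin i (RR σ y) l (RR σ v)
  · intro i c y _
    rfl
  · intro c y _ v hv
    have h0 := F.indep (RR σ y) (RR σ v) hv
    funext j
    have := congrFun h0 (σ.symm j)
    rwa [RR_apply, Equiv.apply_symm_apply] at this
  · intro i k w
    refine Forms.ext fun c y hy => ?_
    rw [extD_loc _ c hy]
    rw [Forms.loc_sub, Pi.sub_apply, Pi.sub_apply, loc_list_sum, List.map_map]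
    have key := extDeriv_wl_of_struct (k := k) (f := w.loc c) (y := y)
      (l := fun y : CN n => (cof' F.cof (Sum.inl i) (RR σ y)).comp (RR σ))
      (((hsm (Sum.inl i)).differentiable (by simp)).differentiableAt)
      (w.differentiableAt c hy)
      ((s i).map fun t => (t.1, (cof' F.cof t.2.1 (RR σ y)).comp (RR σ),
        (cof' F.cof t.2.2 (RR σ y)).comp (RR σ))) (fun u v => by
        rw [hfd, hfd]
        refine (F.str i (RR σ y) (RR σ u) (RR σ v)).trans ?_
        rw [List.map_map]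
        rfl)
    rw [List.map_map, ← extD_loc w c hy] at key
    exact key
  · intro i k w
    refine Forms.ext fun c y hy => ?_
    rw [extD_loc _ c hy]
    rw [Forms.loc_sub, Pi.sub_apply, Pi.sub_apply, loc_list_sum, List.map_map]
    have key := extDeriv_wl_of_struct (k := k) (f := w.loc c) (y := y)
      (l := fun y : CN n => (cof' F.cof (Sum.inr i) (RR σ y)).comp (RR σ))
      (((hsm (Sum.inr i)).differentiable (by simp)).differentiableAt)
      (w.differentiableAt c hy)
      ((s i).map fun t => (t.1, (cof' F.cof t.2.1.swap (RR σ y)).comp (RR σ),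
        (cof' F.cof t.2.2.swap (RR σ y)).comp (RR σ))) (fun u v => by
        rw [hfd, hfd]
        refine (cof'_str_inr F i (RR σ y) (RR σ u) (RR σ v)).trans ?_
        rw [List.map_map]
        rfl)
    rw [List.map_map, ← extD_loc w c hy] at key
    exact key

end Pool.Agent.W491.FS
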