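import Pool.Agent.W491.FS.Stm

/-!
# Explicit elements for the four cores (numbers `0..m` are `g_i`, `m+1..2m+1` are `conj g_i`)
-/

noncomputable section

namespace Pool.Agent.W491.FS

/-- numbering of the generators -/
def gnum (m i : ℕ) : Fin (m + 1) ⊕ Fin (m + 1) :=
  if i ≤ m then Sum.inl (Fin.ofNat (m + 1) i) else Sum.inr (Fin.ofNat (m + 1) (i - (m + 1)))

/-- the element given by a list of monomials, divided by `N` -/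
def elt (m N : ℕ) (L : List (ℤ × List ℕ)) : Lam (Fin (m + 1)) :=
  ((N : ℂ)⁻¹) • (L.map fun t => (t.1 : ℂ) • (t.2.map fun i => gen (gnum m i)).prod).sum

end Pool.Agent.W491.FS

end

namespace Pool.Agent.W491.FS

/-- core 3, element beta, denominator 1 -/
def d3_beta : List (ℤ × List ℕ) :=
  [(1, [1, 5]), (1, [4, 5])]

/-- core 3, element theta, denominator 1 -/
def d3_theta : List (ℤ × List ℕ) :=
  [(-1, [1, 2, 4]), (1, [2, 3, 5])]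

/-- core 4, element beta, denominator 2 -/
def d4_beta : List (ℤ × List ℕ) :=
  [(-2, [0, 3, 7]), (-1, [1, 2, 7]), (1, [1, 3, 6]), (-2, [1, 6, 7]), (2, [2, 3, 5]), (-1, [2,
  5, 7]), (-4, [3, 4, 7]), (1, [3, 5, 6]), (2, [5, 6, 7])]

/-- core 4, element theta, denominator 6 -/
def d4_theta : List (ℤ × List ℕ) :=
  [(-1, [0, 1, 3, 7]), (-3, [0, 2, 3, 6]), (1, [0, 3, 5, 7]), (-2, [1, 2, 3, 5]), (1, [1, 2,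
  5, 7]), (2, [1, 3, 4, 7]), (-1, [1, 3, 5, 6]), (-2, [1, 5, 6, 7]), (2, [3, 4, 5, 7])]

/-- core P, element beta, denominator 3 -/
def dP_beta : List (ℤ × List ℕ) :=
  [(1, [0, 2, 3, 7]), (-2, [0, 2, 8, 9]), (-1, [0, 3, 6, 8]), (-2, [0, 7, 8, 9]), (-2, [1, 2,
  3, 9]), (2, [2, 3, 5, 9]), (-2, [2, 3, 6, 7]), (2, [3, 5, 7, 9]), (2, [6, 7, 8, 9])]

/-- core P, element theta, denominator 3 -/
def dP_theta : List (ℤ × List ℕ) :=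
  [(-3, [0, 1, 3, 4, 8]), (1, [0, 2, 4, 7, 8]), (-1, [1, 2, 3, 5, 8]), (2, [1, 2, 4, 8, 9]),
  (-2, [1, 3, 5, 7, 8]), (-1, [1, 4, 7, 8, 9]), (-1, [2, 4, 5, 8, 9]), (-2, [2, 4, 6, 7, 8]),
  (-2, [4, 5, 7, 8, 9])]

/-- core P, element lam, denominator 1 -/
def dP_lam : List (ℤ × List ℕ) :=
  [(1, [0, 2, 3, 7]), (1, [0, 3, 6, 8])]

/-- core P, element psi, denominator 1 -/
def dP_psi : List (ℤ × List ℕ) :=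
  [(-4, [0, 2, 3]), (2, [0, 3, 7]), (2, [2, 3, 6])]

/-- core P, element psi1, denominator 1 -/
def dP_psi1 : List (ℤ × List ℕ) :=
  [(-1, [0, 2, 4, 8]), (1, [0, 4, 7, 8]), (1, [1, 2, 3, 4])]

/-- core Q, element beta, denominator 2 -/
def dQ_beta : List (ℤ × List ℕ) :=
  [(1, [0, 1, 4, 8, 10]), (-1, [0, 1, 4, 10, 11]), (1, [0, 2, 4, 6, 10]), (1, [0, 2, 4, 8,
  9]), (-1, [0, 2, 4, 8, 11]), (-1, [0, 2, 8, 9, 10]), (-2, [0, 2, 8, 10, 11]), (2, [0, 3, 4,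
  6, 10]), (-1, [0, 3, 4, 7, 10]), (-1, [0, 3, 4, 8, 9]), (1, [0, 3, 4, 8, 11]), (1, [0, 3, 4,
  9, 11]), (3, [0, 3, 8, 9, 10]), (1, [0, 3, 8, 10, 11]), (1, [0, 3, 9, 10, 11]), (-1, [0, 4,
  7, 8, 10]), (1, [0, 4, 7, 10, 11]), (1, [0, 4, 8, 9, 11]), (-1, [0, 8, 9, 10, 11]), (4, [1,
  2, 3, 4, 9]), (-2, [1, 2, 3, 4, 11]), (-1, [1, 2, 4, 8, 11]), (-1, [1, 2, 8, 10, 11]), (-1,
  [1, 2, 9, 10, 11]), (3, [1, 3, 8, 9, 10]), (2, [1, 3, 8, 10, 11]), (-1, [1, 4, 6, 9, 10]),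
  (-1, [1, 4, 6, 10, 11]), (1, [1, 4, 7, 9, 10]), (2, [1, 4, 8, 9, 11]), (-3, [1, 8, 9, 10,
  11]), (-1, [2, 3, 4, 6, 9]), (1, [2, 3, 4, 6, 11]), (1, [2, 3, 4, 7, 8]), (-5, [2, 3, 4, 7,
  9]), (3, [2, 3, 4, 7, 11]), (1, [2, 3, 6, 10, 11]), (1, [2, 3, 8, 9, 11]), (-1, [2, 4, 6, 7,
  10]), (1, [2, 4, 6, 9, 11]), (-1, [2, 4, 7, 8, 11]), (2, [2, 4, 7, 9, 11]), (1, [2, 6, 8,
  10, 11]), (-1, [2, 6, 9, 10, 11]), (1, [2, 7, 8, 10, 11]), (-2, [3, 4, 6, 7, 10]), (1, [3,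
  4, 6, 9, 11]), (2, [3, 4, 7, 8, 9]), (-1, [3, 4, 7, 8, 11]), (-1, [3, 6, 9, 10, 11]), (-4,
  [3, 7, 8, 9, 10]), (-2, [3, 7, 8, 10, 11]), (-1, [4, 6, 7, 8, 10]), (-1, [4, 6, 7, 10, 11]),
  (-2, [7, 8, 9, 10, 11])]

/-- core Q, element theta, denominator 1 -/
def dQ_theta : List (ℤ × List ℕ) :=
  [(-1, [0, 1, 3, 4, 5, 10]), (-1, [0, 1, 3, 4, 9, 10]), (-1, [0, 3, 4, 5, 8, 9]), (-2, [0, 3,
  4, 6, 9, 10]), (1, [0, 3, 5, 8, 9, 10]), (2, [0, 4, 5, 6, 9, 10]), (-1, [0, 4, 5, 7, 8,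
  10]), (1, [0, 4, 6, 8, 9, 10]), (-1, [1, 2, 3, 4, 5, 8]), (-2, [1, 2, 3, 4, 5, 9]), (4, [1,
  2, 3, 4, 6, 10]), (-1, [1, 2, 3, 5, 8, 10]), (-1, [1, 2, 3, 5, 9, 10]), (-1, [1, 2, 3, 8, 9,
  10]), (-2, [1, 2, 4, 7, 9, 10]), (-1, [1, 2, 5, 8, 9, 10]), (-1, [1, 3, 4, 5, 6, 10]), (-1,
  [1, 3, 4, 6, 9, 10]), (1, [1, 3, 5, 8, 9, 10]), (-1, [1, 3, 5, 9, 10, 11]), (1, [1, 4, 5, 6,
  9, 10]), (-1, [2, 3, 4, 5, 6, 9]), (-2, [2, 3, 4, 5, 7, 9]), (2, [2, 3, 4, 6, 7, 10]), (1,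
  [2, 3, 5, 6, 8, 10]), (1, [2, 3, 5, 6, 9, 10]), (-1, [2, 3, 7, 8, 9, 10]), (1, [2, 4, 5, 6,
  7, 10]), (-2, [2, 4, 6, 7, 8, 10]), (-1, [2, 5, 6, 8, 9, 10]), (1, [3, 4, 6, 7, 9, 10]),
  (-1, [3, 5, 6, 8, 10, 11]), (1, [5, 6, 8, 9, 10, 11])]

/-- core Q, element lam, denominator 1 -/
def dQ_lam : List (ℤ × List ℕ) :=
  [(-1, [0, 2, 3, 4, 9]), (1, [0, 2, 4, 7, 10])]

/-- core Q, element psi, denominator 1 -/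
def dQ_psi : List (ℤ × List ℕ) :=
  [(-1, [0, 3, 4, 8]), (-1, [2, 3, 4, 6]), (-1, [2, 4, 7, 8])]

/-- core Q, element psi1, denominator 1 -/
def dQ_psi1 : List (ℤ × List ℕ) :=
  [(1, [0, 3, 4, 5, 9]), (1, [0, 4, 5, 7, 10]), (-1, [1, 2, 3, 4, 5])]

end Pool.Agent.W491.FS
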