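import Mathlib

/-!
# The Froelicher spectral sequence of a complex manifold

Definitions only: smooth complex valued differential forms on a complex manifold (compatible
families of smooth forms on the images of the charts), exterior derivative, forms of type `(p,q)`,
the filtration by `p`-degree, and the pages `E_r` with the differentials `d_r` of the associated
spectral sequence.
-/

open scoped Manifold ContDiff Topology

noncomputable section

namespace Pool.Agent.W491.FS

/-- complex `n`-space. -/
abbrev CN (n : ℕ) : Type := Fin n → ℂ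

/-- `ℝ`-multilinear alternating `k`-forms on `ℂ^n` with values in `ℂ`. -/
abbrev Alt (n k : ℕ) : Type := CN n [⋀^Fin k]→L[ℝ] ℂ

/-- The alternating form `a` is of type `(p,q)`: multiplying all arguments by the complex
number `l` multiplies its value by `l ^ p * conj l ^ q`. -/
def IsType {n k : ℕ} (p q : ℕ) (a : Alt n k) : Prop :=
  ∀ (l : ℂ) (v : Fin k → CN n), a (fun i => l • v i) = l ^ p * (starRingEnd ℂ l) ^ q * a v

section manifold

variable (n : ℕ) (X : Type*) [TopologicalSpace X] [ChartedSpace (CN n) X]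

/-- The family `w` is a smooth `k`-form on `X`: for every chart `c` a smooth form on the image of
`c` (extended by zero outside), compatible under the transition maps. -/
structure IsForm (k : ℕ) (w : atlas (CN n) X → CN n → Alt n k) : Prop where
  smooth : ∀ c, ContDiffOn ℝ ∞ (w c) c.1.target
  off : ∀ c, ∀ y ∉ c.1.target, w c y = 0
  compat : ∀ c c', ∀ y ∈ (c.1.symm.trans c'.1).source,
    w c y = (w c' ((c.1.symm.trans c'.1) y)).compContinuousLinearMap
      (fderiv ℝ (c.1.symm.trans c'.1) y)

/-- The smooth complex valued `k`-forms on `X` as a subspace of all families. -/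
def FormSub (k : ℕ) : Submodule ℂ (atlas (CN n) X → CN n → Alt n k) where
  carrier := {w | IsForm n X k w}
  zero_mem' := ⟨fun _ => contDiffOn_const, fun _ _ _ => rfl, fun _ _ _ _ => by ext; simp⟩
  add_mem' := fun {a b} ha hb => ⟨fun c => (ha.smooth c).add (hb.smooth c),
    fun c y hy => by simp [ha.off c y hy, hb.off c y hy],
    fun c c' y hy => by
      simp only [Pi.add_apply, ha.compat c c' y hy, hb.compat c c' y hy]
      ext; simp⟩
  smul_mem' := fun r a ha => ⟨fun c => (ha.smooth c).const_smul r,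
    fun c y hy => by simp [ha.off c y hy],
    fun c c' y hy => by
      simp only [Pi.smul_apply, ha.compat c c' y hy]
      ext; simp⟩

/-- The complex vector space `A^k(X)` of smooth complex valued `k`-forms on `X`. -/
def Forms (k : ℕ) : Type _ := ↥(FormSub n X k)

instance (k : ℕ) : AddCommGroup (Forms n X k) := Submodule.addCommGroup (FormSub n X k)

instance (k : ℕ) : Module ℂ (Forms n X k) := Submodule.module (FormSub n X k)

variable {n X}

/-- the family of local expressions of a form -/
def Forms.loc {k : ℕ} (w : Forms n X k) : atlas (CN n) X → CN n → Alt n k := Subtype.val w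

/-- the form with given local expressions -/
def Forms.mk {k : ℕ} (w : atlas (CN n) X → CN n → Alt n k) (h : IsForm n X k w) : Forms n X k :=
  Subtype.mk w h

theorem Forms.isForm {k : ℕ} (w : Forms n X k) : IsForm n X k w.loc := Subtype.property w

theorem Forms.ext {k : ℕ} {w w' : Forms n X k} (h : ∀ c, ∀ y ∈ c.1.target, w.loc c y = w'.loc c y) :
    w = w' := by
  apply Subtype.ext
  funext c y
  by_cases hy : y ∈ c.1.target
  · exact h c y hy
  · exact (w.isForm.off c y hy).trans (w'.isForm.off c y hy).symm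

@[simp] theorem Forms.loc_mk {k : ℕ} (w : atlas (CN n) X → CN n → Alt n k) (h : IsForm n X k w) :
    (Forms.mk w h).loc = w := rfl

@[simp] theorem Forms.loc_zero {k : ℕ} : (0 : Forms n X k).loc = 0 := rfl

@[simp] theorem Forms.loc_add {k : ℕ} (a b : Forms n X k) : (a + b).loc = a.loc + b.loc := rfl

@[simp] theorem Forms.loc_neg {k : ℕ} (a : Forms n X k) : (-a).loc = -a.loc := rfl

@[simp] theorem Forms.loc_sub {k : ℕ} (a b : Forms n X k) : (a - b).loc = a.loc - b.loc := rfl

@[simp] theorem Forms.loc_smul {k : ℕ} (r : ℂ) (a : Forms n X k) : (r • a).loc = r • a.loc := rfl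

variable (n X)

/-- The space `A^{p,q}(X)` of smooth forms of type `(p,q)`, in degree `k = p + q`. -/
def TypeForms (p q k : ℕ) : Submodule ℂ (Forms n X k) where
  carrier := {w | ∀ c y, IsType p q (w.loc c y)}
  zero_mem' := fun _ _ _ _ => by simp
  add_mem' := fun {a b} ha hb c y l v => by
    have h1 := ha c y l v
    have h2 := hb c y l v
    simp only [Forms.loc_add, Pi.add_apply, ContinuousAlternatingMap.add_apply, h1, h2]
    ring
  smul_mem' := fun r a ha c y l v => by
    have h1 := ha c y l v
    simp only [Forms.loc_smul, Pi.smul_apply, ContinuousAlternatingMap.smul_apply, h1,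
      smul_eq_mul]
    ring

/-- The filtration by `p`-degree: `F^p A^k(X)` is the sum of the `A^{p',q'}(X)` with `p' ≥ p` and
`p' + q' = k`. -/
def Fil (p : ℤ) (k : ℕ) : Submodule ℂ (Forms n X k) :=
  ⨆ (p' : ℕ) (q' : ℕ) (_ : p ≤ (p' : ℤ)) (_ : p' + q' = k), TypeForms n X p' q' k

variable {n X}

/-- the local expressions of the exterior derivative of a form. -/
def dFam {k : ℕ} (w : atlas (CN n) X → CN n → Alt n k) (c : atlas (CN n) X) (y : CN n) :
    Alt n (k + 1) :=
  open Classical in if y ∈ c.1.target then extDeriv (w c) y else 0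

theorem dFam_of_mem {k : ℕ} (w : atlas (CN n) X → CN n → Alt n k) (c : atlas (CN n) X)
    {y : CN n} (hy : y ∈ c.1.target) : dFam w c y = extDeriv (w c) y := by simp [dFam, hy]

theorem dFam_of_notMem {k : ℕ} (w : atlas (CN n) X → CN n → Alt n k) (c : atlas (CN n) X)
    {y : CN n} (hy : y ∉ c.1.target) : dFam w c y = 0 := by simp [dFam, hy]

theorem extDeriv_contDiffOn {k : ℕ} {f : CN n → Alt n k} {U : Set (CN n)} (hU : IsOpen U)
    (hf : ContDiffOn ℝ ∞ f U) : ContDiffOn ℝ ∞ (extDeriv f) U := by
  have h0 : ContDiffOn ℝ ∞ (fderiv ℝ f) U := hf.fderiv_of_isOpen hU (by simp)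
  exact ((ContinuousAlternatingMap.alternatizeUncurryFinCLM (n := k) ℝ (CN n) ℂ).contDiff
    (n := ∞)).comp_contDiffOn h0

theorem Forms.contDiffAt {k : ℕ} (w : Forms n X k) (c : atlas (CN n) X) {y : CN n}
    (hy : y ∈ c.1.target) : ContDiffAt ℝ ∞ (w.loc c) y :=
  (w.isForm.smooth c).contDiffAt (c.1.open_target.mem_nhds hy)

theorem Forms.differentiableAt {k : ℕ} (w : Forms n X k) (c : atlas (CN n) X) {y : CN n}
    (hy : y ∈ c.1.target) : DifferentiableAt ℝ (w.loc c) y :=
  (w.contDiffAt c hy).differentiableAt (by simp)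

section extd

variable [IsManifold 𝓘(ℂ, CN n) ω X]

/-- transition maps are holomorphic -/
theorem trans_contDiffOn_complex (c c' : atlas (CN n) X) :
    ContDiffOn ℂ ω (c.1.symm.trans c'.1) (c.1.symm.trans c'.1).source := by
  have h := (contDiffGroupoid ω 𝓘(ℂ, CN n)).compatible c.2 c'.2
  rw [contDiffGroupoid] at h
  have h1 := ((mem_groupoid_of_pregroupoid).1 h).1
  simpa [contDiffPregroupoid] using h1

/-- transition maps are smooth in the real sense -/
theorem trans_contDiffOn (c c' : atlas (CN n) X) :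
    ContDiffOn ℝ ∞ (c.1.symm.trans c'.1) (c.1.symm.trans c'.1).source :=
  ((trans_contDiffOn_complex c c').restrict_scalars ℝ).of_le (by simp)

theorem dFam_isForm {k : ℕ} {w : atlas (CN n) X → CN n → Alt n k} (hw : IsForm n X k w) :
    IsForm n X (k + 1) (dFam w) := by
  refine ⟨fun c => ?_, fun c y hy => dFam_of_notMem w c hy, fun c c' y hy => ?_⟩
  · exact (extDeriv_contDiffOn c.1.open_target (hw.smooth c)).congr
      (fun y hy => dFam_of_mem w c hy)
  · have hopen := (c.1.symm.trans c'.1).open_source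
    have hy1 : y ∈ c.1.target := by
      simp only [OpenPartialHomeomorph.trans_source, OpenPartialHomeomorph.symm_source,
        Set.mem_inter_iff] at hy
      exact hy.1
    have hy2 : (c.1.symm.trans c'.1) y ∈ c'.1.target := by
      have := (c.1.symm.trans c'.1).map_source hy
      simp only [OpenPartialHomeomorph.trans_target, Set.mem_inter_iff] at this
      exact this.1
    rw [dFam_of_mem w c hy1, dFam_of_mem w c' hy2, ← extDeriv_pullback (r := ∞)]
    · apply Filter.EventuallyEq.extDeriv_eq
      filter_upwards [hopen.mem_nhds hy] with z hz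
      exact hw.compat c c' z hz
    · exact ((hw.smooth c').contDiffAt (c'.1.open_target.mem_nhds hy2)).differentiableAt
        (by simp)
    · exact (trans_contDiffOn c c').contDiffAt (hopen.mem_nhds hy)
    · rw [minSmoothness_of_isRCLikeNormedField]
      exact WithTop.coe_le_coe.2 le_top

theorem extDeriv_const_smul_complex {k : ℕ} {f : CN n → Alt n k} {y : CN n}
    (hf : DifferentiableAt ℝ f y) (r : ℂ) :
    extDeriv (fun z => r • f z) y = r • extDeriv f y := by
  have h1 : fderiv ℝ (fun z => r • f z) y = r • fderiv ℝ f y := fderiv_const_smul hf r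
  rw [extDeriv, extDeriv, h1, ContinuousAlternatingMap.alternatizeUncurryFin_smul]

variable (n X)

/-- The exterior derivative `d : A^k(X) → A^{k+1}(X)`. -/
def extD (k : ℕ) : Forms n X k →ₗ[ℂ] Forms n X (k + 1) where
  toFun w := Forms.mk (dFam w.loc) (dFam_isForm w.isForm)
  map_add' a b := by
    refine Forms.ext fun c y hy => ?_
    simp only [Forms.loc_mk, Forms.loc_add, Pi.add_apply, dFam_of_mem _ c hy]
    exact extDeriv_add (a.differentiableAt c hy) (b.differentiableAt c hy)
  map_smul' r a := by
    refine Forms.ext fun c y hy => ?_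
    simp only [Forms.loc_mk, Forms.loc_smul, Pi.smul_apply, dFam_of_mem _ c hy,
      RingHom.id_apply]
    exact extDeriv_const_smul_complex (a.differentiableAt c hy) r

variable {n X} in
theorem extD_loc {k : ℕ} (w : Forms n X k) (c : atlas (CN n) X) {y : CN n}
    (hy : y ∈ c.1.target) : (extD n X k w).loc c y = extDeriv (w.loc c) y :=
  dFam_of_mem _ c hy

theorem extD_extD (k : ℕ) (w : Forms n X k) : extD n X (k + 1) (extD n X k w) = 0 := by
  refine Forms.ext fun c y hy => ?_
  rw [extD_loc _ c hy]
  have h2 : extDeriv ((extD n X k w).loc c) y = extDeriv (extDeriv (w.loc c)) y := by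
    apply Filter.EventuallyEq.extDeriv_eq
    filter_upwards [c.1.open_target.mem_nhds hy] with z hz
    exact extD_loc w c hz
  rw [h2, extDeriv_extDeriv_apply (w.contDiffAt c hy)]
  · rfl
  · rw [minSmoothness_of_isRCLikeNormedField]
    exact WithTop.coe_le_coe.2 le_top

/-- The numerators `Z_r^p = {a ∈ F^p A^k : d a ∈ F^{p+r} A^{k+1}}`. -/
def Z (r p : ℤ) (k : ℕ) : Submodule ℂ (Forms n X k) :=
  Fil n X p k ⊓ (Fil n X (p + r) (k + 1)).comap (extD n X k)

/-- The image `d F^p A^{k-1}` inside `A^k` (zero for `k = 0`). -/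
def dFil (p : ℤ) : (k : ℕ) → Submodule ℂ (Forms n X k)
  | 0 => ⊥
  | k + 1 => (Fil n X p k).map (extD n X k)

/-- The denominators `F^{p+1} A^k + d F^{p-r+1} A^{k-1}`. -/
def B (r p : ℤ) (k : ℕ) : Submodule ℂ (Forms n X k) :=
  Fil n X (p + 1) k ⊔ dFil n X (p - r + 1) k

/-- The term `E_r^{p,q}`, `q = k - p`, of the Froelicher spectral sequence:
`{a ∈ F^p A^k : d a ∈ F^{p+r} A^{k+1}}` modulo `F^{p+1} A^k + d F^{p-r+1} A^{k-1}`. -/
abbrev E (r p : ℤ) (k : ℕ) : Type _ := Z n X r p k ⧸ (B n X r p k).submoduleOf (Z n X r p k)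

theorem extD_mem_Z (r p : ℤ) (k : ℕ) (w : Forms n X k) (hw : w ∈ Z n X r p k) :
    extD n X k w ∈ Z n X r (p + r) (k + 1) := by
  refine ⟨hw.2, ?_⟩
  show extD n X (k + 1) (extD n X k w) ∈ Fil n X (p + r + r) (k + 1 + 1)
  rw [extD_extD]
  exact Submodule.zero_mem _

/-- the exterior derivative on the numerators -/
def dZ (r p : ℤ) (k : ℕ) : Z n X r p k →ₗ[ℂ] Z n X r (p + r) (k + 1) :=
  (extD n X k).restrict (extD_mem_Z n X r p k)

theorem dZ_mem_B (r p : ℤ) (k : ℕ) :
    (B n X r p k).submoduleOf (Z n X r p k) ≤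
      ((B n X r (p + r) (k + 1)).submoduleOf (Z n X r (p + r) (k + 1))).comap (dZ n X r p k) := by
  rintro ⟨w, hw⟩ hB
  change w ∈ B n X r p k at hB
  show extD n X k w ∈ B n X r (p + r) (k + 1)
  obtain ⟨a, ha, b, hb, rfl⟩ := Submodule.mem_sup.1 hB
  have hb0 : extD n X k b = 0 := by
    cases k with
    | zero =>
      have : b = 0 := by simpa [dFil] using hb
      rw [this, map_zero]
    | succ k =>
      obtain ⟨c, _, rfl⟩ := (Submodule.mem_map).1 hb
      exact extD_extD n X k c
  rw [map_add, hb0, add_zero]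
  refine Submodule.mem_sup_right ?_
  show extD n X k a ∈ (Fil n X (p + r - r + 1) k).map (extD n X k)
  rw [add_sub_cancel_right]
  exact Submodule.mem_map_of_mem ha

/-- The differential `d_r : E_r^{p,q} → E_r^{p+r,q-r+1}` of the Froelicher spectral sequence
(in total degree `k = p + q`), induced by the exterior derivative. -/
def dr (r p : ℤ) (k : ℕ) : E n X r p k →ₗ[ℂ] E n X r (p + r) (k + 1) :=
  Submodule.mapQ _ _ (dZ n X r p k) (dZ_mem_B n X r p k)

/-- `d_r = 0` in bidegree `(p, k - p)` in elementary terms -/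
theorem dr_eq_zero_iff (r p : ℤ) (k : ℕ) : dr n X r p k = 0 ↔
    ∀ w ∈ Fil n X p k, extD n X k w ∈ Fil n X (p + r) (k + 1) →
      extD n X k w ∈ Fil n X (p + r + 1) (k + 1) ⊔ (Fil n X (p + 1) k).map (extD n X k) := by
  have key : ∀ w (hw : w ∈ Z n X r p k), dr n X r p k (Submodule.Quotient.mk ⟨w, hw⟩) = 0 ↔
      extD n X k w ∈ Fil n X (p + r + 1) (k + 1) ⊔ (Fil n X (p + 1) k).map (extD n X k) := by
    intro w hw
    have h1 : dr n X r p k (Submodule.Quotient.mk ⟨w, hw⟩) =
        Submodule.Quotient.mk (dZ n X r p k ⟨w, hw⟩) := rfl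
    rw [h1, Submodule.Quotient.mk_eq_zero]
    show extD n X k w ∈ B n X r (p + r) (k + 1) ↔ _
    show extD n X k w ∈ Fil n X (p + r + 1) (k + 1) ⊔ (Fil n X (p + r - r + 1) k).map
      (extD n X k) ↔ _
    rw [add_sub_cancel_right]
  constructor
  · intro h w hw1 hw2
    exact (key w ⟨hw1, hw2⟩).1 (by rw [h]; rfl)
  · intro h
    refine LinearMap.ext fun x => ?_
    obtain ⟨⟨w, hw⟩, rfl⟩ := Submodule.Quotient.mk_surjective _ x
    exact (key w hw).2 (h w hw.1 hw.2)

end extd

end manifold

end Pool.Agent.W491.FS
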