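import Pool.Agent.W491.FS.Ext

/-!
# The antiderivation of the exterior algebra and the block identities
-/

noncomputable section

namespace Pool.Agent.W491.FS

theorem quad_ev {ι : Type} [DecidableEq ι] [Fintype ι] (L : List (ℤ × (ι ⊕ ι) × (ι ⊕ ι))) :
    Ev (quad L : Lam ι) := by
  induction L with
  | nil => simpa [quad] using Ev.zero
  | cons t L ih =>
    have h : quad (t :: L) = (t.1 : ℂ) • (gen t.2.1 * gen t.2.2) + quad L := by simp [quad]
    rw [h]
    exact ((Ev.gen_gen _ _).smul _).add ih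

theorem dgen_ev {ι : Type} [DecidableEq ι] [Fintype ι] (s : Str ι) (i : ι ⊕ ι) :
    Ev (dgen s i : Lam ι) := by
  cases i with
  | inl i => exact quad_ev _
  | inr i => exact quad_ev _

/-- the antiderivation -/
def dd {ι : Type} [DecidableEq ι] [Fintype ι] (s : Str ι) : Lam ι →ₗ[ℂ] Lam ι :=
  ∑ i : ι ⊕ ι, (LinearMap.mulLeft ℂ (dgen s i)).comp
    (CliffordAlgebra.contractLeft (Q := (0 : QuadraticForm ℂ ((ι ⊕ ι) → ℂ)))
      (LinearMap.proj (R := ℂ) (φ := fun _ : ι ⊕ ι => ℂ) i))

theorem dd_isDer {ι : Type} [DecidableEq ι] [Fintype ι] (s : Str ι) : IsDer s (dd s) := by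
  refine ⟨?_, fun i x => ?_⟩
  · rw [dd, LinearMap.sum_apply]
    refine Finset.sum_eq_zero fun j _ => ?_
    rw [LinearMap.comp_apply]
    erw [CliffordAlgebra.contractLeft_one]
    exact map_zero _
  · rw [dd, LinearMap.sum_apply, LinearMap.sum_apply]
    have h : ∀ j : ι ⊕ ι, (LinearMap.mulLeft ℂ (dgen s j)).comp
        (CliffordAlgebra.contractLeft (Q := (0 : QuadraticForm ℂ ((ι ⊕ ι) → ℂ)))
        (LinearMap.proj (R := ℂ) (φ := fun _ : ι ⊕ ι => ℂ) j)) (gen i * x) =
        (Pi.single i (1 : ℂ) : ι ⊕ ι → ℂ) j • (dgen s j * x) -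
        gen i * (LinearMap.mulLeft ℂ (dgen s j)).comp
        (CliffordAlgebra.contractLeft (Q := (0 : QuadraticForm ℂ ((ι ⊕ ι) → ℂ)))
        (LinearMap.proj (R := ℂ) (φ := fun _ : ι ⊕ ι => ℂ) j)) x := by
      intro j
      rw [LinearMap.comp_apply, LinearMap.comp_apply]
      have h1 := CliffordAlgebra.contractLeft_ι_mul
        (Q := (0 : QuadraticForm ℂ ((ι ⊕ ι) → ℂ)))
        (d := LinearMap.proj (R := ℂ) (φ := fun _ : ι ⊕ ι => ℂ) j)
        (Pi.single i 1 : (ι ⊕ ι) → ℂ) x
      erw [h1]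
      have e : ∀ y : Lam ι, dgen s j * (gen i * y) = gen i * (dgen s j * y) := by
        intro y
        rw [← mul_assoc, (dgen_ev s j).comm, mul_assoc]
      rw [LinearMap.mulLeft_apply, LinearMap.mulLeft_apply, mul_sub, mul_smul_comm]
      exact congrArg₂ (· - ·) rfl (e _)
    rw [Finset.sum_congr rfl fun j _ => h j, Finset.sum_sub_distrib, ← Finset.mul_sum]
    congr 1
    rw [Finset.sum_eq_single i]
    · simp
    · intro j _ hj
      simp [Pi.single_eq_of_ne hj]
    · simp

theorem der : S_DER := by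
  intro ι _ _ s
  refine ⟨⟨dd s, dd_isDer s⟩, fun D hD x => ?_⟩
  induction x using lam_induction with
  | h0 r =>
    intro y
    have h1 : D (algebraMap ℂ _ r) = 0 := by
      rw [Algebra.algebraMap_eq_smul_one, map_smul, hD.one, smul_zero]
    have h2 : CliffordAlgebra.involute (algebraMap ℂ (Lam ι) r) = algebraMap ℂ (Lam ι) r :=
      AlgHom.commutes _ r
    rw [h1, h2, zero_mul, zero_add, ← Algebra.smul_def, ← Algebra.smul_def, map_smul]
  | h1 x x' hx hx' =>
    intro y
    rw [add_mul, map_add, map_add, hx, hx', map_add, add_mul, add_mul]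
    abel
  | h2 i x hx =>
    intro y
    have h2 : CliffordAlgebra.involute (gen i : Lam ι) = -gen i := inv_gen i
    rw [mul_assoc, hD.gen_mul, hx, hD.gen_mul, map_mul, h2]
    noncomm_ring
  | h3 r x hx =>
    intro y
    rw [smul_mul_assoc, map_smul, hx, map_smul, map_smul, smul_add, smul_mul_assoc,
      smul_mul_assoc]

end Pool.Agent.W491.FS
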