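import Pool.Agent.W491.FS.Stm

/-!
# Basic facts on the exterior algebra `Lam ι`
-/

noncomputable section

namespace Pool.Agent.W491.FS

set_option linter.unusedSectionVars false

variable {ι : Type} [DecidableEq ι]

/-- grade involution -/
abbrev inv : Lam ι →ₐ[ℂ] Lam ι := CliffordAlgebra.involute

theorem inv_inv (x : Lam ι) : inv (inv x) = x := CliffordAlgebra.involute_involute x

theorem inv_gen (i : ι ⊕ ι) : inv (gen i : Lam ι) = -gen i := CliffordAlgebra.involute_ι _

theorem gen_sq (i : ι ⊕ ι) : (gen i : Lam ι) * gen i = 0 := ExteriorAlgebra.ι_sq_zero _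

theorem gen_anti (i j : ι ⊕ ι) : (gen i : Lam ι) * gen j = -(gen j * gen i) := by
  have := ExteriorAlgebra.ι_add_mul_swap (R := ℂ) (Pi.single i 1 : (ι ⊕ ι) → ℂ) (Pi.single j 1)
  exact eq_neg_of_add_eq_zero_left this

theorem gen_span' [Fintype ι] (m : (ι ⊕ ι) → ℂ) :
    (ExteriorAlgebra.ι ℂ m : Lam ι) = ∑ i, m i • gen i := by
  have : m = ∑ i, m i • (Pi.single i (1 : ℂ) : (ι ⊕ ι) → ℂ) := by
    funext j
    simp [Finset.sum_apply, Pi.single_apply]
  conv_lhs => rw [this]
  rw [map_sum]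
  exact Finset.sum_congr rfl fun i _ => map_smul _ _ _

/-- induction principle -/
theorem lam_induction [Fintype ι] {P : Lam ι → Prop} (h0 : ∀ r : ℂ, P (algebraMap ℂ _ r))
    (h1 : ∀ x y, P x → P y → P (x + y)) (h2 : ∀ i x, P x → P (gen i * x))
    (h3 : ∀ (r : ℂ) x, P x → P (r • x)) (x : Lam ι) : P x := by
  induction x using CliffordAlgebra.left_induction with
  | algebraMap r => exact h0 r
  | add x y hx hy => exact h1 x y hx hy
  | ι_mul x m hx =>
    have hm : (CliffordAlgebra.ι 0 m * x : Lam ι) = ∑ i, m i • (gen i * x) := by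
      have e : (CliffordAlgebra.ι 0 m : Lam ι) = ∑ i, m i • gen i := gen_span' m
      rw [e, Finset.sum_mul]
      exact Finset.sum_congr rfl fun i _ => smul_mul_assoc _ _ _
    rw [hm]
    have hz : P 0 := by simpa using h0 0
    have : ∀ s : Finset (ι ⊕ ι), P (∑ i ∈ s, m i • (gen i * x)) := by
      intro s
      classical
      induction s using Finset.induction_on with
      | empty => simpa using hz
      | insert i s hi ih =>
        rw [Finset.sum_insert hi]
        exact h1 _ _ (h3 _ _ (h2 i x hx)) ih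
    exact this _

/-- a generator passes through any element at the cost of the grade involution -/
theorem gen_mul_eq [Fintype ι] (i : ι ⊕ ι) (x : Lam ι) : gen i * x = inv x * gen i := by
  induction x using lam_induction with
  | h0 r =>
    have : inv (algebraMap ℂ (Lam ι) r) = algebraMap ℂ (Lam ι) r := AlgHom.commutes _ r
    rw [this]
    exact (Algebra.commutes r _).symm
  | h1 x y hx hy => rw [mul_add, map_add, add_mul, hx, hy]
  | h2 j x hx =>
    rw [map_mul, inv_gen, neg_mul, neg_mul, mul_assoc, ← hx, ← mul_assoc, ← mul_assoc,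
      gen_anti i j, neg_mul]
  | h3 r x hx => rw [mul_smul_comm, map_smul, smul_mul_assoc, hx]

/-- even elements: invariant and central -/
structure Ev (x : Lam ι) : Prop where
  inv : CliffordAlgebra.involute x = x
  comm : ∀ y, x * y = y * x

theorem Ev.gen_gen [Fintype ι] (i j : ι ⊕ ι) : Ev ((gen i : Lam ι) * gen j) := by
  refine ⟨?_, fun y => ?_⟩
  · have h1 : CliffordAlgebra.involute (gen i : Lam ι) = -gen i := inv_gen i
    have h2 : CliffordAlgebra.involute (gen j : Lam ι) = -gen j := inv_gen j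
    rw [map_mul, h1, h2, neg_mul_neg]
  · rw [mul_assoc, gen_mul_eq j y, ← mul_assoc, gen_mul_eq i (Pool.Agent.W491.FS.inv y), inv_inv,
      mul_assoc]

theorem Ev.one : Ev (1 : Lam ι) := ⟨map_one _, fun y => by rw [one_mul, mul_one]⟩

theorem Ev.zero : Ev (0 : Lam ι) := ⟨map_zero _, fun y => by rw [zero_mul, mul_zero]⟩

theorem Ev.add {x y : Lam ι} (hx : Ev x) (hy : Ev y) : Ev (x + y) :=
  ⟨by rw [map_add, hx.inv, hy.inv], fun z => by rw [add_mul, mul_add, hx.comm, hy.comm]⟩

theorem Ev.smul {x : Lam ι} (hx : Ev x) (r : ℂ) : Ev (r • x) :=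
  ⟨by rw [map_smul, hx.inv], fun z => by rw [smul_mul_assoc, mul_smul_comm, hx.comm]⟩

theorem Ev.neg {x : Lam ι} (hx : Ev x) : Ev (-x) :=
  ⟨by rw [map_neg, hx.inv], fun z => by rw [neg_mul, mul_neg, hx.comm]⟩

theorem Ev.sub {x y : Lam ι} (hx : Ev x) (hy : Ev y) : Ev (x - y) := by
  rw [sub_eq_add_neg]; exact hx.add hy.neg

theorem Ev.mul {x y : Lam ι} (hx : Ev x) (hy : Ev y) : Ev (x * y) :=
  ⟨by rw [map_mul, hx.inv, hy.inv], fun z => by
    rw [mul_assoc, hy.comm, ← mul_assoc, hx.comm, mul_assoc]⟩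

theorem Ev.list_prod {L : List (Lam ι)} (h : ∀ x ∈ L, Ev x) : Ev L.prod := by
  induction L with
  | nil => exact Ev.one
  | cons a L ih =>
    rw [List.prod_cons]
    exact (h a List.mem_cons_self).mul (ih fun x hx => h x (List.mem_cons_of_mem a hx))

/-- products of types -/
theorem TT_mul {p q p' q' : ℕ} {x y : Lam ι} (hx : x ∈ (TT p q : Submodule ℂ (Lam ι)))
    (hy : y ∈ (TT p' q' : Submodule ℂ (Lam ι))) :
    x * y ∈ (TT (p + p') (q + q') : Submodule ℂ (Lam ι)) := by
  set P : Submodule ℂ (Lam ι) := Submodule.span ℂ (Set.range fun i : ι => gen (Sum.inl i))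
    with hP
  set Q : Submodule ℂ (Lam ι) := Submodule.span ℂ (Set.range fun i : ι => gen (Sum.inr i))
    with hQ
  have hc : Q * P = P * Q := by
    rw [hP, hQ, Submodule.span_mul_span, Submodule.span_mul_span]
    apply le_antisymm
    · rw [Submodule.span_le]
      rintro _ ⟨_, ⟨i, rfl⟩, _, ⟨j, rfl⟩, rfl⟩
      show (gen (Sum.inr i) * gen (Sum.inl j) : Lam ι) ∈ _
      rw [gen_anti]
      exact Submodule.neg_mem _ (Submodule.subset_span ⟨_, ⟨j, rfl⟩, _, ⟨i, rfl⟩, rfl⟩)
    · rw [Submodule.span_le]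
      rintro _ ⟨_, ⟨i, rfl⟩, _, ⟨j, rfl⟩, rfl⟩
      show (gen (Sum.inl i) * gen (Sum.inr j) : Lam ι) ∈ _
      rw [gen_anti]
      exact Submodule.neg_mem _ (Submodule.subset_span ⟨_, ⟨j, rfl⟩, _, ⟨i, rfl⟩, rfl⟩)
  have hcomm : Commute Q P := hc
  have h1 : (TT p q : Submodule ℂ (Lam ι)) * TT p' q' = TT (p + p') (q + q') := by
    show P ^ p * Q ^ q * (P ^ p' * Q ^ q') = P ^ (p + p') * Q ^ (q + q')
    rw [mul_assoc, ← mul_assoc (Q ^ q) (P ^ p') (Q ^ q'), (hcomm.pow_pow q p').eq, pow_add,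
      pow_add]
    simp only [mul_assoc]
  rw [← h1]
  exact Submodule.mul_mem_mul hx hy

theorem TT_gen_inl (i : ι) : (gen (Sum.inl i) : Lam ι) ∈ (TT 1 0 : Submodule ℂ (Lam ι)) := by
  rw [TT, pow_one, pow_zero, mul_one]
  exact Submodule.subset_span ⟨i, rfl⟩

theorem TT_gen_inr (i : ι) : (gen (Sum.inr i) : Lam ι) ∈ (TT 0 1 : Submodule ℂ (Lam ι)) := by
  rw [TT, pow_one, pow_zero, one_mul]
  exact Submodule.subset_span ⟨i, rfl⟩

theorem TT_one : (1 : Lam ι) ∈ (TT 0 0 : Submodule ℂ (Lam ι)) := by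
  rw [TT, pow_zero, pow_zero, mul_one]
  exact Submodule.one_le.1 le_rfl

end Pool.Agent.W491.FS
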