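import Pool.Agent.W491.FS.Stm

/-!
# The abstract lower bound
-/

open scoped Manifold ContDiff Topology

noncomputable section

namespace Pool.Agent.W491.FS

variable {n : ℕ} {X : Type} [TopologicalSpace X] [ChartedSpace (CN n) X]

/-- forms of all degrees -/
abbrev TF (n : ℕ) (X : Type) [TopologicalSpace X] [ChartedSpace (CN n) X] : Type :=
  (k : ℕ) → Forms n X k

/-- evaluation of the local expression as a linear map -/
def locL {k : ℕ} (c : atlas (CN n) X) (y : CN n) : Forms n X k →ₗ[ℂ] Alt n k where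
  toFun w := w.loc c y
  map_add' _ _ := rfl
  map_smul' _ _ := rfl

@[simp] theorem locL_apply {k : ℕ} (c : atlas (CN n) X) (y : CN n) (w : Forms n X k) :
    locL c y w = w.loc c y := rfl

/-- wedge product with a covector field in all degrees -/
def WT (θ : OneF n X) : TF n X →ₗ[ℂ] TF n X where
  toFun w
    | 0 => 0
    | k + 1 => θ.w k (w k)
  map_add' a b := by
    funext k
    cases k with
    | zero => exact (add_zero _).symm
    | succ k => exact map_add (θ.w k) _ _
  map_smul' r a := by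
    funext k
    cases k with
    | zero => exact (smul_zero (A := Forms n X 0) r).symm
    | succ k => exact map_smul (θ.w k) _ _

@[simp] theorem WT_zero (θ : OneF n X) (w : TF n X) : WT θ w 0 = 0 := rfl

@[simp] theorem WT_succ (θ : OneF n X) (w : TF n X) (k : ℕ) : WT θ w (k + 1) = θ.w k (w k) := rfl

theorem OneF.w_loc (θ : OneF n X) {k : ℕ} (w : Forms n X k) (c : atlas (CN n) X) (y : CN n) :
    (θ.w k w).loc c y = wl (θ.loc c y) (w.loc c y) := rfl

section ext

variable [IsManifold 𝓘(ℂ, CN n) ω X]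

/-- exterior derivative in all degrees -/
def DT : TF n X →ₗ[ℂ] TF n X where
  toFun w
    | 0 => 0
    | k + 1 => extD n X k (w k)
  map_add' a b := by
    funext k
    cases k with
    | zero => exact (add_zero _).symm
    | succ k => exact map_add (extD n X k) _ _
  map_smul' r a := by
    funext k
    cases k with
    | zero => exact (smul_zero (A := Forms n X 0) r).symm
    | succ k => exact map_smul (extD n X k) _ _

@[simp] theorem DT_zero (w : TF n X) : DT w 0 = 0 := rfl

@[simp] theorem DT_succ (w : TF n X) (k : ℕ) : DT w (k + 1) = extD n X k (w k) := rfl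

end ext

section rho

variable {ι : Type} [Fintype ι] (θ : ι ⊕ ι → OneF n X)

/-- the linear map on generators -/
def rho0 : ((ι ⊕ ι) → ℂ) →ₗ[ℂ] Module.End ℂ (TF n X) :=
  ∑ i, (LinearMap.proj (R := ℂ) (φ := fun _ : ι ⊕ ι => ℂ) i).smulRight (WT (θ i))

theorem rho0_apply (m : (ι ⊕ ι) → ℂ) (w : TF n X) :
    rho0 θ m w = ∑ i, m i • WT (θ i) w := by
  simp [rho0, LinearMap.sum_apply]

theorem rho0_apply_zero (m : (ι ⊕ ι) → ℂ) (w : TF n X) : rho0 θ m w 0 = 0 := by
  rw [rho0_apply, Finset.sum_apply]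
  exact Finset.sum_eq_zero fun i _ => by
    rw [Pi.smul_apply, WT_zero]
    exact smul_zero (A := Forms n X 0) _

theorem rho0_apply_succ_loc (m : (ι ⊕ ι) → ℂ) (w : TF n X) (k : ℕ) (c : atlas (CN n) X)
    (y : CN n) : (rho0 θ m w (k + 1)).loc c y = wl (∑ i, m i • (θ i).loc c y) ((w k).loc c y) := by
  rw [rho0_apply, Finset.sum_apply, wl_sum_left, ← locL_apply, map_sum]
  refine Finset.sum_congr rfl fun i _ => ?_
  rw [Pi.smul_apply, WT_succ, map_smul, locL_apply, OneF.w_loc, wl_smul_left]

theorem rho0_sq (m : (ι ⊕ ι) → ℂ) : rho0 θ m * rho0 θ m = 0 := by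
  refine LinearMap.ext fun w => ?_
  rw [Module.End.mul_apply, LinearMap.zero_apply]
  funext k
  match k with
  | 0 => exact rho0_apply_zero θ _ _
  | 1 =>
    refine Forms.ext fun c y _ => ?_
    rw [rho0_apply_succ_loc, rho0_apply_zero]
    exact wl_zero_right _
  | k + 2 =>
    refine Forms.ext fun c y _ => ?_
    rw [rho0_apply_succ_loc, rho0_apply_succ_loc, wl_wl_self]
    rfl

/-- the action of the exterior algebra on forms -/
def rho : Lam ι →ₐ[ℂ] Module.End ℂ (TF n X) :=
  ExteriorAlgebra.lift ℂ ⟨rho0 θ, rho0_sq θ⟩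

theorem rho_gen [DecidableEq ι] (i : ι ⊕ ι) : rho θ (gen i) = WT (θ i) := by
  rw [rho, gen, ExteriorAlgebra.lift_ι_apply]
  refine LinearMap.ext fun w => ?_
  rw [rho0_apply, Finset.sum_eq_single i]
  · simp
  · intro j _ hj
    simp [Pi.single_eq_of_ne hj]
  · simp

end rho

set_option linter.unusedSectionVars false

section leib

variable [IsManifold 𝓘(ℂ, CN n) ω X] {ι : Type} [Fintype ι] [DecidableEq ι] {s : Str ι}

theorem rho_quad (θ : ι ⊕ ι → OneF n X) (L : List (ℤ × (ι ⊕ ι) × (ι ⊕ ι))) (w : TF n X) :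
    rho θ (quad L) w = (L.map fun t => (t.1 : ℂ) • WT (θ t.2.1) (WT (θ t.2.2) w)).sum := by
  induction L with
  | nil => simp [quad]
  | cons t L ih =>
    have h : quad (t :: L) = (t.1 : ℂ) • (gen t.2.1 * gen t.2.2) + quad L := by
      simp [quad]
    rw [h, map_add, map_smul, map_mul, rho_gen, rho_gen, List.map_cons, List.sum_cons, ← ih]
    rfl

theorem list_sum_apply_succ (θ : ι ⊕ ι → OneF n X) (L : List (ℤ × (ι ⊕ ι) × (ι ⊕ ι)))
    (w : TF n X) (k : ℕ) :
    (L.map fun t => (t.1 : ℂ) • WT (θ t.2.1) (WT (θ t.2.2) w)).sum (k + 2) =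
      (L.map fun t => (t.1 : ℂ) • (θ t.2.1).w (k + 1) ((θ t.2.2).w k (w k))).sum := by
  induction L with
  | nil => rfl
  | cons t L ih =>
    rw [List.map_cons, List.sum_cons, List.map_cons, List.sum_cons, ← ih]
    rfl

theorem list_sum_apply_small (θ : ι ⊕ ι → OneF n X) (L : List (ℤ × (ι ⊕ ι) × (ι ⊕ ι)))
    (w : TF n X) (k : ℕ) (hk : k < 2) :
    (L.map fun t => (t.1 : ℂ) • WT (θ t.2.1) (WT (θ t.2.2) w)).sum k = 0 := by
  induction L with
  | nil => rfl
  | cons t L ih =>
    rw [List.map_cons, List.sum_cons, Pi.add_apply, ih, add_zero]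
    have : WT (θ t.2.1) (WT (θ t.2.2) w) k = 0 := by
      match k, hk with
      | 0, _ => rfl
      | 1, _ => exact map_zero ((θ t.2.1).w 0)
    rw [Pi.smul_apply, this]
    exact smul_zero (A := Forms n X k) _

/-- the structure equation in all degrees -/
theorem DT_WT (F : Coframe n X ι s) (i : ι ⊕ ι) (w : TF n X) :
    DT (WT (F.θ i) w) = rho F.θ (dgen s i) w - WT (F.θ i) (DT w) := by
  have key : ∀ (L : List (ℤ × (ι ⊕ ι) × (ι ⊕ ι))),
      (∀ k (w : Forms n X k), extD n X (k + 1) ((F.θ i).w k w) =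
        (L.map fun t => (t.1 : ℂ) • (F.θ t.2.1).w (k + 1) ((F.θ t.2.2).w k w)).sum -
        (F.θ i).w (k + 1) (extD n X k w)) →
      DT (WT (F.θ i) w) = rho F.θ (quad L) w - WT (F.θ i) (DT w) := by
    intro L hL
    rw [rho_quad]
    funext k
    match k with
    | 0 =>
      rw [Pi.sub_apply, list_sum_apply_small _ _ _ _ (by norm_num), DT_zero, WT_zero]
      exact (sub_zero _).symm
    | 1 =>
      rw [Pi.sub_apply, list_sum_apply_small _ _ _ _ (by norm_num), DT_succ, WT_zero, WT_succ,
        DT_zero, map_zero, map_zero]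
      exact (sub_zero _).symm
    | k + 2 =>
      rw [Pi.sub_apply, list_sum_apply_succ, DT_succ, WT_succ, WT_succ, DT_succ]
      exact hL k (w k)
  cases i with
  | inl i => exact key (s i) (F.struct_inl i)
  | inr i =>
    have h := key ((s i).map fun t => (t.1, t.2.1.swap, t.2.2.swap)) (by
      intro k w
      rw [List.map_map]
      exact F.struct_inr i k w)
    exact h

theorem gen_span (m : (ι ⊕ ι) → ℂ) :
    (ExteriorAlgebra.ι ℂ m : Lam ι) = ∑ i, m i • gen i := by
  have : m = ∑ i, m i • (Pi.single i (1 : ℂ) : (ι ⊕ ι) → ℂ) := by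
    funext j
    simp [Finset.sum_apply, Pi.single_apply]
  conv_lhs => rw [this]
  rw [map_sum]
  exact Finset.sum_congr rfl fun i _ => map_smul _ _ _

/-- Leibniz rule for the action -/
theorem DT_rho (F : Coframe n X ι s) {D : Lam ι →ₗ[ℂ] Lam ι} (hD : IsDer s D) (x : Lam ι) :
    ∀ w : TF n X, DT (rho F.θ x w) =
      rho F.θ (D x) w + rho F.θ (CliffordAlgebra.involute x) (DT w) := by
  induction x using CliffordAlgebra.left_induction with
  | algebraMap r =>
    intro w
    have h1 : D (algebraMap ℂ _ r) = 0 := by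
      rw [Algebra.algebraMap_eq_smul_one, map_smul, hD.one, smul_zero]
    have h2 : CliffordAlgebra.involute (algebraMap ℂ (Lam ι) r) = algebraMap ℂ (Lam ι) r :=
      AlgHom.commutes _ r
    erw [h1, h2]
    rw [map_zero, LinearMap.zero_apply, zero_add, AlgHom.commutes]
    simp [Module.algebraMap_end_apply]
  | add x y hx hy =>
    intro w
    simp only [map_add, LinearMap.add_apply, hx w, hy w]
    abel
  | ι_mul x m hx =>
    intro w
    have hg : ∀ i : ι ⊕ ι, DT (rho F.θ (gen i * x) w) =
        rho F.θ (D (gen i * x)) w +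
          rho F.θ (CliffordAlgebra.involute (gen i * x)) (DT w) := by
      intro i
      have h1 : CliffordAlgebra.involute (gen i * x) =
          -(gen i * CliffordAlgebra.involute x) := by
        have h2 : CliffordAlgebra.involute (gen i : Lam ι) = -gen i :=
          CliffordAlgebra.involute_ι _
        rw [map_mul, h2, neg_mul]
      rw [h1, hD.gen_mul, map_mul, map_sub, map_mul, map_mul, map_neg, map_mul,
        Module.End.mul_apply, rho_gen, DT_WT, hx w, LinearMap.sub_apply, LinearMap.neg_apply,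
        Module.End.mul_apply, Module.End.mul_apply, Module.End.mul_apply, map_add]
      abel
    have hm : (CliffordAlgebra.ι 0 m * x : Lam ι) = ∑ i, m i • (gen i * x) := by
      have := gen_span m
      have e : (CliffordAlgebra.ι 0 m : Lam ι) = ∑ i, m i • gen i := this
      rw [e, Finset.sum_mul]
      exact Finset.sum_congr rfl fun i _ => smul_mul_assoc _ _ _
    rw [hm]
    simp only [map_sum, map_smul, LinearMap.sum_apply, LinearMap.smul_apply, hg,
      Finset.sum_add_distrib, smul_add]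

end leib

section types

/-- elements of pure type `(a,b)` -/
def PT (n : ℕ) (X : Type) [TopologicalSpace X] [ChartedSpace (CN n) X] (a b : ℕ) :
    Submodule ℂ (TF n X) where
  carrier := {w | ∀ k, w k ∈ TypeForms n X a b k ∧ (k ≠ a + b → w k = 0)}
  zero_mem' := fun k => ⟨Submodule.zero_mem _, fun _ => rfl⟩
  add_mem' := fun {u v} hu hv k => ⟨Submodule.add_mem _ (hu k).1 (hv k).1, fun h => by
    rw [Pi.add_apply, (hu k).2 h, (hv k).2 h, add_zero]⟩
  smul_mem' := fun r u hu k => ⟨Submodule.smul_mem _ _ (hu k).1, fun h => by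
    rw [Pi.smul_apply, (hu k).2 h]
    exact smul_zero (A := Forms n X k) r⟩

theorem WT_holo {θ : OneF n X} (hθ : ∀ c, ∀ y ∈ c.1.target, ∀ (l : ℂ) v,
    θ.loc c y (l • v) = l * θ.loc c y v) {a b : ℕ} {w : TF n X} (hw : w ∈ PT n X a b) :
    WT θ w ∈ PT n X (a + 1) b := by
  intro k
  match k with
  | 0 => exact ⟨Submodule.zero_mem _, fun _ => rfl⟩
  | k + 1 =>
    refine ⟨fun c y => ?_, fun h => ?_⟩
    · rw [WT_succ, OneF.w_loc]
      by_cases hy : y ∈ c.1.target
      · exact ((hw k).1 c y).wl_holo (hθ c y hy)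
      · rw [(w k).isForm.off c y hy, wl_zero_right]
        exact IsType.zero
    · rw [WT_succ, (hw k).2 (by omega), map_zero]

theorem WT_anti {θ : OneF n X} (hθ : ∀ c, ∀ y ∈ c.1.target, ∀ (l : ℂ) v,
    θ.loc c y (l • v) = starRingEnd ℂ l * θ.loc c y v) {a b : ℕ} {w : TF n X}
    (hw : w ∈ PT n X a b) : WT θ w ∈ PT n X a (b + 1) := by
  intro k
  match k with
  | 0 => exact ⟨Submodule.zero_mem _, fun _ => rfl⟩
  | k + 1 =>
    refine ⟨fun c y => ?_, fun h => ?_⟩
    · rw [WT_succ, OneF.w_loc]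
      by_cases hy : y ∈ c.1.target
      · exact ((hw k).1 c y).wl_anti (hθ c y hy)
      · rw [(w k).isForm.off c y hy, wl_zero_right]
        exact IsType.zero
    · rw [WT_succ, (hw k).2 (by omega), map_zero]

variable [IsManifold 𝓘(ℂ, CN n) ω X] {ι : Type} [Fintype ι] [DecidableEq ι] {s : Str ι}

/-- elements of the exterior algebra raising the type by `(p,q)` -/
def RT (F : Coframe n X ι s) (p q : ℕ) : Submodule ℂ (Lam ι) where
  carrier := {x | ∀ a b w, w ∈ PT n X a b → rho F.θ x w ∈ PT n X (a + p) (b + q)}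
  zero_mem' := fun a b w _ => by
    rw [map_zero, LinearMap.zero_apply]; exact Submodule.zero_mem _
  add_mem' := fun {x y} hx hy a b w hw => by
    rw [map_add, LinearMap.add_apply]
    exact Submodule.add_mem _ (hx a b w hw) (hy a b w hw)
  smul_mem' := fun r x hx a b w hw => by
    rw [map_smul, LinearMap.smul_apply]
    exact Submodule.smul_mem _ _ (hx a b w hw)

theorem RT_mul (F : Coframe n X ι s) {p q p' q' : ℕ} {x y : Lam ι} (hx : x ∈ RT F p q)
    (hy : y ∈ RT F p' q') : x * y ∈ RT F (p + p') (q + q') := by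
  intro a b w hw
  rw [map_mul, Module.End.mul_apply]
  have h := hx _ _ _ (hy a b w hw)
  have e1 : a + p' + p = a + (p + p') := by ring
  have e2 : b + q' + q = b + (q + q') := by ring
  rwa [e1, e2] at h

theorem TT_le_RT (F : Coframe n X ι s) (p q : ℕ) : (TT p q : Submodule ℂ (Lam ι)) ≤ RT F p q := by
  have hg1 : Submodule.span ℂ (Set.range fun i : ι => (gen (Sum.inl i) : Lam ι)) ≤ RT F 1 0 := by
    rw [Submodule.span_le]
    rintro _ ⟨i, rfl⟩ a b w hw
    rw [rho_gen]
    exact WT_holo (fun c y hy => F.holo i c y hy) hw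
  have hg2 : Submodule.span ℂ (Set.range fun i : ι => (gen (Sum.inr i) : Lam ι)) ≤ RT F 0 1 := by
    rw [Submodule.span_le]
    rintro _ ⟨i, rfl⟩ a b w hw
    rw [rho_gen]
    refine WT_anti (fun c y hy l v => ?_) hw
    rw [F.conj i c y hy, cjCov_apply, cjCov_apply, F.holo i c y hy, map_mul]
  have h1 : (1 : Lam ι) ∈ RT F 0 0 := by
    intro a b w hw
    rw [map_one]
    exact hw
  have hp : ∀ (P : Submodule ℂ (Lam ι)) (u v : ℕ), P ≤ RT F u v → ∀ r : ℕ,
      P ^ r ≤ RT F (r * u) (r * v) := by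
    intro P u v hP r
    induction r with
    | zero =>
      rw [pow_zero, Submodule.one_eq_span, Submodule.span_le]
      rintro _ rfl
      simpa using h1
    | succ r ih =>
      rw [pow_succ, Submodule.mul_le]
      intro x hx y hy
      have := RT_mul F (ih hx) (hP hy)
      rwa [← Nat.succ_mul, ← Nat.succ_mul] at this
  rw [TT, Submodule.mul_le]
  intro x hx y hy
  have := RT_mul F (hp _ 1 0 hg1 p hx) (hp _ 0 1 hg2 q hy)
  simpa using this

/-- elements shifting degrees by exactly `d` (in the weak sense) -/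
theorem TT_shift (F : Coframe n X ι s) (p q : ℕ) {x : Lam ι} (hx : x ∈ (TT p q : Submodule ℂ (Lam ι)))
    (k : ℕ) (w : TF n X) (hw : w k = 0) : rho F.θ x w (k + (p + q)) = 0 := by
  let N : ℕ → Submodule ℂ (Lam ι) := fun d =>
    { carrier := {x | ∀ (k : ℕ) (w : TF n X), w k = 0 → rho F.θ x w (k + d) = 0}
      zero_mem' := fun k w _ => by rw [map_zero, LinearMap.zero_apply]; rfl
      add_mem' := fun {x y} hx hy k w hw => by
        rw [map_add, LinearMap.add_apply, Pi.add_apply, hx k w hw, hy k w hw, add_zero]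
      smul_mem' := fun r x hx k w hw => by
        rw [map_smul, LinearMap.smul_apply, Pi.smul_apply, hx k w hw]
        exact smul_zero (A := Forms n X _) r }
  have hmul : ∀ {d d' : ℕ} {x y : Lam ι}, x ∈ N d → y ∈ N d' → x * y ∈ N (d' + d) := by
    intro d d' x y hx hy k w hw
    rw [map_mul, Module.End.mul_apply, ← add_assoc]
    exact hx _ _ (hy k w hw)
  have hg : ∀ i, (gen i : Lam ι) ∈ N 1 := by
    intro i k w hw
    rw [rho_gen, WT_succ, hw, map_zero]
  have hone : (1 : Lam ι) ∈ N 0 := fun k w hw => by rw [map_one]; exact hw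
  have hp : ∀ (P : Submodule ℂ (Lam ι)), P ≤ N 1 → ∀ r : ℕ, P ^ r ≤ N r := by
    intro P hP r
    induction r with
    | zero =>
      rw [pow_zero, Submodule.one_eq_span, Submodule.span_le]
      rintro _ rfl
      exact hone
    | succ r ih =>
      rw [pow_succ', Submodule.mul_le]
      intro x hx y hy
      exact hmul (hP hx) (ih hy)
  have h3 : (TT p q : Submodule ℂ (Lam ι)) ≤ N (q + p) := by
    rw [TT, Submodule.mul_le]
    intro x hx y hy
    refine hmul (hp _ ?_ p hx) (hp _ ?_ q hy)
    · rw [Submodule.span_le]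
      rintro _ ⟨i, rfl⟩
      exact hg _
    · rw [Submodule.span_le]
      rintro _ ⟨i, rfl⟩
      exact hg _
  have h4 := h3 hx k w hw
  rwa [add_comm q p] at h4

end types

section one

open Classical in
/-- the constant function `1` as a form of degree 0 -/
def one0 (n : ℕ) (X : Type) [TopologicalSpace X] [ChartedSpace (CN n) X] : Forms n X 0 :=
  Forms.mk (fun c y => if y ∈ c.1.target then
      ContinuousAlternatingMap.constOfIsEmpty ℝ (CN n) (Fin 0) (1 : ℂ) else 0)
    { smooth := fun c => (contDiffOn_const (c := ContinuousAlternatingMap.constOfIsEmpty ℝ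
        (CN n) (Fin 0) (1 : ℂ))).congr fun y hy => by simp [hy]
      off := fun c y hy => by simp [hy]
      compat := fun c c' y hy => by
        have h1 : y ∈ c.1.target := ((trans_source_iff c c' y).1 hy).1
        rw [if_pos h1, if_pos (trans_mem_target hy)]
        ext v
        rfl }

theorem one0_loc (c : atlas (CN n) X) {y : CN n} (hy : y ∈ c.1.target) :
    (one0 n X).loc c y = ContinuousAlternatingMap.constOfIsEmpty ℝ (CN n) (Fin 0) (1 : ℂ) := by
  simp [one0, hy]

/-- the constant function `1` in all degrees -/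
def oneT (n : ℕ) (X : Type) [TopologicalSpace X] [ChartedSpace (CN n) X] : TF n X
  | 0 => one0 n X
  | _ + 1 => 0

theorem oneT_mem : oneT n X ∈ PT n X 0 0 := by
  intro k
  match k with
  | 0 =>
    refine ⟨fun c y => ?_, fun h => absurd rfl h⟩
    by_cases hy : y ∈ c.1.target
    · intro l v
      have e : (oneT n X 0).loc c y =
        ContinuousAlternatingMap.constOfIsEmpty ℝ (CN n) (Fin 0) (1 : ℂ) := one0_loc c hy
      rw [e]
      simp
    · have : (oneT n X 0).loc c y = 0 := (oneT n X 0).isForm.off c y hy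
      rw [this]
      exact IsType.zero
  | k + 1 => exact ⟨Submodule.zero_mem _, fun _ => rfl⟩

theorem DT_oneT [IsManifold 𝓘(ℂ, CN n) ω X] : DT (oneT n X) = 0 := by
  funext k
  match k with
  | 0 => rfl
  | 1 =>
    refine Forms.ext fun c y hy => ?_
    have h1 : (DT (oneT n X) 1).loc c y = extDeriv ((one0 n X).loc c) y := extD_loc _ c hy
    rw [h1]
    have h2 : (one0 n X).loc c =ᶠ[𝓝 y]
        fun _ => ContinuousAlternatingMap.constOfIsEmpty ℝ (CN n) (Fin 0) (1 : ℂ) := by
      filter_upwards [c.1.open_target.mem_nhds hy] with z hz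
      exact one0_loc c hz
    rw [Filter.EventuallyEq.extDeriv_eq h2]
    ext v
    simp [extDeriv, ContinuousAlternatingMap.alternatizeUncurryFin_apply]
  | k + 2 => exact map_zero (extD n X (k + 1))

/-- local expression of a product of covector fields -/
theorem prod_loc {ι : Type} (θ : ι → OneF n X) (L : List ι) (c : atlas (CN n) X) {y : CN n}
    (hy : y ∈ c.1.target) (k : ℕ) :
    ((L.map fun i => WT (θ i)).prod (oneT n X) k).loc c y =
      wlist (L.map fun i => (θ i).loc c y) k := by
  induction L generalizing k with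
  | nil =>
    match k with
    | 0 => exact one0_loc c hy
    | k + 1 => rfl
  | cons i L ih =>
    rw [List.map_cons, List.prod_cons, Module.End.mul_apply, List.map_cons]
    match k with
    | 0 => rfl
    | k + 1 =>
      rw [WT_succ, OneF.w_loc, ih]
      rfl

end one

section final

variable [IsManifold 𝓘(ℂ, CN n) ω X] {ι : Type} [Fintype ι] [DecidableEq ι] {s : Str ι}

theorem rho_volE (F : Coframe n X ι s) (L : List ι) :
    rho F.θ (volE L) = ((L.flatMap fun i => [Sum.inl i, Sum.inr i]).map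
      fun i => WT (F.θ i)).prod := by
  induction L with
  | nil => simp [volE]
  | cons i L ih =>
    have h : (volE (i :: L) : Lam ι) = gen (Sum.inl i) * gen (Sum.inr i) * volE L := by
      simp [volE]
    rw [h, map_mul, map_mul, rho_gen, rho_gen, ih]
    simp [mul_assoc]

omit [Fintype ι] [DecidableEq ι] in
theorem list_enum (L : List ι) (hn : L.Nodup) (hL : ∀ i, i ∈ L) {n : ℕ} (h : L.length = n) :
    ∃ e : Fin n → ι, Function.Bijective e ∧ L = (List.finRange n).map e := by
  subst h
  refine ⟨L.get, ⟨List.nodup_iff_injective_get.1 hn, fun i => ?_⟩, by simp⟩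
  exact List.mem_iff_get.1 (hL i)

theorem linIndep_of_ker {η : Fin n → Cov n} (h1 : ∀ i (l : ℂ) v, η i (l • v) = l * η i v)
    (h2 : ∀ v, (∀ i, η i v = 0) → v = 0) : LinearIndependent ℂ η := by
  let Φ : CN n →ₗ[ℂ] (Fin n → ℂ) :=
    { toFun := fun v j => η j v
      map_add' := fun u v => by funext j; exact map_add (η j) u v
      map_smul' := fun r v => by funext j; exact h1 j r v }
  have hinj : Function.Injective Φ := by
    rw [injective_iff_map_eq_zero]
    intro v hv
    exact h2 v fun i => congrFun hv i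
  have hsurj : Function.Surjective Φ :=
    (LinearMap.injective_iff_surjective_of_finrank_eq_finrank rfl).1 hinj
  rw [Fintype.linearIndependent_iff]
  intro g hg j
  obtain ⟨v, hv⟩ := hsurj (Pi.single j 1)
  have h3 := congrArg (fun l : Cov n => l v) hg
  simp only [_root_.sum_apply, smul_apply, smul_eq_mul] at h3
  have h4 : ∀ i, η i v = (Pi.single j (1 : ℂ) : Fin n → ℂ) i := fun i => congrFun hv i
  simp only [h4] at h3
  rw [Finset.sum_eq_single j] at h3
  · simpa using h3
  · intro b _ hb
    simp [Pi.single_eq_of_ne hb]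
  · simp

theorem volE_loc (F : Coframe n X ι s) (L : List ι) (hn : L.Nodup) (hL : ∀ i, i ∈ L)
    (hc : Fintype.card ι = n) (c : atlas (CN n) X) {y : CN n} (hy : y ∈ c.1.target) (k : ℕ) :
    ∃ η : Fin n → Cov n, (∀ i (l : ℂ) v, η i (l • v) = l * η i v) ∧ LinearIndependent ℂ η ∧
      (rho F.θ (volE L) (oneT n X) k).loc c y = wlist (volList η) k := by
  have hlen : L.length = n := by
    rw [← hc, ← List.toFinset_card_of_nodup hn]
    have : L.toFinset = Finset.univ := Finset.eq_univ_of_forall fun i => by simp [hL i]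
    rw [this, Finset.card_univ]
  obtain ⟨e, he, hLe⟩ := list_enum L hn hL hlen
  let η : Fin n → Cov n := fun j => (F.θ (Sum.inl (e j))).loc c y
  refine ⟨η, fun i l v => F.holo _ c y hy l v, ?_, ?_⟩
  · refine linIndep_of_ker (fun i l v => F.holo _ c y hy l v) fun v hv => F.indep c y hy v ?_
    intro i
    obtain ⟨j, rfl⟩ := he.2 i
    exact hv j
  · rw [rho_volE, prod_loc _ _ c hy, hLe]
    congr 1
    rw [volList, List.flatMap_map, List.map_flatMap]
    congr 1
    funext j
    simp only [List.map_cons, List.map_nil, η]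
    rw [F.conj _ c y hy]

/-- forms of pure type `(a,b)` with `a > n` vanish -/
theorem PT_eq_zero (h1 : S_TYPE) (h2 : S_VAN) {a b : ℕ} (ha : n < a) {w : TF n X}
    (hw : w ∈ PT n X a b) : w = 0 := by
  funext k
  by_cases hk : k = a + b
  · refine Forms.ext fun c y _ => ?_
    have ht : IsType a b ((w k).loc c y) := (hw k).1 c y
    obtain ⟨-, -, -, -, -, h6, -⟩ := h1 n k
    rw [← h6 a b _ hk.symm ht]
    exact h2 n k a _ (by omega) (Or.inl ha)
  · exact (hw k).2 hk

/-- the abstract lower bound -/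
theorem lbabs (h1 : S_TYPE) (h2 : S_VAN) (h3 : S_FIL.{0}) (h4 : S_ITOP.{0}) (h5 : S_UB1.{0})
    (h6 : S_DER) : S_LBABS := by
  intro n X _ _ _ _ _ _ ι _ _ s hcard hn hF hcert
  obtain ⟨F⟩ := hF
  obtain ⟨m, rfl⟩ : ∃ m, n = m + 1 := ⟨n - 1, by omega⟩
  have hm1 : m + 1 - 1 = m := rfl
  obtain ⟨⟨D, hD⟩, -⟩ := h6 ι s
  obtain ⟨β, θ, hβ, hθ, c₀, L, hc₀, hLn, hLa, hprod⟩ := hcert D hD
  rw [hcard, hm1] at hβ
  rw [hcard] at hθ
  set B : TF (m + 1) X := rho F.θ β (oneT (m + 1) X) with hB
  have hDB : DT B = rho F.θ (D β) (oneT (m + 1) X) := by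
    rw [hB, DT_rho F hD, DT_oneT, map_zero, add_zero]
  have hDBt : DT B ∈ PT (m + 1) X m 1 := by
    rw [hDB]
    have := TT_le_RT F _ _ hβ 0 0 _ oneT_mem
    simpa using this
  intro hdr
  rw [dr_eq_zero_iff] at hdr
  have hw1 : B m ∈ Fil (m + 1) X 0 m := by
    rw [h3]
    intro p' hp' 
    omega
  have hw2 : extD (m + 1) X m (B m) ∈ Fil (m + 1) X (m : ℤ) (m + 1) := by
    have : extD (m + 1) X m (B m) ∈ TypeForms (m + 1) X m 1 (m + 1) := (hDBt (m + 1)).1
    refine Submodule.mem_iSup_of_mem m (Submodule.mem_iSup_of_mem 1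
      (Submodule.mem_iSup_of_mem le_rfl (Submodule.mem_iSup_of_mem rfl this)))
  have hw3 : extD (m + 1) X m (B m) ∈ Fil (m + 1) X ((m : ℤ) + 1) (m + 1) ⊔
      (Fil (m + 1) X 1 m).map (extD (m + 1) X m) := by
    have hdr' : ∀ w ∈ Fil (m + 1) X 0 m, extD (m + 1) X m w ∈
        Fil (m + 1) X (0 + (m : ℤ)) (m + 1) → extD (m + 1) X m w ∈
        Fil (m + 1) X (0 + (m : ℤ) + 1) (m + 1) ⊔
          (Fil (m + 1) X (0 + 1) m).map (extD (m + 1) X m) := hdr
    simp only [zero_add] at hdr'
    exact hdr' (B m) hw1 hw2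
  obtain ⟨y, hy, z', hz', hyz⟩ := Submodule.mem_sup.1 hw3
  obtain ⟨z, hz, rfl⟩ := Submodule.mem_map.1 hz'
  have hγ : extD (m + 1) X m (B m - z) = 0 := by
    refine h5 m X (B m - z) ?_
    have : extD (m + 1) X m (B m - z) = y := by
      rw [map_sub, ← hyz]
      abel
    rw [this]
    exact hy
  -- the closed form in all degrees
  have hDs : ∀ u : Forms (m + 1) X m, DT (Pi.single m u : TF (m + 1) X) =
      Pi.single (m + 1) (extD (m + 1) X m u) := by
    intro u
    funext k
    match k with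
    | 0 => rfl
    | k + 1 =>
      rw [DT_succ]
      by_cases hk : k = m
      · subst hk
        rw [Pi.single_eq_same, Pi.single_eq_same]
      · rw [Pi.single_eq_of_ne hk, Pi.single_eq_of_ne (by omega), map_zero]
  have hG : DT (Pi.single m (B m - z) : TF (m + 1) X) = 0 := by
    rw [hDs, hγ, Pi.single_zero]
  have e1 : DT (rho F.θ θ (Pi.single m (B m - z))) = rho F.θ (D θ) (Pi.single m (B m - z)) := by
    rw [DT_rho F hD, hG, map_zero, add_zero]
  have e2 : rho F.θ (D θ) (Pi.single m z) = 0 := by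
    let ℓ : Forms (m + 1) X m →ₗ[ℂ] TF (m + 1) X :=
      (rho F.θ (D θ)).comp (LinearMap.single ℂ (fun k => Forms (m + 1) X k) m)
    have hle : Fil (m + 1) X 1 m ≤ LinearMap.ker ℓ := by
      refine iSup_le fun p' => iSup_le fun q' => iSup_le fun hp => iSup_le fun hpq => ?_
      intro u hu
      have hsing : (Pi.single m u : TF (m + 1) X) ∈ PT (m + 1) X p' q' := by
        intro k
        by_cases hk : k = m
        · subst hk
          rw [Pi.single_eq_same]
          exact ⟨hu, fun h => absurd hpq.symm h⟩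
        · rw [Pi.single_eq_of_ne hk]
          exact ⟨Submodule.zero_mem _, fun _ => rfl⟩
      have h7 := TT_le_RT F _ _ hθ _ _ _ hsing
      exact PT_eq_zero h1 h2 (by omega) h7
    exact hle hz
  have e3 : rho F.θ (D θ) (B - Pi.single m (B m)) (m + (m + 1 + 1)) = 0 := by
    refine TT_shift F (m + 1) 1 hθ m _ ?_
    rw [Pi.sub_apply, Pi.single_eq_same, sub_self]
  obtain ⟨J, hJ1, hJ2⟩ := h4 (m + 1) X (2 * m + 1) (by ring)
  have hdeg : m + (m + 1 + 1) = 2 * m + 1 + 1 := by ring
  rw [hdeg] at e3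
  have e4 : rho F.θ (D θ) B (2 * m + 1 + 1) =
      extD (m + 1) X (2 * m + 1) (rho F.θ θ (Pi.single m (B m - z)) (2 * m + 1)) := by
    rw [← DT_succ, e1]
    have hs : (Pi.single m (B m) : TF (m + 1) X) = Pi.single m (B m - z) + Pi.single m z := by
      rw [← Pi.single_add, sub_add_cancel]
    have hB2 : B = (B - Pi.single m (B m)) + (Pi.single m (B m - z) + Pi.single m z) := by
      rw [← hs, sub_add_cancel]
    have h8 : rho F.θ (D θ) B = rho F.θ (D θ) (B - Pi.single m (B m)) +
        rho F.θ (D θ) (Pi.single m (B m - z)) := by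
      conv_lhs => rw [hB2]
      rw [map_add, map_add, e2, add_zero]
    rw [h8, Pi.add_apply, e3, zero_add]
  have e5 : rho F.θ (D θ) B = c₀ • rho F.θ (volE L) (oneT (m + 1) X) := by
    rw [hB, ← Module.End.mul_apply, ← map_mul, hprod, map_smul, LinearMap.smul_apply]
  refine hJ2 (rho F.θ (D θ) B (2 * m + 1 + 1)) c₀ hc₀ ?_ ?_
  · intro c y hy
    obtain ⟨η, hη1, hη2, hη3⟩ := volE_loc F L hLn hLa hcard c hy (2 * m + 1 + 1)
    refine ⟨η, hη1, hη2, ?_⟩
    rw [e5, Pi.smul_apply, Forms.loc_smul, Pi.smul_apply, Pi.smul_apply, hη3]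
  · rw [e4]
    exact hJ1 _

end final

end Pool.Agent.W491.FS
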