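import Pool.Agent.W491.FS.LbAbs
import Pool.Agent.W491.FS.AB
import Pool.Agent.W491.FS.Bid
import Pool.Agent.W491.FS.Cof
import Pool.Agent.W135.FS.Quo
import Pool.Agent.W135.FS.Geo
import Pool.Agent.W168.FS.GB
import Pool.Agent.W345.FS.Jlem
import Pool.Agent.W839.FS.AlgMain
import Pool.Agent.W214.FS.Alpha

/-!
# The lower bound: assembly
-/

open scoped Manifold ContDiff Topology

noncomputable section

namespace Pool.Agent.W491.FS

/-- the statement of the lower bound -/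
def S_LOW : Prop := ∀ n : ℕ, 3 ≤ n →
  ∃ (X : Type) (_ : TopologicalSpace X) (_ : ChartedSpace (CN n) X)
    (_ : IsManifold 𝓘(ℂ, CN n) ω X), CompactSpace X ∧ T2Space X ∧ ConnectedSpace X ∧
    dr n X ((n - 1 : ℕ) : ℤ) 0 (n - 1) ≠ 0

theorem alpha : S_ALPHA := Pool.Agent.W214.FS.Alpha.main der bid Pool.Agent.W345.FS.Jlem.main

theorem ab' : S_AB := ab der bid alpha

theorem cofQ : S_COF := cof (Pool.Agent.W135.FS.Geo.main Pool.Agent.W135.FS.Quo.main)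

theorem low_of (h : S_LBABS) (n : ℕ) (ι : Type) [Fintype ι] [DecidableEq ι] (s : Str ι)
    (F : Fam ι s) (hc : Fintype.card ι = n) (hn : 2 ≤ n) (hs : Cert s) :
    ∃ (X : Type) (_ : TopologicalSpace X) (_ : ChartedSpace (CN n) X)
    (_ : IsManifold 𝓘(ℂ, CN n) ω X), CompactSpace X ∧ T2Space X ∧ ConnectedSpace X ∧
    dr n X ((n - 1 : ℕ) : ℤ) 0 (n - 1) ≠ 0 := by
  obtain ⟨X, i1, i2, i3, h1, h2, h3, h4⟩ := cofQ n ι (Fintype.equivFinOfCardEq hc) s F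
  exact ⟨X, i1, i2, i3, h1, h2, h3, h n X ι s hc hn h4 hs⟩

theorem low (h0 : S_LBABS) (h3 : S_G3) (h4 : S_G4) (hP : S_GP) (hQ : S_GQ) : S_LOW := by
  intro n hn
  rcases Nat.lt_or_ge n 5 with h5 | h5
  · have : n = 3 ∨ n = 4 := by omega
    rcases this with rfl | rfl
    · obtain ⟨F, -⟩ := h3
      exact low_of h0 3 (Fin 3) s3 F (Fintype.card_fin 3) (by norm_num) Pool.Agent.W839.FS.Alg.a3
    · obtain ⟨F, -⟩ := h4
      exact low_of h0 4 (Fin 4) s4 F (Fintype.card_fin 4) (by norm_num) Pool.Agent.W839.FS.Alg.a4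
  · obtain ⟨k, hk⟩ : ∃ k, n = 5 + 2 * k ∨ n = 6 + 2 * k := ⟨(n - 5) / 2, by omega⟩
    rcases hk with rfl | rfl
    · obtain ⟨F, hF⟩ := hP
      obtain ⟨F'⟩ := Pool.Agent.W168.FS.GB.main 4 sP F hF k
      exact low_of h0 _ (Idx 4 k) (blk sP k) F' (by simp; ring) (by omega)
        (ab' 4 sP rfl Pool.Agent.W839.FS.Alg.aP k)
    · obtain ⟨F, hF⟩ := hQ
      obtain ⟨F'⟩ := Pool.Agent.W168.FS.GB.main 5 sQ F hF k
      exact low_of h0 _ (Idx 5 k) (blk sQ k) F' (by simp; ring) (by omega)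
        (ab' 5 sQ rfl Pool.Agent.W839.FS.Alg.aQ k)

end Pool.Agent.W491.FS
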