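import Pool.Agent.W491.FS.Wl

/-!
# Froelicher project: auxiliary definitions and exact statements of the parts
-/

open scoped Manifold ContDiff Topology
open MeasureTheory

noncomputable section

namespace Pool.Agent.W491.FS

universe u

/-! ## forms on `ℂ^n` -/

/-- the tuple of the standard basis vectors -/
def ebt (n : ℕ) : Fin n → CN n := fun j => eb j

/-- contraction with `∂_j` -/
def cl {n k : ℕ} (a : Alt n (k + 1)) (j : Fin n) : Alt n k := comp10 (fun v => a.curryLeft v) j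

/-- contraction with `conj ∂_j` -/
def clb {n k : ℕ} (a : Alt n (k + 1)) (j : Fin n) : Alt n k := comp01 (fun v => a.curryLeft v) j

/-- the component of type `(p, k - p)` of a form of degree `k` -/
def prj {n : ℕ} : (k p : ℕ) → Alt n k → Alt n k
  | 0, 0, a => a
  | 0, _ + 1, _ => 0
  | k + 1, 0, a => ((k : ℂ) + 1)⁻¹ • ∑ j, wl (dzb j) (prj k 0 (clb a j))
  | k + 1, p + 1, a => ((k : ℂ) + 1)⁻¹ •
      ∑ j, (wl (dz j) (prj k p (cl a j)) + wl (dzb j) (prj k (p + 1) (clb a j)))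

/-- pullback of a form under a real-linear map -/
abbrev pb {n m k : ℕ} (a : Alt n k) (L : CN m →L[ℝ] CN n) : Alt m k :=
  a.compContinuousLinearMap L

/-- FS-TYPE: the type decomposition of forms -/
def S_TYPE : Prop := ∀ n k : ℕ,
  (∀ p, ∃ P : Alt n k →L[ℝ] Alt n k, ∀ a, P a = prj k p a) ∧
  (∀ (p : ℕ) (r : ℂ) (a : Alt n k), prj k p (r • a) = r • prj k p a) ∧
  (∀ (p : ℕ) (a : Alt n k), p ≤ k → IsType p (k - p) (prj k p a)) ∧
  (∀ (p : ℕ) (a : Alt n k), k < p → prj k p a = 0) ∧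
  (∀ a : Alt n k, ∑ p ∈ Finset.range (k + 1), prj k p a = a) ∧
  (∀ (p q : ℕ) (a : Alt n k), p + q = k → IsType p q a → prj k p a = a) ∧
  (∀ (p p' q' : ℕ) (a : Alt n k), p' + q' = k → p ≠ p' → IsType p' q' a → prj k p a = 0) ∧
  (∀ (m : ℕ) (L : CN m →L[ℝ] CN n), (∀ (c : ℂ) v, L (c • v) = c • L v) →
    ∀ (p : ℕ) (a : Alt n k), prj k p (pb a L) = pb (prj k p a) L)

/-- FS-VAN: there are no forms of type `(p,q)` with `p > n` or `q > n` -/
def S_VAN : Prop := ∀ (n k p : ℕ) (a : Alt n k), p ≤ k → (n < p ∨ n < k - p) → prj k p a = 0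

/-- FS-DET: the form `conj dz_0 ∧ ... ∧ conj dz_{n-1}` -/
def S_DET : Prop := ∀ n : ℕ, ∃ D : Alt n n,
  (∀ v : Fin n → CN n, D v = starRingEnd ℂ (Matrix.det (Matrix.of v))) ∧ IsType 0 n D ∧
  (∀ a : Alt n n, IsType 0 n a → a = a (ebt n) • D)

/-- FS-LOCA: the `(0,n)`-component of an exterior derivative -/
def S_LOCA : Prop := ∀ (k : ℕ) (f : CN (k + 1) → Alt (k + 1) k) (y : CN (k + 1)),
  DifferentiableAt ℝ f y →
  prj (k + 1) 0 (extDeriv f y) (ebt (k + 1)) =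
    ∑ j : Fin (k + 1), (-1 : ℂ) ^ (j : ℕ) *
      pdb j (fun z => prj k 0 (f z) (fun i => eb (j.succAbove i))) y

/-- FS-LOCB: prescribed divergence -/
def S_LOCB : Prop := ∀ (k : ℕ) (b : Fin (k + 1) → CN (k + 1) → ℂ),
  (∀ j, ContDiff ℝ ∞ (b j)) →
  ∃ f : CN (k + 1) → Alt (k + 1) k, ContDiff ℝ ∞ f ∧ (∀ z, (∀ j, b j z = 0) → f z = 0) ∧
    ∀ z, prj (k + 1) 0 (extDeriv f z) (ebt (k + 1)) = ∑ j, pdb j (b j) z

/-- FS-LOCC: closed forms of type `(0,n)` -/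
def S_LOCC : Prop := ∀ (n : ℕ) (f : CN n → Alt n n) (y : CN n), DifferentiableAt ℝ f y →
  (∀ᶠ z in 𝓝 y, IsType 0 n (f z)) →
  (extDeriv f y = 0 ↔ ∀ j, pd j (fun z => f z (ebt n)) y = 0)

/-- FS-IBP: integration by parts -/
def S_IBP : Prop := ∀ (n : ℕ) (U K : Set (CN n)) (b g : CN n → ℂ) (j : Fin n),
  IsOpen U → IsCompact K → K ⊆ U → ContDiffOn ℝ ∞ b U → (∀ z ∈ U, z ∉ K → b z = 0) →
  ContDiffOn ℝ ∞ g U →
  ∫ z in U, pdb j b z * g z = -∫ z in U, b z * pdb j g z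

/-- FS-TJ: local solution of the divergence equation modulo smoothing -/
def S_TJ : Prop := ∀ (n : ℕ) (δ : ℝ), 1 ≤ n → 0 < δ →
  ∃ ψ : CN n → ℂ, ContDiff ℝ ∞ ψ ∧ (∀ w, δ < ‖w‖ → ψ w = 0) ∧
    ∀ g : CN n → ℂ, ContDiff ℝ ∞ g → HasCompactSupport g →
      ∃ b : Fin n → CN n → ℂ, (∀ j, ContDiff ℝ ∞ (b j)) ∧
        (∀ j z, b j z ≠ 0 → ∃ z' ∈ tsupport g, dist z z' ≤ δ) ∧
        ∀ z, ∑ j, pdb j (b j) z = g z - ∫ w, ψ w * g (z + w)

/-- FS-FA: the Fredholm alternative for smooth kernels -/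
def S_FA : Prop := ∀ (n N : ℕ) (κ : Fin N → Fin N → CN n × CN n → ℂ), 1 ≤ n →
  (∀ i j, ContDiff ℝ ∞ (κ i j)) → (∀ i j, HasCompactSupport (κ i j)) →
  ∃ (M : ℕ) (φ : Fin M → Fin N → CN n → ℂ), (∀ m i, ContDiff ℝ ∞ (φ m i)) ∧
    ∀ f : Fin N → CN n → ℂ, (∀ i, ContDiff ℝ ∞ (f i)) → (∀ i, HasCompactSupport (f i)) →
      (∀ m, ∑ i, ∫ y, φ m i y * f i y = 0) →
      ∃ v : Fin N → CN n → ℂ, (∀ i, ContDiff ℝ ∞ (v i)) ∧ (∀ i, HasCompactSupport (v i)) ∧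
        ∀ j y, v j y - ∑ i, ∫ x, κ j i (y, x) * v i x = f j y

/-- FS-STK: the integral of an exact compactly supported form vanishes -/
def S_STK : Prop := ∀ (n k : ℕ) (U K : Set (CN n)) (f : CN n → Alt n k), IsOpen U → IsCompact K →
  K ⊆ U → ContDiffOn ℝ ∞ f U → (∀ z ∈ U, z ∉ K → f z = 0) → ∀ v : Fin (k + 1) → CN n,
  ∫ z in U, extDeriv f z v = 0

/-- wedge product with a covector in all degrees of forms on `ℂ^n` -/
def WLt {n : ℕ} (l : Cov n) (a : (k : ℕ) → Alt n k) : (k : ℕ) → Alt n k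
  | 0 => 0
  | k + 1 => wl l (a k)

/-- the constant `1` in all degrees -/
def oneA (n : ℕ) : (k : ℕ) → Alt n k
  | 0 => ContinuousAlternatingMap.constOfIsEmpty ℝ (CN n) (Fin 0) 1
  | _ + 1 => 0

/-- the wedge product of a list of covectors -/
def wlist {n : ℕ} (L : List (Cov n)) : (k : ℕ) → Alt n k := L.foldr WLt (oneA n)

/-- the list `η_0, conj η_0, η_1, conj η_1, ...` -/
def volList {n : ℕ} (η : Fin n → Cov n) : List (Cov n) :=
  (List.finRange n).flatMap fun i => [η i, cjCov (η i)]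

/-- the real basis `e_0, i e_0, e_1, i e_1, ...` of `ℂ^n` (first `m` vectors) -/
def rb (n m : ℕ) : Fin m → CN n := fun i =>
  if h : (i : ℕ) / 2 < n then
    (if (i : ℕ) % 2 = 0 then eb ⟨(i : ℕ) / 2, h⟩ else Complex.I • eb ⟨(i : ℕ) / 2, h⟩)
  else 0

/-- FS-VOL: the volume form of a coframe -/
def S_VOL : Prop := ∀ (n : ℕ) (η : Fin n → Cov n),
  (∀ i (c : ℂ) v, η i (c • v) = c * η i v) → LinearIndependent ℂ η →
  ∃ r : ℝ, 0 < r ∧ ∀ m, m = 2 * n → wlist (volList η) m (rb n m) = (-2 * Complex.I) ^ n * r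

/-! ## objects on a manifold -/

section manifold

variable (n : ℕ) (X : Type u) [TopologicalSpace X] [ChartedSpace (CN n) X]

/-- smooth complex valued functions on `X` -/
def IsSF (f : X → ℂ) : Prop :=
  ∀ c : atlas (CN n) X, ContDiffOn ℝ ∞ (fun y => f (c.1.symm y)) c.1.target

/-- a smooth covector field on `X` -/
structure OneF where
  /-- local expressions -/
  loc : atlas (CN n) X → CN n → Cov n
  smooth : ∀ c, ContDiffOn ℝ ∞ (loc c) c.1.target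
  compat : ∀ c c', ∀ y ∈ (c.1.symm.trans c'.1).source,
    loc c y = (loc c' ((c.1.symm.trans c'.1) y)).comp (fderiv ℝ (c.1.symm.trans c'.1) y)

/-- continuous densities on `X` -/
structure IsDens (m : atlas (CN n) X → CN n → ℂ) : Prop where
  cont : ∀ c, ContinuousOn (m c) c.1.target
  off : ∀ c, ∀ y ∉ c.1.target, m c y = 0
  compat : ∀ c c', ∀ y ∈ (c.1.symm.trans c'.1).source,
    m c y = m c' ((c.1.symm.trans c'.1) y) * (|(fderiv ℝ (c.1.symm.trans c'.1) y).det| : ℝ)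

/-- integration of densities -/
structure IsInt (I : (atlas (CN n) X → CN n → ℂ) → ℂ) : Prop where
  add : ∀ m m', IsDens n X m → IsDens n X m' → I (m + m') = I m + I m'
  smul : ∀ (r : ℂ) m, IsDens n X m → I (r • m) = r * I m
  loc : ∀ (c : atlas (CN n) X) (K : Set (CN n)) m, IsCompact K → K ⊆ c.1.target → IsDens n X m →
    (∀ (c' : atlas (CN n) X), ∀ y ∈ c'.1.target, c'.1.symm y ∉ c.1.symm '' K → m c' y = 0) →
    I m = ∫ y in c.1.target, m c y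
  pos : ∀ m, IsDens n X m → (∀ c y, ∃ r : ℝ, 0 ≤ r ∧ m c y = r) →
    ∃ r : ℝ, 0 ≤ r ∧ I m = r ∧ (r = 0 → m = 0)

variable {n X}

theorem trans_source_iff (c c' : atlas (CN n) X) (y : CN n) :
    y ∈ (c.1.symm.trans c'.1).source ↔ y ∈ c.1.target ∧ c.1.symm y ∈ c'.1.source := by
  simp

theorem trans_mem_target {c c' : atlas (CN n) X} {y : CN n}
    (hy : y ∈ (c.1.symm.trans c'.1).source) : (c.1.symm.trans c'.1) y ∈ c'.1.target :=
  c'.1.map_source ((trans_source_iff c c' y).1 hy).2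

theorem trans_symm_eq {c c' : atlas (CN n) X} {y : CN n}
    (hy : y ∈ (c.1.symm.trans c'.1).source) :
    c'.1.symm ((c.1.symm.trans c'.1) y) = c.1.symm y :=
  c'.1.left_inv ((trans_source_iff c c' y).1 hy).2

/-- product of a smooth function and a form -/
def mulF {k : ℕ} (f : X → ℂ) (hf : IsSF n X f) (w : Forms n X k) : Forms n X k :=
  Forms.mk (fun c y => f (c.1.symm y) • w.loc c y)
    { smooth := fun c => (hf c).smul (w.isForm.smooth c)
      off := fun c y hy => by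
        rw [w.isForm.off c y hy]
        ext v
        simp
      compat := fun c c' y hy => by
        rw [trans_symm_eq hy, w.isForm.compat c c' y hy]
        ext v; simp }

/-- wedge product of a covector field and a form -/
def OneF.w (θ : OneF n X) (k : ℕ) : Forms n X k →ₗ[ℂ] Forms n X (k + 1) where
  toFun w := Forms.mk (fun c y => wl (θ.loc c y) (w.loc c y))
    { smooth := fun c => contDiffOn_wl (θ.smooth c) (w.isForm.smooth c)
      off := fun c y hy => by rw [w.isForm.off c y hy, wl_zero_right]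
      compat := fun c c' y hy => by
        rw [wl_comp, ← w.isForm.compat c c' y hy, ← θ.compat c c' y hy] }
  map_add' a b := Forms.ext fun c y _ => wl_add_right _ _ _
  map_smul' r a := Forms.ext fun c y _ => wl_smul_right _ _ _

end manifold

/-- FS-EXT: extension by zero of a form -/
def S_EXT : Prop := ∀ (n : ℕ) (X : Type u) [TopologicalSpace X] [ChartedSpace (CN n) X]
  [IsManifold 𝓘(ℂ, CN n) ω X] [T2Space X] (k : ℕ) (c : atlas (CN n) X) (η : CN n → Alt n k)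
  (K : Set (CN n)), IsCompact K → K ⊆ c.1.target → ContDiffOn ℝ ∞ η c.1.target →
  (∀ y ∈ c.1.target, y ∉ K → η y = 0) →
  ∃ w : Forms n X k, (∀ y ∈ c.1.target, w.loc c y = η y) ∧
    ∀ (c' : atlas (CN n) X), ∀ y ∈ c'.1.target, c'.1.symm y ∉ c.1.symm '' K → w.loc c' y = 0

/-- FS-PU: smooth partitions of unity subordinate to finitely many charts -/
def S_PU : Prop := ∀ (n : ℕ) (X : Type u) [TopologicalSpace X] [ChartedSpace (CN n) X]
  [IsManifold 𝓘(ℂ, CN n) ω X] [T2Space X] [CompactSpace X],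
  ∃ (N : ℕ) (c : Fin N → atlas (CN n) X) (ρ : Fin N → X → ℂ) (K : Fin N → Set (CN n)),
    (∀ i, IsSF n X (ρ i)) ∧ (∀ i, IsCompact (K i) ∧ K i ⊆ (c i).1.target) ∧
    (∀ i x, ρ i x ≠ 0 → x ∈ (c i).1.symm '' K i) ∧ (∀ i x, ∃ r : ℝ, 0 ≤ r ∧ ρ i x = r) ∧
    ∀ x, ∑ i, ρ i x = 1

/-- FS-CV: change of variables for densities -/
def S_CV : Prop := ∀ (n : ℕ) (X : Type u) [TopologicalSpace X] [ChartedSpace (CN n) X]
  [IsManifold 𝓘(ℂ, CN n) ω X] (c c' : atlas (CN n) X) (m), IsDens n X m →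
  (∀ y ∈ c.1.target, c.1.symm y ∉ c'.1.source → m c y = 0) →
  (∀ y ∈ c'.1.target, c'.1.symm y ∉ c.1.source → m c' y = 0) →
  ∫ y in c.1.target, m c y = ∫ y in c'.1.target, m c' y

/-- FS-INT: existence of the integral of densities -/
def S_INT : Prop := ∀ (n : ℕ) (X : Type u) [TopologicalSpace X] [ChartedSpace (CN n) X]
  [IsManifold 𝓘(ℂ, CN n) ω X] [T2Space X] [CompactSpace X], ∃ I, IsInt n X I

/-- FS-FIL: the filtration in terms of components -/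
def S_FIL : Prop := ∀ (n : ℕ) (X : Type u) [TopologicalSpace X] [ChartedSpace (CN n) X]
  [IsManifold 𝓘(ℂ, CN n) ω X] (k : ℕ) (p : ℤ) (w : Forms n X k),
  w ∈ Fil n X p k ↔ ∀ p' : ℕ, (p' : ℤ) < p → ∀ c y, prj k p' (w.loc c y) = 0

/-- FS-CONJ: complex conjugation of forms -/
def S_CONJ : Prop := ∀ (n : ℕ) (X : Type u) [TopologicalSpace X] [ChartedSpace (CN n) X]
  [IsManifold 𝓘(ℂ, CN n) ω X], ∃ J : (k : ℕ) → Forms n X k → Forms n X k,
  (∀ k w c y v, (J k w).loc c y v = starRingEnd ℂ (w.loc c y v)) ∧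
  (∀ k w, extD n X k (J k w) = J (k + 1) (extD n X k w)) ∧
  (∀ k p q w, w ∈ TypeForms n X p q k → J k w ∈ TypeForms n X q p k)

/-- the density `g * conj h` for forms of type `(0,n)` -/
def dH {n : ℕ} {X : Type u} [TopologicalSpace X] [ChartedSpace (CN n) X] (h g : Forms n X n) :
    atlas (CN n) X → CN n → ℂ :=
  fun c y => prj n 0 (g.loc c y) (ebt n) * starRingEnd ℂ (h.loc c y (ebt n))

/-- FS-P0: this is a density -/
def S_P0 : Prop := ∀ (n : ℕ) (X : Type u) [TopologicalSpace X] [ChartedSpace (CN n) X]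
  [IsManifold 𝓘(ℂ, CN n) ω X] (h g : Forms n X n), h ∈ TypeForms n X 0 n n →
  IsDens n X (dH h g)

/-- FS-P1: closed `(0,n)`-forms are orthogonal to the image of `d` -/
def S_P1 : Prop := ∀ (k : ℕ) (X : Type u) [TopologicalSpace X] [ChartedSpace (CN (k + 1)) X]
  [IsManifold 𝓘(ℂ, CN (k + 1)) ω X] [T2Space X] [CompactSpace X] (I), IsInt (k + 1) X I →
  ∀ h : Forms (k + 1) X (k + 1), h ∈ TypeForms (k + 1) X 0 (k + 1) (k + 1) →
    extD (k + 1) X (k + 1) h = 0 → ∀ β : Forms (k + 1) X k, I (dH h (extD (k + 1) X k β)) = 0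

/-- FS-P2: a `(0,n)`-form orthogonal to the image of `d` is closed -/
def S_P2 : Prop := ∀ (k : ℕ) (X : Type u) [TopologicalSpace X] [ChartedSpace (CN (k + 1)) X]
  [IsManifold 𝓘(ℂ, CN (k + 1)) ω X] [T2Space X] [CompactSpace X] (I), IsInt (k + 1) X I →
  ∀ h : Forms (k + 1) X (k + 1), h ∈ TypeForms (k + 1) X 0 (k + 1) (k + 1) →
    (∀ β : Forms (k + 1) X k, I (dH h (extD (k + 1) X k β)) = 0) →
    extD (k + 1) X (k + 1) h = 0

/-- `g` is a form of type `(0,n)` with coefficient `f` in the chart `c`, vanishing outside the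
set `K` in this chart -/
structure IsExt {n : ℕ} {X : Type u} [TopologicalSpace X] [ChartedSpace (CN n) X]
    (c : atlas (CN n) X) (K : Set (CN n)) (f : CN n → ℂ) (g : Forms n X n) : Prop where
  type : g ∈ TypeForms n X 0 n n
  coef : ∀ y ∈ c.1.target, g.loc c y (ebt n) = f y
  off : ∀ (c' : atlas (CN n) X), ∀ y ∈ c'.1.target, c'.1.symm y ∉ c.1.symm '' K → g.loc c' y = 0

/-- FS-LSOL: local solvability modulo smoothing in a chart -/
def S_LSOL : Prop := ∀ (k : ℕ) (X : Type u) [TopologicalSpace X] [ChartedSpace (CN (k + 1)) X]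
  [IsManifold 𝓘(ℂ, CN (k + 1)) ω X] [T2Space X] (c : atlas (CN (k + 1)) X)
  (K : Set (CN (k + 1))), IsCompact K → K ⊆ c.1.target →
  ∃ (δ : ℝ) (ψ : CN (k + 1) → ℂ), 0 < δ ∧ ContDiff ℝ ∞ ψ ∧ (∀ w, δ < ‖w‖ → ψ w = 0) ∧
    Metric.cthickening δ K ⊆ c.1.target ∧
    ∀ f : CN (k + 1) → ℂ, ContDiff ℝ ∞ f → (∀ z ∉ K, f z = 0) →
      ∃ (g w : Forms (k + 1) X (k + 1)) (β : Forms (k + 1) X k), IsExt c K f g ∧
        IsExt c (Metric.cthickening δ K) (fun z => ∫ x, ψ (x - z) * f x) w ∧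
        g - w - extD (k + 1) X k β ∈ Fil (k + 1) X 1 (k + 1)

/-- FS-KER: the smoothing operators have smooth kernels in all charts -/
def S_KER : Prop := ∀ (n : ℕ) (X : Type u) [TopologicalSpace X] [ChartedSpace (CN n) X]
  [IsManifold 𝓘(ℂ, CN n) ω X] [T2Space X] (c c' : atlas (CN n) X) (K K' : Set (CN n))
  (δ : ℝ) (ψ ρ : CN n → ℂ), IsCompact K → K ⊆ c.1.target → IsCompact K' → K' ⊆ c'.1.target →
  0 < δ → ContDiff ℝ ∞ ψ → (∀ w, δ < ‖w‖ → ψ w = 0) → Metric.cthickening δ K ⊆ c.1.target →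
  ContDiffOn ℝ ∞ ρ c'.1.target → (∀ y ∈ c'.1.target, y ∉ K' → ρ y = 0) →
  ∃ κ : CN n × CN n → ℂ, ContDiff ℝ ∞ κ ∧ HasCompactSupport κ ∧
    (∀ y ∉ K', ∀ x, κ (y, x) = 0) ∧
    ∀ f : CN n → ℂ, ContDiff ℝ ∞ f → (∀ z ∉ K, f z = 0) → ∀ w : Forms n X n,
      IsExt c (Metric.cthickening δ K) (fun z => ∫ x, ψ (x - z) * f x) w →
      ∀ y ∈ c'.1.target, ρ y * w.loc c' y (ebt n) = ∫ x, κ (y, x) * f x

/-- FS-P3: the image of `d` in the `(0,n)`-forms has finite codimension -/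
def S_P3 : Prop := ∀ (k : ℕ) (X : Type u) [TopologicalSpace X] [ChartedSpace (CN (k + 1)) X]
  [IsManifold 𝓘(ℂ, CN (k + 1)) ω X] [T2Space X] [CompactSpace X] (I), IsInt (k + 1) X I →
  ∃ (M : ℕ) (φ : Fin M → Forms (k + 1) X (k + 1)),
    (∀ m, φ m ∈ TypeForms (k + 1) X 0 (k + 1) (k + 1)) ∧
    ∀ g : Forms (k + 1) X (k + 1), g ∈ TypeForms (k + 1) X 0 (k + 1) (k + 1) →
      (∀ m, I (dH (φ m) g) = 0) →
      ∃ β : Forms (k + 1) X k, g - extD (k + 1) X k β ∈ Fil (k + 1) X 1 (k + 1)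

/-- FS-UB1: exact forms of type `(n,0)` vanish -/
def S_UB1 : Prop := ∀ (k : ℕ) (X : Type u) [TopologicalSpace X] [ChartedSpace (CN (k + 1)) X]
  [IsManifold 𝓘(ℂ, CN (k + 1)) ω X] [T2Space X] [CompactSpace X] (w : Forms (k + 1) X k),
  extD (k + 1) X k w ∈ Fil (k + 1) X ((k : ℤ) + 1) (k + 1) → extD (k + 1) X k w = 0

/-- FS-UB2: `A^n = F^1 A^n + ker d` -/
def S_UB2 : Prop := ∀ (k : ℕ) (X : Type u) [TopologicalSpace X] [ChartedSpace (CN (k + 1)) X]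
  [IsManifold 𝓘(ℂ, CN (k + 1)) ω X] [T2Space X] [CompactSpace X]
  (w : Forms (k + 1) X (k + 1)), ∃ h : Forms (k + 1) X (k + 1),
    extD (k + 1) X (k + 1) h = 0 ∧ w - h ∈ Fil (k + 1) X 1 (k + 1)

/-- FS-UB: the upper bound -/
def S_UB : Prop := ∀ (n : ℕ) (X : Type u) [TopologicalSpace X] [ChartedSpace (CN n) X]
  [IsManifold 𝓘(ℂ, CN n) ω X] [T2Space X] [CompactSpace X] (r : ℕ), 1 ≤ n → n ≤ r →
  ∀ (p : ℤ) (k : ℕ), dr n X r p k = 0

/-- FS-ITOP: the integral of top forms -/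
def S_ITOP : Prop := ∀ (n : ℕ) (X : Type u) [TopologicalSpace X] [ChartedSpace (CN n) X]
  [IsManifold 𝓘(ℂ, CN n) ω X] [T2Space X] [CompactSpace X] [Nonempty X] (K : ℕ),
  K + 1 = 2 * n → ∃ J : Forms n X (K + 1) →ₗ[ℂ] ℂ,
    (∀ w : Forms n X K, J (extD n X K w) = 0) ∧
    ∀ (w : Forms n X (K + 1)) (c₀ : ℂ), c₀ ≠ 0 →
      (∀ (c : atlas (CN n) X), ∀ y ∈ c.1.target, ∃ η : Fin n → Cov n,
        (∀ i (l : ℂ) v, η i (l • v) = l * η i v) ∧ LinearIndependent ℂ η ∧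
        w.loc c y = c₀ • wlist (volList η) (K + 1)) → J w ≠ 0

/-! ## the exterior algebra -/

/-- structure constants: a list of terms `c g_a g_b` for every generator -/
abbrev Str (ι : Type) := ι → List (ℤ × (ι ⊕ ι) × (ι ⊕ ι))

/-- the exterior algebra on generators `g_i` (left copy) and `conj g_i` (right copy) -/
abbrev Lam (ι : Type) := ExteriorAlgebra ℂ ((ι ⊕ ι) → ℂ)

section lam

variable {ι : Type} [DecidableEq ι]

/-- the generators -/
def gen (i : ι ⊕ ι) : Lam ι := ExteriorAlgebra.ι ℂ (Pi.single i 1)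

/-- the quadratic element prescribed by a list of terms -/
def quad (L : List (ℤ × (ι ⊕ ι) × (ι ⊕ ι))) : Lam ι :=
  (L.map fun t => (t.1 : ℂ) • (gen t.2.1 * gen t.2.2)).sum

/-- the differential of a generator; the conjugate of `g_i` is the swapped index -/
def dgen (s : Str ι) : ι ⊕ ι → Lam ι
  | Sum.inl i => quad (s i)
  | Sum.inr i => quad ((s i).map fun t => (t.1, t.2.1.swap, t.2.2.swap))

/-- `D` is the antiderivation with `D g = dgen g` -/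
structure IsDer (s : Str ι) (D : Lam ι →ₗ[ℂ] Lam ι) : Prop where
  one : D 1 = 0
  gen_mul : ∀ i x, D (gen i * x) = dgen s i * x - gen i * D x

/-- elements of type `(p,q)` -/
def TT (p q : ℕ) : Submodule ℂ (Lam ι) :=
  (Submodule.span ℂ (Set.range fun i : ι => (gen (Sum.inl i) : Lam ι))) ^ p *
    (Submodule.span ℂ (Set.range fun i : ι => (gen (Sum.inr i) : Lam ι))) ^ q

/-- the volume element along an enumeration -/
def volE (L : List ι) : Lam ι := (L.map fun i => gen (Sum.inl i) * gen (Sum.inr i)).prod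

/-- the algebraic certificate for a differential on the page `n - 1` -/
def Cert [Fintype ι] (s : Str ι) : Prop := ∀ D : Lam ι →ₗ[ℂ] Lam ι, IsDer s D →
  ∃ β θ : Lam ι, D β ∈ (TT (Fintype.card ι - 1) 1 : Submodule ℂ (Lam ι)) ∧
    D θ ∈ (TT (Fintype.card ι) 1 : Submodule ℂ (Lam ι)) ∧
    ∃ (c : ℂ) (L : List ι), c ≠ 0 ∧ L.Nodup ∧ (∀ i, i ∈ L) ∧ D θ * β = c • volE L

end lam

/-- a coframe on `X` with given structure constants -/
structure Coframe (n : ℕ) (X : Type) [TopologicalSpace X] [ChartedSpace (CN n) X]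
    [IsManifold 𝓘(ℂ, CN n) ω X] (ι : Type) (s : Str ι) where
  /-- the covector fields -/
  θ : ι ⊕ ι → OneF n X
  holo : ∀ i c, ∀ y ∈ c.1.target, ∀ (l : ℂ) v,
    (θ (Sum.inl i)).loc c y (l • v) = l * (θ (Sum.inl i)).loc c y v
  conj : ∀ i c, ∀ y ∈ c.1.target, (θ (Sum.inr i)).loc c y = cjCov ((θ (Sum.inl i)).loc c y)
  indep : ∀ c, ∀ y ∈ c.1.target, ∀ v : CN n,
    (∀ i, (θ (Sum.inl i)).loc c y v = 0) → v = 0
  struct_inl : ∀ i k (w : Forms n X k), extD n X (k + 1) ((θ (Sum.inl i)).w k w) =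
    ((s i).map fun t => (t.1 : ℂ) • (θ t.2.1).w (k + 1) ((θ t.2.2).w k w)).sum -
      (θ (Sum.inl i)).w (k + 1) (extD n X k w)
  struct_inr : ∀ i k (w : Forms n X k), extD n X (k + 1) ((θ (Sum.inr i)).w k w) =
    ((s i).map fun t => (t.1 : ℂ) • (θ t.2.1.swap).w (k + 1) ((θ t.2.2.swap).w k w)).sum -
      (θ (Sum.inr i)).w (k + 1) (extD n X k w)

/-- FS-LBABS: the abstract lower bound -/
def S_LBABS : Prop := ∀ (n : ℕ) (X : Type) [TopologicalSpace X] [ChartedSpace (CN n) X]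
  [IsManifold 𝓘(ℂ, CN n) ω X] [T2Space X] [CompactSpace X] [Nonempty X]
  (ι : Type) [Fintype ι] [DecidableEq ι] (s : Str ι), Fintype.card ι = n → 2 ≤ n →
  Nonempty (Coframe n X ι s) → Cert s →
  dr n X ((n - 1 : ℕ) : ℤ) 0 (n - 1) ≠ 0

/-! ## the structure constants -/

/-- index type: `m + 1` core generators and `k` blocks of two generators
`(j, false)` (called `ζ_j`) and `(j, true)` (called `ω_j`) -/
abbrev Idx (m k : ℕ) : Type := Fin (m + 1) ⊕ (Fin k × Bool)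

/-- adding the blocks -/
def blk {m : ℕ} (s : Str (Fin (m + 1))) (k : ℕ) : Str (Idx m k)
  | Sum.inl i => (s i).map fun t => (t.1, Sum.map Sum.inl Sum.inl t.2.1,
      Sum.map Sum.inl Sum.inl t.2.2)
  | Sum.inr (_, false) => []
  | Sum.inr (j, true) =>
    [((j : ℕ) + 2, Sum.inl (Sum.inl 0), Sum.inl (Sum.inr (j, false))),
     (((j : ℕ) + 2) ^ 2 + 1, Sum.inl (Sum.inl 0), Sum.inr (Sum.inr (j, false))),
     ((j : ℕ) + 2, Sum.inr (Sum.inl 0), Sum.inl (Sum.inr (j, false)))]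

/-- the core in dimension 3: `dω_1 = e ē`, `dω_2 = ω_1 ē` -/
def s3 : Str (Fin (2 + 1)) := ![[],
  [(1, Sum.inl 0, Sum.inr 0)],
  [(1, Sum.inl 1, Sum.inr 0)]]

/-- the core in dimension 4: `dω_1 = e ē`, `dω_2 = e (ω_1 - ω̄_1)`,
`dω_3 = e ω_2 + e ω̄_2 + ω_2 ē` -/
def s4 : Str (Fin (3 + 1)) := ![[],
  [(1, Sum.inl 0, Sum.inr 0)],
  [(1, Sum.inl 0, Sum.inl 1), (-1, Sum.inl 0, Sum.inr 1)],
  [(1, Sum.inl 0, Sum.inl 2), (1, Sum.inl 0, Sum.inr 2), (1, Sum.inl 2, Sum.inr 0)]]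

/-- the core of the odd family: `e, ζ` closed, `dv = ζ ζ̄ - e ē + e ζ`, `ds = e v̄ - v ζ̄`,
`dτ = ζ ē` -/
def sP : Str (Fin (4 + 1)) := ![[], [],
  [(1, Sum.inl 1, Sum.inr 1), (-1, Sum.inl 0, Sum.inr 0), (1, Sum.inl 0, Sum.inl 1)],
  [(1, Sum.inl 0, Sum.inr 2), (-1, Sum.inl 2, Sum.inr 1)],
  [(1, Sum.inl 1, Sum.inr 0)]]

/-- the core of the even family: `e, ζ` closed, `da = e (ζ + ζ̄ + ē)`, `db = -ζ ζ̄`,
`dc = -b ζ̄ - e a`, `dτ = ζ ē` -/
def sQ : Str (Fin (5 + 1)) := ![[], [],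
  [(1, Sum.inl 0, Sum.inl 1), (1, Sum.inl 0, Sum.inr 1), (1, Sum.inl 0, Sum.inr 0)],
  [(-1, Sum.inl 1, Sum.inr 1)],
  [(-1, Sum.inl 3, Sum.inr 1), (-1, Sum.inl 0, Sum.inl 2)],
  [(1, Sum.inl 1, Sum.inr 0)]]

/-! ## nilpotent groups in coordinates -/

/-- lattice points: `a i` is `sc i` times a Gaussian integer -/
def IsLat {ι : Type} (sc : ι → ℕ) (a : ι → ℂ) : Prop :=
  ∀ i, ∃ x y : ℤ, a i = (sc i : ℂ) * ((x : ℂ) + (y : ℂ) * Complex.I)

/-- a triangular group law `a * z = a + z + h a z` on `ℂ^ι` with lattice `∏ sc i ℤ[i]` -/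
structure Law (ι : Type) [Fintype ι] where
  rk : ι → ℕ
  sc : ι → ℕ
  sc_pos : ∀ i, 0 < sc i
  h : (ι → ℂ) → (ι → ℂ) → (ι → ℂ)
  dep : ∀ i a a' z z', (∀ j, rk j < rk i → a j = a' j) → (∀ j, rk j < rk i → z j = z' j) →
    h a z i = h a' z' i
  zero_left : ∀ z, h 0 z = 0
  assoc : ∀ a b z, a + (b + z + h b z) + h a (b + z + h b z) =
    (a + b + h a b) + z + h (a + b + h a b) z
  int : ∀ a b, IsLat sc a → IsLat sc b → IsLat sc (h a b)
  cont : Continuous fun q : (ι → ℂ) × (ι → ℂ) => h q.1 q.2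
  hol : ∀ a, ContDiff ℂ ω (h a)

/-- left translation -/
def Law.mul {ι : Type} [Fintype ι] (T : Law ι) (a z : ι → ℂ) : ι → ℂ := a + z + T.h a z

/-- left translation in the coordinates of `ℂ^n` given by an enumeration of `ι` -/
def Law.act {ι : Type} [Fintype ι] (T : Law ι) {n : ℕ} (σ : ι ≃ Fin n) (a : ι → ℂ) (z : CN n) :
    CN n := fun i => T.mul a (fun j => z (σ j)) (σ.symm i)

/-- FS-QUO: the quotient of `ℂ^n` by a group of biholomorphic maps -/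
def S_QUO : Prop := ∀ (n : ℕ) (G : Type) [Group G] [MulAction G (CN n)],
  (∀ g : G, ContDiff ℂ ω fun z : CN n => g • z) →
  (∀ K : Set (CN n), IsCompact K → {g : G | ((fun z : CN n => g • z) '' K ∩ K).Nonempty}.Finite) →
  (∀ (g : G) (z : CN n), g • z = z → g = 1) →
  (∃ K : Set (CN n), IsCompact K ∧ ∀ z : CN n, ∃ g : G, g • z ∈ K) →
  ∃ (X : Type) (_ : TopologicalSpace X) (_ : ChartedSpace (CN n) X)
    (_ : IsManifold 𝓘(ℂ, CN n) ω X), CompactSpace X ∧ T2Space X ∧ ConnectedSpace X ∧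
    ∀ (c c' : atlas (CN n) X), ∀ y ∈ (c.1.symm.trans c'.1).source,
      ∃ g : G, ∀ᶠ z in 𝓝 y, (c.1.symm.trans c'.1) z = g • z

/-- FS-GEO: the nilmanifold of a law -/
def S_GEO : Prop := ∀ (n : ℕ) (ι : Type) [Fintype ι] [DecidableEq ι] (σ : ι ≃ Fin n) (T : Law ι),
  ∃ (X : Type) (_ : TopologicalSpace X) (_ : ChartedSpace (CN n) X)
    (_ : IsManifold 𝓘(ℂ, CN n) ω X), CompactSpace X ∧ T2Space X ∧ ConnectedSpace X ∧
    ∀ (c c' : atlas (CN n) X), ∀ y ∈ (c.1.symm.trans c'.1).source,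
      ∃ a : ι → ℂ, IsLat T.sc a ∧ ∀ᶠ z in 𝓝 y, (c.1.symm.trans c'.1) z = T.act σ a z

/-- covector fields on `ℂ^ι` -/
abbrev Covi (ι : Type) [Fintype ι] : Type := (ι → ℂ) →L[ℝ] ℂ

/-- the fields and their conjugates -/
def cof' {ι : Type} [Fintype ι] (cof : ι → (ι → ℂ) → Covi ι) : ι ⊕ ι → (ι → ℂ) → Covi ι
  | Sum.inl i => cof i
  | Sum.inr i => fun y => Complex.conjCLE.toContinuousLinearMap.comp (cof i y)

/-- a law with a left invariant coframe with structure constants `s` -/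
structure Fam (ι : Type) [Fintype ι] (s : Str ι) extends Law ι where
  cof : ι → (ι → ℂ) → Covi ι
  smooth : ∀ i, ContDiff ℝ ∞ (cof i)
  lin : ∀ i y (c : ℂ) v, cof i y (c • v) = c * cof i y v
  indep : ∀ y v, (∀ i, cof i y v = 0) → v = 0
  inv : ∀ i a, IsLat sc a → ∀ y,
    (cof i (a + y + h a y)).comp (fderiv ℝ (fun z => a + z + h a z) y) = cof i y
  str : ∀ i y u v, fderiv ℝ (cof i) y u v - fderiv ℝ (cof i) y v u =
    ((s i).map fun t => (t.1 : ℂ) * (cof' cof t.2.1 y u * cof' cof t.2.2 y v -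
      cof' cof t.2.1 y v * cof' cof t.2.2 y u)).sum

/-- FS-COF: from a family of invariant forms to a coframe on the quotient -/
def S_COF : Prop := ∀ (n : ℕ) (ι : Type) [Fintype ι] [DecidableEq ι] (_ : ι ≃ Fin n) (s : Str ι)
  (_ : Fam ι s), ∃ (X : Type) (_ : TopologicalSpace X) (_ : ChartedSpace (CN n) X)
    (_ : IsManifold 𝓘(ℂ, CN n) ω X), CompactSpace X ∧ T2Space X ∧ ConnectedSpace X ∧
    Nonempty (Coframe n X ι s)

/-- a core: the first coordinate is additive and the first form is its differential -/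
def IsCore {m : ℕ} {s : Str (Fin (m + 1))} (F : Fam (Fin (m + 1)) s) : Prop :=
  F.rk 0 = 0 ∧ (∀ a z, F.h a z 0 = 0) ∧ ∀ y v, F.cof 0 y v = v 0

/-- FS-G3, G4, GP, GQ: the four cores -/
def S_G3 : Prop := ∃ F : Fam (Fin (2 + 1)) s3, IsCore F
def S_G4 : Prop := ∃ F : Fam (Fin (3 + 1)) s4, IsCore F
def S_GP : Prop := ∃ F : Fam (Fin (4 + 1)) sP, IsCore F
def S_GQ : Prop := ∃ F : Fam (Fin (5 + 1)) sQ, IsCore F

/-- FS-GB: adding blocks to a core -/
def S_GB : Prop := ∀ (m : ℕ) (s : Str (Fin (m + 1))) (F : Fam (Fin (m + 1)) s), IsCore F →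
  ∀ k : ℕ, Nonempty (Fam (Idx m k) (blk s k))

/-! ## algebra -/

/-- FS-JLEM: the combinatorial lemma on middle levels -/
def S_JLEM : Prop := ∀ (T : Type) [Fintype T] [DecidableEq T] (a b : T → ℂ),
  (∀ l l', l ≠ l' → a l * b l' ≠ a l' * b l) → ∀ S : Finset T, 2 * S.card = Fintype.card T →
  0 < S.card → ∃ u v : Finset T → ℂ, ∀ S' : Finset T,
    ∑ l ∈ S', (a l * u (S'.erase l) + b l * v (S'.erase l)) = if S' = S then 1 else 0

/-- FS-DER: existence of the antiderivation and the Leibniz rule -/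
def S_DER : Prop := ∀ (ι : Type) [Fintype ι] [DecidableEq ι] (s : Str ι),
  (∃ D : Lam ι →ₗ[ℂ] Lam ι, IsDer s D) ∧
  ∀ D : Lam ι →ₗ[ℂ] Lam ι, IsDer s D →
    ∀ x y, D (x * y) = D x * y + CliffordAlgebra.involute x * D y

/-- the data needed from a core to attach blocks; `e = gen (inl 0)`, `ē = gen (inr 0)` -/
def CoreCert {m : ℕ} (s : Str (Fin (m + 1))) : Prop :=
  ∀ D : Lam (Fin (m + 1)) →ₗ[ℂ] Lam (Fin (m + 1)), IsDer s D →
  ∃ β θ lam ψ ψ₁ : Lam (Fin (m + 1)),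
    D β ∈ (TT m 1 : Submodule ℂ (Lam (Fin (m + 1)))) ∧
    D θ ∈ (TT (m + 1) 1 : Submodule ℂ (Lam (Fin (m + 1)))) ∧
    D β = D lam + gen (Sum.inl 0) * gen (Sum.inr 0) * ψ ∧
    lam * gen (Sum.inl 0) = 0 ∧
    gen (Sum.inl 0) * D ψ = 0 ∧ gen (Sum.inr 0) * D ψ = 0 ∧
    D θ = gen (Sum.inl 0) * gen (Sum.inr 0) * ψ₁ ∧
    gen (Sum.inl 0) * D ψ₁ = 0 ∧ gen (Sum.inr 0) * D ψ₁ = 0 ∧
    ∃ (c : ℂ) (L : List (Fin (m + 1))), c ≠ 0 ∧ L.Nodup ∧ (∀ i, i ∈ L) ∧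
      D θ * β = c • volE L

/-- FS-A3, A4, AP, AQ: the computations in the cores -/
def S_A3 : Prop := Cert s3
def S_A4 : Prop := Cert s4
def S_AP : Prop := CoreCert sP
def S_AQ : Prop := CoreCert sQ

section blocks

variable {m k : ℕ}

/-- `e` -/
def ee : Lam (Idx m k) := gen (Sum.inl (Sum.inl 0))

/-- `ē` -/
def eeb : Lam (Idx m k) := gen (Sum.inr (Sum.inl 0))

/-- `ζ_j` -/
def zt (j : Fin k) : Lam (Idx m k) := gen (Sum.inl (Sum.inr (j, false)))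

/-- `ζ̄_j` -/
def ztb (j : Fin k) : Lam (Idx m k) := gen (Sum.inr (Sum.inr (j, false)))

/-- `ω_j` -/
def om (j : Fin k) : Lam (Idx m k) := gen (Sum.inl (Sum.inr (j, true)))

/-- `ω̄_j` -/
def omb (j : Fin k) : Lam (Idx m k) := gen (Sum.inr (Sum.inr (j, true)))

/-- the parameter `l = j + 2` of the `j`-th block -/
def lj (j : Fin k) : ℂ := ((j : ℕ) : ℂ) + 2

/-- `r₁ = l ζ + ζ̄` -/
def r1 (j : Fin k) : Lam (Idx m k) := lj j • zt j + ztb j

/-- `r₂ = ζ + l ζ̄` -/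
def r2 (j : Fin k) : Lam (Idx m k) := zt j + lj j • ztb j

/-- `p₁ = ω - l ω̄` -/
def p1 (j : Fin k) : Lam (Idx m k) := om j - lj j • omb j

/-- `p₂ = l ω - ω̄` -/
def p2 (j : Fin k) : Lam (Idx m k) := lj j • om j - omb j

/-- `ξ = l² r₁ p₂ + r₂ p₁` -/
def xi (j : Fin k) : Lam (Idx m k) := (lj j) ^ 2 • (r1 j * p2 j) + r2 j * p1 j

/-- `κ = r₁ p₁ + r₂ p₂` -/
def kap (j : Fin k) : Lam (Idx m k) := r1 j * p1 j + r2 j * p2 j

end blocks

/-- FS-BID: identities for the blocks -/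
def S_BID : Prop := ∀ (m : ℕ) (s : Str (Fin (m + 1))) (k : ℕ), s 0 = [] →
  ∀ D : Lam (Idx m k) →ₗ[ℂ] Lam (Idx m k), IsDer (blk s k) D → ∀ j : Fin k,
  D (r1 j) = 0 ∧ D (r2 j) = 0 ∧
  D (p1 j) = (ee - (lj j) ^ 2 • eeb) * r1 j ∧ D (p2 j) = ((lj j) ^ 2 • ee - eeb) * r2 j ∧
  D (kap j) = 0 ∧ D (xi j) = ((lj j) ^ 4 - 1) • (ee * r1 j * r2 j) ∧
  (((lj j) ^ 2 - 1) ^ 2) • ((zt j * om j : Lam (Idx m k))) = xi j - lj j • kap j ∧
  (kap j : Lam (Idx m k)) * xi j = 0 ∧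
  (∃ c : ℂ, c ≠ 0 ∧ (kap j : Lam (Idx m k)) * kap j = c • (zt j * ztb j * (om j * omb j))) ∧
  (∀ x : Lam (Idx m k), kap j * x = x * kap j) ∧ (∀ x : Lam (Idx m k), xi j * x = x * xi j)

/-- FS-ALPHA: `e ē ξ^J` is exact for `J` nonempty -/
def S_ALPHA : Prop := ∀ (m : ℕ) (s : Str (Fin (m + 1))) (k : ℕ), s 0 = [] →
  ∀ D : Lam (Idx m k) →ₗ[ℂ] Lam (Idx m k), IsDer (blk s k) D →
  ∀ L : List (Fin k), L.Nodup → L ≠ [] → ∃ x y : Lam (Idx m k),
    D (ee * x + eeb * y) = ee * eeb * (L.map xi).prod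

/-- FS-AB: adding blocks to a certified core -/
def S_AB : Prop := ∀ (m : ℕ) (s : Str (Fin (m + 1))), s 0 = [] → CoreCert s →
  ∀ k : ℕ, Cert (blk s k)

end Pool.Agent.W491.FS
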