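import Pool.Agent.W491.FS.Stm

/-!
# The upper bound
-/

open scoped Manifold ContDiff Topology

noncomputable section

namespace Pool.Agent.W491.FS

universe u

theorem fil_zero (h1 : S_TYPE) (h2 : S_VAN) (h3 : S_FIL.{u}) {n : ℕ} {X : Type u}
    [TopologicalSpace X] [ChartedSpace (CN n) X] [IsManifold 𝓘(ℂ, CN n) ω X] {k : ℕ} {p : ℤ}
    {w : Forms n X k} (hw : w ∈ Fil n X p k)
    (h : ∀ p' : ℕ, p ≤ (p' : ℤ) → p' ≤ k → (n < p' ∨ n < k - p')) : w = 0 := by
  refine Forms.ext fun c y _ => ?_
  rw [← (h1 n k).2.2.2.2.1 (w.loc c y)]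
  refine Finset.sum_eq_zero fun p' hp' => ?_
  have hk : p' ≤ k := by
    have := Finset.mem_range.1 hp'
    omega
  by_cases hp : (p' : ℤ) < p
  · exact (h3 n X k p w).1 hw p' hp c y
  · exact h2 n k p' _ hk (h p' (not_lt.1 hp) hk)

theorem ub (h1 : S_TYPE) (h2 : S_VAN) (h3 : S_FIL.{u}) (h4 : S_UB1.{u}) (h5 : S_UB2.{u}) :
    S_UB.{u} := by
  intro n X _ _ _ _ _ r hn hr p k
  rw [dr_eq_zero_iff]
  intro w hw hdw
  rcases lt_trichotomy p 0 with hp | hp | hp
  · refine Submodule.mem_sup_right (Submodule.mem_map_of_mem ?_)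
    rw [h3 n X k (p + 1) w]
    intro p' hp'
    omega
  · subst hp
    rcases Nat.lt_or_ge n r with hr' | hr'
    · have : extD n X k w = 0 := fil_zero h1 h2 h3 hdw fun p' hp' _ => by omega
      rw [this]
      exact Submodule.zero_mem _
    · have hrn : r = n := le_antisymm hr' hr
      subst hrn
      obtain ⟨m, rfl⟩ : ∃ m, r = m + 1 := ⟨r - 1, by omega⟩
      rcases lt_trichotomy k m with hk | hk | hk
      · have : extD (m + 1) X k w = 0 := fil_zero h1 h2 h3 hdw fun p' hp' _ => by
          push_cast at hp'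
          omega
        rw [this]
        exact Submodule.zero_mem _
      · subst hk
        have : extD (k + 1) X k w = 0 := by
          refine h4 k X w ?_
          have e : (0 : ℤ) + ((k + 1 : ℕ) : ℤ) = (k : ℤ) + 1 := by push_cast; ring
          rwa [e] at hdw
        rw [this]
        exact Submodule.zero_mem _
      · rcases Nat.lt_or_ge (m + 1) k with hk' | hk'
        · refine Submodule.mem_sup_right (Submodule.mem_map_of_mem ?_)
          rw [h3 (m + 1) X k (0 + 1) w]
          intro p' hp' c y
          have : p' = 0 := by omega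
          subst this
          exact h2 (m + 1) k 0 _ (Nat.zero_le _) (Or.inr (by omega))
        · have : k = m + 1 := by omega
          subst this
          obtain ⟨h, hh, hwh⟩ := h5 m X w
          refine Submodule.mem_sup_right ?_
          refine (Submodule.mem_map).2 ⟨w - h, ?_, ?_⟩
          · simpa using hwh
          · rw [map_sub, hh, sub_zero]
  · have : extD n X k w = 0 := fil_zero h1 h2 h3 hdw fun p' hp' _ => by omega
    rw [this]
    exact Submodule.zero_mem _

end Pool.Agent.W491.FS
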