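import Pool.Agent.W491.FS.Defs

/-!
# Wedge product with a covector
-/

open scoped Manifold ContDiff Topology

noncomputable section

namespace Pool.Agent.W491.FS

/-- complex valued real-linear functionals on `ℂ^n` -/
abbrev Cov (n : ℕ) : Type := CN n →L[ℝ] ℂ

/-- wedge product with a covector on the left -/
def wl {n k : ℕ} (l : Cov n) (a : Alt n k) : Alt n (k + 1) :=
  ContinuousAlternatingMap.alternatizeUncurryFin (l.smulRight a)

variable {n k : ℕ}

theorem wl_apply (l : Cov n) (a : Alt n k) (v : Fin (k + 1) → CN n) :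
    wl l a v = ∑ i : Fin (k + 1), (-1 : ℂ) ^ (i : ℕ) * (l (v i) * a (i.removeNth v)) := by
  simp [wl, ContinuousAlternatingMap.alternatizeUncurryFin_apply]

theorem wl_add_left (l l' : Cov n) (a : Alt n k) : wl (l + l') a = wl l a + wl l' a := by
  ext v
  simp only [wl_apply, ContinuousAlternatingMap.add_apply, add_apply,
    ← Finset.sum_add_distrib]
  exact Finset.sum_congr rfl fun i _ => by ring

theorem wl_smul_left (r : ℂ) (l : Cov n) (a : Alt n k) : wl (r • l) a = r • wl l a := by
  ext v
  simp only [wl_apply, ContinuousAlternatingMap.smul_apply, smul_apply,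
    smul_eq_mul, Finset.mul_sum]
  exact Finset.sum_congr rfl fun i _ => by ring

theorem wl_add_right (l : Cov n) (a b : Alt n k) : wl l (a + b) = wl l a + wl l b := by
  ext v
  simp only [wl_apply, ContinuousAlternatingMap.add_apply, ← Finset.sum_add_distrib]
  exact Finset.sum_congr rfl fun i _ => by ring

theorem wl_smul_right (r : ℂ) (l : Cov n) (a : Alt n k) : wl l (r • a) = r • wl l a := by
  ext v
  simp only [wl_apply, ContinuousAlternatingMap.smul_apply, smul_eq_mul, Finset.mul_sum]
  exact Finset.sum_congr rfl fun i _ => by ring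

/-- wedge product with a covector as a bilinear map over `ℂ` -/
def wlB (n k : ℕ) : Cov n →ₗ[ℂ] Alt n k →ₗ[ℂ] Alt n (k + 1) :=
  LinearMap.mk₂ ℂ wl wl_add_left wl_smul_left wl_add_right wl_smul_right

@[simp] theorem wlB_apply (l : Cov n) (a : Alt n k) : wlB n k l a = wl l a := rfl

@[simp] theorem wl_zero_left (a : Alt n k) : wl (0 : Cov n) a = 0 := by
  rw [← wlB_apply, map_zero]; rfl

@[simp] theorem wl_zero_right (l : Cov n) : wl l (0 : Alt n k) = 0 := by
  rw [← wlB_apply, map_zero]

theorem wl_neg_left (l : Cov n) (a : Alt n k) : wl (-l) a = -wl l a := by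
  rw [← wlB_apply, map_neg]; rfl

theorem wl_neg_right (l : Cov n) (a : Alt n k) : wl l (-a) = -wl l a := by
  rw [← wlB_apply, map_neg]; rfl

theorem wl_sum_left {ι : Type*} (s : Finset ι) (l : ι → Cov n) (a : Alt n k) :
    wl (∑ i ∈ s, l i) a = ∑ i ∈ s, wl (l i) a := by
  rw [← wlB_apply, map_sum, LinearMap.sum_apply]; rfl

theorem wl_sum_right {ι : Type*} (s : Finset ι) (l : Cov n) (a : ι → Alt n k) :
    wl l (∑ i ∈ s, a i) = ∑ i ∈ s, wl l (a i) := by
  rw [← wlB_apply, map_sum]; rfl

/-- pullback of a wedge product -/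
theorem wl_comp {m : ℕ} (l : Cov n) (a : Alt n k) (f : CN m →L[ℝ] CN n) :
    (wl l a).compContinuousLinearMap f = wl (l.comp f) (a.compContinuousLinearMap f) := by
  ext v
  simp only [wl_apply, ContinuousAlternatingMap.compContinuousLinearMap_apply]
  rfl

/-- a finite sum of `l_i ∧ m_i ∧ a` only depends on the alternating form `∑ l_i ∧ m_i` -/
theorem wl_wl_eq_zero {ι : Type*} (s : Finset ι) (l m : ι → Cov n)
    (h : ∀ u v, ∑ i ∈ s, (l i u * m i v - l i v * m i u) = 0) (a : Alt n k) :
    ∑ i ∈ s, wl (l i) (wl (m i) a) = 0 := by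
  let f : CN n →ₗ[ℝ] CN n →ₗ[ℝ] (CN n [⋀^Fin k]→ₗ[ℝ] ℂ) :=
    LinearMap.mk₂ ℝ (fun x y => (∑ i ∈ s, l i x * m i y) • a.toAlternatingMap)
      (fun x x' y => by simp [add_mul, Finset.sum_add_distrib, add_smul])
      (fun r x y => by simp [mul_assoc, ← Finset.mul_sum, ← smul_smul])
      (fun x y y' => by simp [mul_add, Finset.sum_add_distrib, add_smul])
      (fun r x y => by simp [mul_left_comm, ← Finset.mul_sum, ← smul_smul])
  have hf : ∀ x y, f x y = f y x := by
    intro x y
    have := h x y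
    rw [Finset.sum_sub_distrib, sub_eq_zero] at this
    simp [f, this]
  have h1 := AlternatingMap.alternatizeUncurryFin_alternatizeUncurryFinLM_comp_of_symmetric
    (f := f) hf
  ext v
  have h2 := congrArg (fun g => g v) h1
  simp only [AlternatingMap.alternatizeUncurryFin_apply, LinearMap.comp_apply,
    AlternatingMap.alternatizeUncurryFinLM_apply] at h2
  rw [ContinuousAlternatingMap.sum_apply]
  refine Eq.trans ?_ h2
  simp only [wl_apply, f, LinearMap.mk₂_apply, AlternatingMap.smul_apply, Finset.sum_mul,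
    Finset.mul_sum, smul_eq_mul, zsmul_eq_mul]
  rw [Finset.sum_comm]
  refine Finset.sum_congr rfl fun i _ => ?_
  rw [Finset.sum_comm]
  refine Finset.sum_congr rfl fun j _ => ?_
  refine Finset.sum_congr rfl fun j' _ => ?_
  push_cast
  have : (Fin.removeNth i v) j = i.removeNth v j := rfl
  simp only [ContinuousAlternatingMap.coe_toAlternatingMap]
  ring

theorem wl_wl_self (l : Cov n) (a : Alt n k) : wl l (wl l a) = 0 := by
  have := wl_wl_eq_zero (Finset.univ : Finset Unit) (fun _ => l) (fun _ => l)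
    (fun u v => by simp [mul_comm]) a
  simpa using this

theorem wl_anticomm (l m : Cov n) (a : Alt n k) : wl l (wl m a) = -wl m (wl l a) := by
  have h := wl_wl_self (l + m) a
  simp only [wl_add_left, wl_add_right, wl_wl_self, add_zero, zero_add] at h
  exact eq_neg_of_add_eq_zero_left (by rw [← h]; abel)

/-- wedging with a complex linear covector raises the type by `(1,0)` -/
theorem IsType.wl_holo {p q : ℕ} {a : Alt n k} (ha : IsType p q a) {l : Cov n}
    (hl : ∀ (c : ℂ) v, l (c • v) = c * l v) : IsType (p + 1) q (wl l a) := by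
  intro c v
  simp only [wl_apply, Finset.mul_sum]
  refine Finset.sum_congr rfl fun i _ => ?_
  have h1 := ha c (i.removeNth v)
  have h2 : (i.removeNth fun j => c • v j) = fun j => c • (i.removeNth v) j := rfl
  rw [hl, h2, h1]
  ring

/-- wedging with a conjugate linear covector raises the type by `(0,1)` -/
theorem IsType.wl_anti {p q : ℕ} {a : Alt n k} (ha : IsType p q a) {l : Cov n}
    (hl : ∀ (c : ℂ) v, l (c • v) = starRingEnd ℂ c * l v) : IsType p (q + 1) (wl l a) := by
  intro c v
  simp only [wl_apply, Finset.mul_sum]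
  refine Finset.sum_congr rfl fun i _ => ?_
  have h1 := ha c (i.removeNth v)
  have h2 : (i.removeNth fun j => c • v j) = fun j => c • (i.removeNth v) j := rfl
  rw [hl, h2, h1]
  ring

theorem IsType.add {p q : ℕ} {a b : Alt n k} (ha : IsType p q a) (hb : IsType p q b) :
    IsType p q (a + b) := by
  intro l v
  simp only [ContinuousAlternatingMap.add_apply, ha l v, hb l v]
  ring

theorem IsType.smul {p q : ℕ} {a : Alt n k} (ha : IsType p q a) (r : ℂ) :
    IsType p q (r • a) := by
  intro l v
  simp only [ContinuousAlternatingMap.smul_apply, ha l v, smul_eq_mul]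
  ring

theorem IsType.zero {p q : ℕ} : IsType p q (0 : Alt n k) := fun _ _ => by simp

theorem IsType.sum {ι : Type*} {p q : ℕ} {a : ι → Alt n k} (s : Finset ι)
    (ha : ∀ i ∈ s, IsType p q (a i)) : IsType p q (∑ i ∈ s, a i) := by
  classical
  induction s using Finset.induction_on with
  | empty => simpa using IsType.zero
  | insert i s hi ih =>
    rw [Finset.sum_insert hi]
    exact (ha i (Finset.mem_insert_self i s)).add
      (ih fun j hj => ha j (Finset.mem_insert_of_mem hj))

/-- the standard basis vectors of `ℂ^n` -/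
def eb {n : ℕ} (j : Fin n) : CN n := Pi.single j 1

/-- the covector `dz_j` -/
def dz {n : ℕ} (j : Fin n) : Cov n := ContinuousLinearMap.proj j

/-- the complex conjugate of a covector -/
def cjCov {n : ℕ} (l : Cov n) : Cov n := Complex.conjCLE.toContinuousLinearMap.comp l

/-- the covector `d conj z_j` -/
def dzb {n : ℕ} (j : Fin n) : Cov n := cjCov (dz j)

@[simp] theorem dz_apply (j : Fin n) (v : CN n) : dz j v = v j := rfl

@[simp] theorem cjCov_apply (l : Cov n) (v : CN n) : cjCov l v = starRingEnd ℂ (l v) := rfl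

@[simp] theorem dzb_apply (j : Fin n) (v : CN n) : dzb j v = starRingEnd ℂ (v j) := rfl

/-- the `dz_j`-component of a real-linear map on `ℂ^n` -/
def comp10 {F : Type*} [AddCommGroup F] [Module ℂ F] (T : CN n → F) (j : Fin n) : F :=
  (1 / 2 : ℂ) • (T (eb j) - Complex.I • T (Complex.I • eb j))

/-- the `d conj z_j`-component of a real-linear map on `ℂ^n` -/
def comp01 {F : Type*} [AddCommGroup F] [Module ℂ F] (T : CN n → F) (j : Fin n) : F :=
  (1 / 2 : ℂ) • (T (eb j) + Complex.I • T (Complex.I • eb j))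

theorem real_decomp (v : CN n) :
    v = ∑ j, ((v j).re • eb j + (v j).im • (Complex.I • eb j)) := by
  funext i
  simp only [Finset.sum_apply, Pi.add_apply, Pi.smul_apply, eb]
  rw [Finset.sum_eq_single i]
  · simp [mul_comm]
    rw [mul_comm, Complex.re_add_im]
  · intro j _ hj
    simp [Pi.single_eq_of_ne (Ne.symm hj)]
  · simp

theorem decomp_apply {F : Type*} [AddCommGroup F] [Module ℂ F] (T : CN n →ₗ[ℝ] F) (v : CN n) :
    T v = ∑ j, (v j • comp10 T j + starRingEnd ℂ (v j) • comp01 T j) := by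
  conv_lhs => rw [real_decomp v]
  rw [map_sum]
  refine Finset.sum_congr rfl fun j _ => ?_
  rw [map_add, map_smul, map_smul]
  simp only [comp10, comp01, smul_smul, smul_sub, smul_add]
  have h1 : (v j).re • T (eb j) = ((v j).re : ℂ) • T (eb j) := rfl
  have h2 : (v j).im • T (Complex.I • eb j) = ((v j).im : ℂ) • T (Complex.I • eb j) := rfl
  rw [h1, h2]
  have e1 : (v j) = (v j).re + (v j).im * Complex.I := (Complex.re_add_im _).symm
  have e2 : starRingEnd ℂ (v j) = (v j).re - (v j).im * Complex.I := by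
    apply Complex.ext <;> simp
  rw [e2]
  conv_rhs => rw [e1]
  match_scalars <;> ring_nf <;> simp <;> ring_nf

/-- alternation of a form valued linear map in terms of `dz_j` and `d conj z_j` -/
theorem alternatize_decomp (T : CN n →L[ℝ] Alt n k) :
    ContinuousAlternatingMap.alternatizeUncurryFin T =
      ∑ j, (wl (dz j) (comp10 T j) + wl (dzb j) (comp01 T j)) := by
  ext v
  rw [ContinuousAlternatingMap.alternatizeUncurryFin_apply, ContinuousAlternatingMap.sum_apply]
  simp only [ContinuousAlternatingMap.add_apply, wl_apply, dz_apply, dzb_apply,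
    ← Finset.sum_add_distrib]
  rw [Finset.sum_comm]
  refine Finset.sum_congr rfl fun i _ => ?_
  have h := congrArg (fun a : Alt n k => a (i.removeNth v))
    (decomp_apply (T : CN n →ₗ[ℝ] Alt n k) (v i))
  simp only [ContinuousAlternatingMap.sum_apply, ContinuousAlternatingMap.add_apply,
    ContinuousAlternatingMap.smul_apply, smul_eq_mul] at h
  change T (v i) (i.removeNth v) = _ at h
  rw [h, zsmul_eq_mul, Finset.mul_sum]
  refine Finset.sum_congr rfl fun j _ => ?_
  push_cast
  have c1 : comp10 (⇑(T : CN n →ₗ[ℝ] Alt n k)) j = comp10 (⇑T) j := rfl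
  have c2 : comp01 (⇑(T : CN n →ₗ[ℝ] Alt n k)) j = comp01 (⇑T) j := rfl
  exact mul_add _ _ _

/-- Wirtinger derivative `∂_j` -/
def pd {F : Type*} [NormedAddCommGroup F] [NormedSpace ℂ F] (j : Fin n) (f : CN n → F)
    (y : CN n) : F := comp10 (fderiv ℝ f y) j

/-- Wirtinger derivative `conj ∂_j` -/
def pdb {F : Type*} [NormedAddCommGroup F] [NormedSpace ℂ F] (j : Fin n) (f : CN n → F)
    (y : CN n) : F := comp01 (fderiv ℝ f y) j

/-- exterior derivative in terms of Wirtinger derivatives -/
theorem extDeriv_decomp (f : CN n → Alt n k) (y : CN n) :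
    extDeriv f y = ∑ j, (wl (dz j) (pd j f y) + wl (dzb j) (pdb j f y)) :=
  alternatize_decomp _

/-- `a ↦ l ⊗ a` as a linear map -/
def smulRL (l : Cov n) : Alt n k →ₗ[ℝ] (CN n →L[ℝ] Alt n k) where
  toFun a := l.smulRight a
  map_add' a b := by ext v; simp
  map_smul' r a := by
    ext v w
    simp only [ContinuousLinearMap.smulRight_apply, ContinuousAlternatingMap.smul_apply,
      smul_apply, RingHom.id_apply, Complex.real_smul, smul_eq_mul]
    ring

theorem smulRL_bound (l : Cov n) (a : Alt n k) : ‖smulRL l a‖ ≤ ‖l‖ * ‖a‖ := by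
  refine ContinuousLinearMap.opNorm_le_bound _ (by positivity) fun v => ?_
  change ‖l v • a‖ ≤ _
  rw [norm_smul]
  calc ‖l v‖ * ‖a‖ ≤ (‖l‖ * ‖v‖) * ‖a‖ := by gcongr; exact l.le_opNorm v
    _ = ‖l‖ * ‖a‖ * ‖v‖ := by ring

/-- `a ↦ l ⊗ a` as a continuous linear map -/
def smulRC (l : Cov n) : Alt n k →L[ℝ] (CN n →L[ℝ] Alt n k) where
  toLinearMap := smulRL l
  cont := AddMonoidHomClass.continuous_of_bound (smulRL l) ‖l‖ (smulRL_bound l)

/-- wedge product with a covector as a continuous linear map -/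
def wlC (l : Cov n) : Alt n k →L[ℝ] Alt n (k + 1) :=
  (ContinuousAlternatingMap.alternatizeUncurryFinCLM ℝ (CN n) ℂ).comp (smulRC l)

@[simp] theorem wlC_apply (l : Cov n) (a : Alt n k) : wlC l a = wl l a := rfl

/-- exterior derivative of a constant covector wedge a form -/
theorem extDeriv_wl_const (l : Cov n) {f : CN n → Alt n k} {y : CN n}
    (hf : DifferentiableAt ℝ f y) :
    extDeriv (fun z => wl l (f z)) y = -wl l (extDeriv f y) := by
  have h1 : fderiv ℝ (fun z => wl l (f z)) y = (wlC l).comp (fderiv ℝ f y) :=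
    ((wlC (k := k) l).hasFDerivAt.comp y hf.hasFDerivAt).fderiv
  have e0 : extDeriv (fun z => wl l (f z)) y =
    ContinuousAlternatingMap.alternatizeUncurryFin ((wlC l).comp (fderiv ℝ f y)) := by
    rw [← h1]; rfl
  rw [e0, extDeriv_decomp, alternatize_decomp, wl_sum_right, ← Finset.sum_neg_distrib]
  refine Finset.sum_congr rfl fun j _ => ?_
  have e1 : comp10 ((wlC l).comp (fderiv ℝ f y)) j = wl l (pd j f y) := by
    simp only [pd, comp10, sub_eq_add_neg, wl_smul_right, wl_add_right, wl_neg_right]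
    rfl
  have e2 : comp01 ((wlC l).comp (fderiv ℝ f y)) j = wl l (pdb j f y) := by
    simp only [pdb, comp01, wl_smul_right, wl_add_right]
    rfl
  rw [e1, e2, wl_add_right, wl_anticomm (dz j) l, wl_anticomm (dzb j) l, neg_add]

/-- exterior derivative of a function times a form -/
theorem extDeriv_smul_fun {g : CN n → ℂ} {f : CN n → Alt n k} {y : CN n}
    (hg : DifferentiableAt ℝ g y) (hf : DifferentiableAt ℝ f y) :
    extDeriv (fun z => g z • f z) y = wl (fderiv ℝ g y) (f y) + g y • extDeriv f y := by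
  have h1 : fderiv ℝ (fun z => g z • f z) y =
      g y • fderiv ℝ f y + (fderiv ℝ g y).smulRight (f y) := fderiv_fun_smul hg hf
  have h2 : extDeriv (fun z => g z • f z) y = ContinuousAlternatingMap.alternatizeUncurryFin
      (g y • fderiv ℝ f y + (fderiv ℝ g y).smulRight (f y)) := by rw [← h1]; rfl
  rw [h2, ContinuousAlternatingMap.alternatizeUncurryFin_add,
    ContinuousAlternatingMap.alternatizeUncurryFin_smul]
  exact add_comm (g y • extDeriv f y) (wl (fderiv ℝ g y) (f y))

theorem differentiableAt_wl_const (l : Cov n) {f : CN n → Alt n k} {y : CN n}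
    (hf : DifferentiableAt ℝ f y) : DifferentiableAt ℝ (fun z => wl l (f z)) y :=
  ((wlC (k := k) l).differentiableAt.comp y hf :)

/-- Leibniz rule for a variable covector `∑ g_j l_j`, `l_j` constant -/
theorem extDeriv_wl_sum {ι : Type*} (s : Finset ι) (g : ι → CN n → ℂ) (l : ι → Cov n)
    {f : CN n → Alt n k} {y : CN n} (hg : ∀ i ∈ s, DifferentiableAt ℝ (g i) y)
    (hf : DifferentiableAt ℝ f y) :
    extDeriv (fun z => wl (∑ i ∈ s, g i z • l i) (f z)) y =
      ∑ i ∈ s, wl (fderiv ℝ (g i) y) (wl (l i) (f y)) -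
        wl (∑ i ∈ s, g i y • l i) (extDeriv f y) := by
  classical
  have h1 : (fun z => wl (∑ i ∈ s, g i z • l i) (f z)) =
      fun z => ∑ i ∈ s, g i z • wl (l i) (f z) := by
    funext z
    rw [wl_sum_left]
    exact Finset.sum_congr rfl fun i _ => wl_smul_left _ _ _
  rw [h1]
  have h2 : extDeriv (fun z => ∑ i ∈ s, g i z • wl (l i) (f z)) y =
      ∑ i ∈ s, extDeriv (fun z => g i z • wl (l i) (f z)) y := by
    have h3 : fderiv ℝ (fun z => ∑ i ∈ s, g i z • wl (l i) (f z)) y =
        ∑ i ∈ s, fderiv ℝ (fun z => g i z • wl (l i) (f z)) y :=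
      fderiv_fun_sum fun i hi => (hg i hi).smul (differentiableAt_wl_const (l i) hf)
    have h4 : extDeriv (fun z => ∑ i ∈ s, g i z • wl (l i) (f z)) y =
      ContinuousAlternatingMap.alternatizeUncurryFinCLM ℝ (CN n) ℂ
        (∑ i ∈ s, fderiv ℝ (fun z => g i z • wl (l i) (f z)) y) := by rw [← h3]; rfl
    rw [h4, map_sum]
    rfl
  rw [h2, wl_sum_left, ← Finset.sum_sub_distrib]
  refine Finset.sum_congr rfl fun i hi => ?_
  rw [extDeriv_smul_fun (hg i hi) (differentiableAt_wl_const (l i) hf), extDeriv_wl_const _ hf,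
    wl_smul_left, smul_neg, sub_eq_add_neg]

theorem eq_sum_comp (l : Cov n) :
    l = ∑ j, (comp10 l j • dz j + comp01 l j • dzb j) := by
  ext v
  have h := decomp_apply (l : CN n →ₗ[ℝ] ℂ) v
  change l v = _ at h
  rw [h]
  simp only [_root_.sum_apply, add_apply, smul_apply, dz_apply, dzb_apply, smul_eq_mul]
  refine Finset.sum_congr rfl fun j _ => ?_
  have c1 : comp10 (⇑(l : CN n →ₗ[ℝ] ℂ)) j = comp10 (⇑l) j := rfl
  have c2 : comp01 (⇑(l : CN n →ₗ[ℝ] ℂ)) j = comp01 (⇑l) j := rfl
  rw [c1, c2]
  ring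

/-- the wedge product of a smooth covector field and a smooth form is smooth -/
theorem contDiffOn_wl {U : Set (CN n)} {l : CN n → Cov n} {f : CN n → Alt n k}
    (hl : ContDiffOn ℝ ∞ l U) (hf : ContDiffOn ℝ ∞ f U) :
    ContDiffOn ℝ ∞ (fun y => wl (l y) (f y)) U := by
  have h1 : (fun y => wl (l y) (f y)) = fun y =>
      ∑ j, (comp10 (l y) j • wlC (dz j) (f y) + comp01 (l y) j • wlC (dzb j) (f y)) := by
    funext y
    conv_lhs => rw [eq_sum_comp (l y)]
    rw [wl_sum_left]
    refine Finset.sum_congr rfl fun j _ => ?_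
    rw [wl_add_left, wl_smul_left, wl_smul_left]
    rfl
  rw [h1]
  have hev : ∀ v : CN n, ContDiffOn ℝ ∞ (fun y => l y v) U := fun v =>
    hl.clm_apply contDiffOn_const
  refine ContDiffOn.sum fun j _ => ?_
  have a1 : ContDiffOn ℝ ∞ (fun y => comp10 (l y) j) U :=
    ((hev _).sub ((hev _).const_smul Complex.I)).const_smul (1 / 2 : ℂ)
  have a2 : ContDiffOn ℝ ∞ (fun y => comp01 (l y) j) U :=
    ((hev _).add ((hev _).const_smul Complex.I)).const_smul (1 / 2 : ℂ)
  have b1 : ContDiffOn ℝ ∞ (fun y => wlC (dz j) (f y)) U :=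
    (wlC (k := k) (dz j)).contDiff.comp_contDiffOn hf
  have b2 : ContDiffOn ℝ ∞ (fun y => wlC (dzb j) (f y)) U :=
    (wlC (k := k) (dzb j)).contDiff.comp_contDiffOn hf
  exact (a1.smul b1).add (a2.smul b2)

end Pool.Agent.W491.FS
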